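import Mathlib
import Pool.Agent.Helper450.Kneser

set_option autoImplicit false
set_option linter.unusedSectionVars false

open Finset
open scoped Pointwise
open Pool.Agent.Helper450.Kneser

namespace Pool.Agent.Helper450.WZ

variable {G : Type*} [AddCommGroup G] [Fintype G] [DecidableEq G]

/-- `C` is a union of `H`-cosets. -/
def Per (H : AddSubgroup G) (C : Finset G) : Prop := ∀ c ∈ C, ∀ g ∈ H, c + g ∈ C

theorem Per.le_stab {H : AddSubgroup G} {C : Finset G} (h : Per H C) : H ≤ stab C :=
  fun g hg => mem_stab_of_forall fun x hx => h x hx g hg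

theorem per_of_le_stab {H : AddSubgroup G} {C : Finset G} (h : H ≤ stab C) : Per H C :=
  fun _ hc _ hg => stab_add (h hg) hc

theorem per_stab (C : Finset G) : Per (stab C) C := per_of_le_stab le_rfl

theorem mem_add_fs {H : AddSubgroup G} {A : Finset G} {x : G} :
    x ∈ A + fs H ↔ ∃ a ∈ A, x - a ∈ H := by
  rw [Finset.mem_add]
  constructor
  · rintro ⟨a, ha, g, hg, rfl⟩
    exact ⟨a, ha, by rw [add_sub_cancel_left]; exact mem_fs.mp hg⟩
  · rintro ⟨a, ha, h⟩
    exact ⟨a, ha, x - a, mem_fs.mpr h, by abel⟩

theorem per_add_fs (H : AddSubgroup G) (A : Finset G) : Per H (A + fs H) := by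
  intro c hc g hg
  rw [mem_add_fs] at hc ⊢
  obtain ⟨a, ha, h⟩ := hc
  exact ⟨a, ha, by rw [add_sub_right_comm]; exact H.add_mem h hg⟩

theorem Per.add_fs_eq {H : AddSubgroup G} {C : Finset G} (h : Per H C) : C + fs H = C :=
  add_fs_stab _ _ h.le_stab

theorem Per.add {H : AddSubgroup G} {C : Finset G} (h : Per H C) (D : Finset G) :
    Per H (C + D) := by
  intro y hy g hg
  obtain ⟨c, hc, d, hd, rfl⟩ := Finset.mem_add.mp hy
  exact Finset.mem_add.mpr ⟨c + g, h c hc g hg, d, hd, by abel⟩

theorem Per.add' {H : AddSubgroup G} {C : Finset G} (h : Per H C) (D : Finset G) :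
    Per H (D + C) := by
  rw [add_comm]; exact h.add D

theorem Per.mem_of_sub_mem {H : AddSubgroup G} {C : Finset G} (h : Per H C) {a b : G}
    (hab : b - a ∈ H) (ha : a ∈ C) : b ∈ C := by
  have := h a ha _ hab
  rwa [add_sub_cancel] at this

theorem Per.mono {H K : AddSubgroup G} {C : Finset G} (h : Per K C) (hHK : H ≤ K) : Per H C :=
  fun c hc g hg => h c hc g (hHK hg)

theorem Per.filter {H : AddSubgroup G} {C : Finset G} (h : Per H C) (P : G → Prop)
    [DecidablePred P] (hP : ∀ c, ∀ g ∈ H, P c → P (c + g)) : Per H (C.filter P) := by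
  intro c hc g hg
  rw [Finset.mem_filter] at hc ⊢
  exact ⟨h c hc.1 g hg, hP c g hg hc.2⟩

theorem subset_add_fs (H : AddSubgroup G) (A : Finset G) : A ⊆ A + fs H := by
  intro a ha
  rw [mem_add_fs]
  exact ⟨a, ha, by rw [sub_self]; exact H.zero_mem⟩

theorem Per.add_fs_subset {H : AddSubgroup G} {A C : Finset G} (h : Per H C) (hAC : A ⊆ C) :
    A + fs H ⊆ C := by
  intro x hx
  rw [mem_add_fs] at hx
  obtain ⟨a, ha, hx⟩ := hx
  exact h.mem_of_sub_mem hx (hAC ha)

/-- The coset `g + H`. -/
noncomputable def cs (H : AddSubgroup G) (g : G) : Finset G := (fs H).image (fun x => g + x)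

theorem mem_cs {H : AddSubgroup G} {g a : G} : a ∈ cs H g ↔ a - g ∈ H := by
  unfold cs
  rw [Finset.mem_image]
  constructor
  · rintro ⟨x, hx, rfl⟩
    rw [add_sub_cancel_left]; exact mem_fs.mp hx
  · intro h
    exact ⟨a - g, mem_fs.mpr h, by abel⟩

theorem self_mem_cs (H : AddSubgroup G) (g : G) : g ∈ cs H g := by
  rw [mem_cs, sub_self]; exact H.zero_mem

theorem card_cs (H : AddSubgroup G) (g : G) : (cs H g).card = (fs H).card :=
  Finset.card_image_of_injective _ (add_right_injective g)

theorem per_cs (H : AddSubgroup G) (g : G) : Per H (cs H g) := by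
  intro c hc y hy
  rw [mem_cs] at hc ⊢
  rw [add_sub_right_comm]
  exact H.add_mem hc hy

theorem Per.cs_subset {H : AddSubgroup G} {C : Finset G} (h : Per H C) {g : G} (hg : g ∈ C) :
    cs H g ⊆ C := by
  intro y hy
  rw [mem_cs] at hy
  exact h.mem_of_sub_mem hy hg

theorem cs_disjoint {H : AddSubgroup G} {a b : G} (h : a - b ∉ H) :
    Disjoint (cs H a) (cs H b) := by
  rw [Finset.disjoint_left]
  intro y hy hy'
  rw [mem_cs] at hy hy'
  apply h
  have := H.sub_mem hy' hy
  have e : y - b - (y - a) = a - b := by abel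
  rwa [e] at this

theorem Per.sdiff_cs {H : AddSubgroup G} {C : Finset G} (h : Per H C) (g : G) :
    Per H (C \ cs H g) := by
  intro c hc y hy
  rw [Finset.mem_sdiff] at hc ⊢
  refine ⟨h c hc.1 y hy, fun h' => hc.2 ?_⟩
  rw [mem_cs] at h' ⊢
  have := H.sub_mem h' hy
  have e : c + y - g - y = c - g := by abel
  rwa [e] at this

theorem Per.card_dvd {H : AddSubgroup G} {C : Finset G} (h : Per H C) :
    (fs H).card ∣ C.card := by
  induction hn : C.card using Nat.strong_induction_on generalizing C with
  | _ n ih =>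
    rcases C.eq_empty_or_nonempty with rfl | ⟨c, hc⟩
    · rw [Finset.card_empty] at hn; rw [← hn]; exact dvd_zero _
    · have hsub := h.cs_subset hc
      have h1 := Finset.card_sdiff_add_card_eq_card hsub
      rw [card_cs] at h1
      have hpos := fs_card_pos H
      have h2 := ih (C \ cs H c).card (by omega) (h.sdiff_cs c) rfl
      rw [← hn, ← h1]
      exact Dvd.dvd.add h2 (dvd_refl _)

theorem fs_card_dvd_of_le {H K : AddSubgroup G} (h : H ≤ K) : (fs H).card ∣ (fs K).card := by
  apply Per.card_dvd
  intro c hc g hg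
  rw [mem_fs] at hc ⊢
  exact K.add_mem hc (h hg)

theorem fs_card_dvd_card (H : AddSubgroup G) : (fs H).card ∣ Fintype.card G := by
  rw [← Finset.card_univ]
  apply Per.card_dvd
  intro c _ g _
  exact Finset.mem_univ _

theorem fs_eq_of_le_of_card {H K : AddSubgroup G} (h : H ≤ K) (hc : (fs K).card ≤ (fs H).card) :
    H = K := by
  have := Finset.eq_of_subset_of_card_le (fs_mono h) hc
  apply le_antisymm h
  intro x hx
  rw [← mem_fs, this, mem_fs]
  exact hx

/-- fibres of a surjective homomorphism -/
theorem card_fiber {M : Type*} [AddCommGroup M] [Fintype M] [DecidableEq M] (φ : G →+ M)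
    (hφ : Function.Surjective φ) (m : M) :
    (univ.filter fun g => φ g = m).card * Fintype.card M = Fintype.card G := by
  have h0 : ∀ m', (univ.filter fun g => φ g = m').card = (univ.filter fun g => φ g = m).card := by
    intro m'
    obtain ⟨u, hu⟩ := hφ (m - m')
    apply Finset.card_bij (fun g _ => g + u)
    · intro g hg
      rw [Finset.mem_filter] at hg ⊢
      refine ⟨Finset.mem_univ _, ?_⟩
      rw [map_add, hg.2, hu]; abel
    · intro a _ b _ hab
      exact add_right_cancel hab
    · intro b hb
      rw [Finset.mem_filter] at hb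
      refine ⟨b - u, ?_, by abel⟩
      rw [Finset.mem_filter]
      refine ⟨Finset.mem_univ _, ?_⟩
      rw [map_sub, hb.2, hu]; abel
  have h1 := Finset.card_eq_sum_card_fiberwise (s := (univ : Finset G)) (t := (univ : Finset M))
    (f := φ) (fun _ _ => Finset.mem_univ _)
  rw [Finset.card_univ] at h1
  rw [h1, Finset.sum_congr rfl fun m' _ => h0 m', Finset.sum_const, Finset.card_univ, smul_eq_mul,
    mul_comm]

/-- The kernel as a subgroup. -/
theorem card_fs_ker {M : Type*} [AddCommGroup M] [Fintype M] [DecidableEq M] (φ : G →+ M)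
    (hφ : Function.Surjective φ) : (fs φ.ker).card * Fintype.card M = Fintype.card G := by
  rw [← card_fiber φ hφ 0]
  congr 2
  ext g
  simp [mem_fs, AddMonoidHom.mem_ker]

theorem fs_card_dvd_fiber {M : Type*} [AddCommGroup M] [Fintype M] [DecidableEq M] (φ : G →+ M)
    {H : AddSubgroup G} (hH : ∀ g ∈ H, φ g = 0) (m : M) :
    (fs H).card ∣ (univ.filter fun g => φ g = m).card := by
  apply Per.card_dvd
  intro c hc g hg
  rw [Finset.mem_filter] at hc ⊢
  exact ⟨Finset.mem_univ _, by rw [map_add, hc.2, hH g hg, add_zero]⟩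

/-- Three-fold Kneser theorem. -/
theorem kneser3 (A B C : Finset G) (hA : A.Nonempty) (hB : B.Nonempty) (hC : C.Nonempty) :
    (A + fs (stab (A + B + C))).card + (B + fs (stab (A + B + C))).card +
      (C + fs (stab (A + B + C))).card ≤
      (A + B + C).card + 2 * (fs (stab (A + B + C))).card := by
  set H := stab (A + B + C) with hH
  have h1 := kneser' (A + B) C (hA.add hB) hC
  rw [← hH] at h1
  have hHH : fs H + fs H = fs H := by
    apply Per.add_fs_eq
    intro c hc g hg
    rw [mem_fs] at hc ⊢
    exact H.add_mem hc hg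
  have e : (A + fs H) + (B + fs H) = A + B + fs H := by
    rw [add_add_add_comm, hHH]
  have hst : stab ((A + fs H) + (B + fs H)) = H := by
    rw [e]
    apply le_antisymm
    · intro g hg
      have h2 : Per (stab (A + B + fs H)) (A + B + fs H + C) := (per_stab _).add C
      have h3 : A + B + fs H + C = A + B + C := by
        have : A + B + C + fs H = A + B + C := Per.add_fs_eq (per_stab _)
        rw [add_right_comm, this]
      rw [h3] at h2
      exact h2.le_stab hg
    · exact (per_add_fs H _).le_stab
  have h2 := kneser' (A + fs H) (B + fs H) (hA.add (fs_nonempty H)) (hB.add (fs_nonempty H))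
  rw [hst, e, add_assoc A, add_assoc B, hHH] at h2
  omega

/-- Kneser bound for three sets whose sums lie in one fibre of `φ` and avoid `x`. -/
theorem k3 {M : Type*} [AddCommGroup M] [Fintype M] [DecidableEq M] (φ : G →+ M)
    {A B C : Finset G} (hA : A.Nonempty) (hB : B.Nonempty) (hC : C.Nonempty) {x : G}
    (hφ : ∀ a ∈ A, ∀ b ∈ B, ∀ c ∈ C, φ (a + b + c) = φ x)
    (hx : ∀ a ∈ A, ∀ b ∈ B, ∀ c ∈ C, a + b + c ≠ x) :
    (∀ g ∈ stab (A + B + C), φ g = 0) ∧
    (A + fs (stab (A + B + C))).card + (B + fs (stab (A + B + C))).card +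
      (C + fs (stab (A + B + C))).card ≤
      (univ.filter fun g => φ g = φ x).card + (fs (stab (A + B + C))).card := by
  set H := stab (A + B + C) with hH
  have hmem : ∀ y ∈ A + B + C, φ y = φ x := by
    intro y hy
    obtain ⟨z, hz, c, hc, rfl⟩ := Finset.mem_add.mp hy
    obtain ⟨a, ha, b, hb, rfl⟩ := Finset.mem_add.mp hz
    exact hφ a ha b hb c hc
  have hxn : x ∉ A + B + C := by
    intro hy
    obtain ⟨z, hz, c, hc, h⟩ := Finset.mem_add.mp hy
    obtain ⟨a, ha, b, hb, rfl⟩ := Finset.mem_add.mp hz
    exact hx a ha b hb c hc h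
  have hk : ∀ g ∈ H, φ g = 0 := by
    intro g hg
    obtain ⟨y, hy⟩ := (hA.add hB).add hC
    have h1 := hmem y hy
    have h2 := hmem (y + g) (stab_add hg hy)
    rw [map_add, h1] at h2
    simpa using h2
  refine ⟨hk, ?_⟩
  have h1 := kneser3 A B C hA hB hC
  rw [← hH] at h1
  have h2 : (A + B + C).card + (fs H).card ≤ (univ.filter fun g => φ g = φ x).card := by
    rw [← card_cs H x, ← Finset.card_union_of_disjoint]
    · apply Finset.card_le_card
      intro y hy
      rw [Finset.mem_filter]
      refine ⟨Finset.mem_univ _, ?_⟩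
      rcases Finset.mem_union.mp hy with hy | hy
      · exact hmem y hy
      · rw [mem_cs] at hy
        have := hk _ hy
        rw [map_sub, sub_eq_zero] at this
        exact this
    · rw [Finset.disjoint_left]
      intro y hy hy'
      rw [mem_cs] at hy'
      apply hxn
      have h3 : Per H (A + B + C) := per_stab _
      refine h3.mem_of_sub_mem ?_ hy
      rw [← neg_sub]
      exact H.neg_mem hy'
  omega

/-- Two subsets of cosets with more than `|H|` elements in total represent every element of the
sum coset. -/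
theorem pigeon {H : AddSubgroup G} {U V : Finset G} {g1 g2 t : G} (hU : U ⊆ cs H g1)
    (hV : V ⊆ cs H g2) (ht : t - g1 - g2 ∈ H) (hc : (fs H).card < U.card + V.card) :
    ∃ u ∈ U, ∃ v ∈ V, u + v = t := by
  by_contra hcon
  push Not at hcon
  have h1 : Disjoint U (V.image fun v => t - v) := by
    rw [Finset.disjoint_left]
    intro u hu hu'
    obtain ⟨v, hv, rfl⟩ := Finset.mem_image.mp hu'
    exact hcon _ hu v hv (by abel)
  have h2 : U ∪ (V.image fun v => t - v) ⊆ cs H g1 := by
    intro y hy
    rcases Finset.mem_union.mp hy with hy | hy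
    · exact hU hy
    · obtain ⟨v, hv, rfl⟩ := Finset.mem_image.mp hy
      have := hV hv
      rw [mem_cs] at this ⊢
      have e : t - v - g1 = (t - g1 - g2) - (v - g2) := by abel
      rw [e]
      exact H.sub_mem ht this
  have h3 := Finset.card_le_card h2
  rw [Finset.card_union_of_disjoint h1, card_cs,
    Finset.card_image_of_injective _ (sub_right_injective)] at h3
  omega

end Pool.Agent.Helper450.WZ
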