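import Mathlib
import Pool.Agent.Helper450.WZBasic

set_option autoImplicit false
set_option linter.unusedSectionVars false

open Finset
open scoped Pointwise
open Pool.Agent.Helper450.Kneser

namespace Pool.Agent.Helper450.WZ

variable {G : Type*} [AddCommGroup G] [Fintype G] [DecidableEq G]

/-- no three distinct elements of `A` sum to `x` -/
def Bad3 (A : Finset G) (x : G) : Prop :=
  ∀ a ∈ A, ∀ b ∈ A, ∀ c ∈ A, a ≠ b → b ≠ c → a ≠ c → a + b + c ≠ x

/-- no four distinct elements of `A` sum to `x` -/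
def Bad4 (A : Finset G) (x : G) : Prop :=
  ∀ a ∈ A, ∀ b ∈ A, ∀ c ∈ A, ∀ d ∈ A, a ≠ b → a ≠ c → a ≠ d → b ≠ c → b ≠ d → c ≠ d →
    a + b + c + d ≠ x

/-- The first structural step: `A` nearly fills `A + H` for some `H`. -/
theorem exists_star {k : ℕ} (hG : Fintype.card G = 9 * k) (hk : 0 < k) (π : G →+ ZMod 3)
    (hπ : Function.Surjective π) {x : G} (hx : π x = 0) {A : Finset G}
    (hA : A.card = 3 * k + 3) (hbad : Bad3 A x) :
    ∃ H : AddSubgroup G, (∀ g ∈ H, π g = 0) ∧ (fs H).card ∣ 3 * k ∧ 3 ≤ (fs H).card ∧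
      (A + fs H).card = 3 * k + (fs H).card := by
  have hfib : ∀ m, (univ.filter fun g => π g = m).card = 3 * k := by
    intro m
    have := card_fiber π hπ m
    rw [hG, ZMod.card] at this
    omega
  have hker : (fs π.ker).card = 3 * k := by
    have := card_fs_ker π hπ
    rw [hG, ZMod.card] at this
    omega
  -- it suffices to find `H` in the kernel with `|A + H| ≤ 3k + |H|`
  suffices h : ∃ H : AddSubgroup G, (∀ g ∈ H, π g = 0) ∧
      (A + fs H).card ≤ 3 * k + (fs H).card by
    obtain ⟨H, hH, hle⟩ := h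
    have hle' : H ≤ π.ker := fun g hg => AddMonoidHom.mem_ker.mpr (hH g hg)
    have hd : (fs H).card ∣ 3 * k := by
      rw [← hker]; exact fs_card_dvd_of_le hle'
    have hge : A.card ≤ (A + fs H).card := Finset.card_le_card (subset_add_fs H A)
    have hd2 : (fs H).card ∣ (A + fs H).card := (per_add_fs H A).card_dvd
    have hd3 : (fs H).card ∣ (A + fs H).card - 3 * k := Nat.dvd_sub hd2 hd
    have h4 := Nat.le_of_dvd (by omega) hd3
    refine ⟨H, hH, hd, by omega, by omega⟩
  by_cases hall : ∀ i : ZMod 3, (A.filter fun a => π a = i).Nonempty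
  · -- all classes nonempty: Kneser
    obtain ⟨h1, h2⟩ := k3 π (hall 0) (hall 1) (hall 2) (x := x) (by
      intro a ha b hb c hc
      rw [Finset.mem_filter] at ha hb hc
      rw [map_add, map_add, ha.2, hb.2, hc.2, hx]
      decide) (by
      intro a ha b hb c hc
      rw [Finset.mem_filter] at ha hb hc
      apply hbad a ha.1 b hb.1 c hc.1
      · rintro rfl
        exact absurd (ha.2.symm.trans hb.2) (by decide)
      · rintro rfl
        exact absurd (hb.2.symm.trans hc.2) (by decide)
      · rintro rfl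
        exact absurd (ha.2.symm.trans hc.2) (by decide))
    rw [hfib] at h2
    refine ⟨_, h1, le_trans ?_ h2⟩
    set H := stab ((A.filter fun a => π a = 0) + (A.filter fun a => π a = 1) +
      (A.filter fun a => π a = 2))
    have h3 : A + fs H ⊆ ((A.filter fun a => π a = 0) + fs H) ∪
        ((A.filter fun a => π a = 1) + fs H) ∪ ((A.filter fun a => π a = 2) + fs H) := by
      intro y hy
      obtain ⟨a, ha, g, hg, rfl⟩ := Finset.mem_add.mp hy
      have h3 : π a = 0 ∨ π a = 1 ∨ π a = 2 := by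
        have : ∀ z : ZMod 3, z = 0 ∨ z = 1 ∨ z = 2 := by decide
        exact this _
      rw [Finset.mem_union, Finset.mem_union]
      rcases h3 with h | h | h
      · exact Or.inl (Or.inl (Finset.add_mem_add (Finset.mem_filter.mpr ⟨ha, h⟩) hg))
      · exact Or.inl (Or.inr (Finset.add_mem_add (Finset.mem_filter.mpr ⟨ha, h⟩) hg))
      · exact Or.inr (Finset.add_mem_add (Finset.mem_filter.mpr ⟨ha, h⟩) hg)
    refine (Finset.card_le_card h3).trans ?_
    refine (Finset.card_union_le _ _).trans ?_
    have := Finset.card_union_le ((A.filter fun a => π a = 0) + fs H)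
      ((A.filter fun a => π a = 1) + fs H)
    omega
  · -- some class is empty
    push Not at hall
    obtain ⟨i, hi⟩ := hall
    refine ⟨π.ker, fun g hg => AddMonoidHom.mem_ker.mp hg, ?_⟩
    rw [hker]
    have h1 : Disjoint (A + fs π.ker) (univ.filter fun g => π g = i) := by
      rw [Finset.disjoint_left]
      intro y hy hy'
      obtain ⟨a, ha, h⟩ := mem_add_fs.mp hy
      rw [Finset.mem_filter] at hy'
      have h2 : π a = i := by
        have := AddMonoidHom.mem_ker.mp h
        rw [map_sub, sub_eq_zero] at this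
        rw [← this]; exact hy'.2
      have h3 : a ∈ A.filter fun a => π a = i := Finset.mem_filter.mpr ⟨ha, h2⟩
      rw [hi] at h3
      exact absurd h3 (Finset.notMem_empty _)
    have h2 := Finset.card_le_univ ((A + fs π.ker) ∪ (univ.filter fun g => π g = i))
    rw [Finset.card_union_of_disjoint h1, hfib, hG] at h2
    omega

/-- the standing data after the first step -/
structure Star (H : AddSubgroup G) (A : Finset G) : Prop where
  three : 3 ≤ (fs H).card
  holes : ((A + fs H) \ A).card + 3 = (fs H).card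

theorem star_of_card {H : AddSubgroup G} {A : Finset G} {k : ℕ} (h3 : 3 ≤ (fs H).card)
    (hA : A.card = 3 * k + 3) (hc : (A + fs H).card = 3 * k + (fs H).card) : Star H A := by
  refine ⟨h3, ?_⟩
  have := Finset.card_sdiff_add_card_eq_card (subset_add_fs H A)
  omega

theorem coset_card {H : AddSubgroup G} (A : Finset G) (g : G) :
    (A ∩ cs H g).card + (cs H g \ A).card = (fs H).card := by
  rw [← card_cs H g, Finset.inter_comm]
  have := Finset.card_sdiff_add_card_inter (cs H g) A
  omega

theorem Star.one {H : AddSubgroup G} {A : Finset G} (h : Star H A) {g : G} (hg : g ∈ A + fs H) :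
    3 ≤ (A ∩ cs H g).card := by
  have h1 := coset_card (H := H) A g
  have h2 : cs H g \ A ⊆ (A + fs H) \ A := by
    intro y hy
    rw [Finset.mem_sdiff] at hy ⊢
    exact ⟨(per_add_fs H A).cs_subset hg hy.1, hy.2⟩
  have h3 := Finset.card_le_card h2
  have := h.holes
  omega

theorem Star.two {H : AddSubgroup G} {A : Finset G} (h : Star H A) {g1 g2 : G}
    (hg1 : g1 ∈ A + fs H) (hg2 : g2 ∈ A + fs H) (hne : g1 - g2 ∉ H) :
    (fs H).card + 3 ≤ (A ∩ cs H g1).card + (A ∩ cs H g2).card := by
  have h1 := coset_card (H := H) A g1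
  have h1' := coset_card (H := H) A g2
  have h2 : (cs H g1 \ A) ∪ (cs H g2 \ A) ⊆ (A + fs H) \ A := by
    intro y hy
    rw [Finset.mem_union, Finset.mem_sdiff, Finset.mem_sdiff] at hy
    rw [Finset.mem_sdiff]
    rcases hy with hy | hy
    · exact ⟨(per_add_fs H A).cs_subset hg1 hy.1, hy.2⟩
    · exact ⟨(per_add_fs H A).cs_subset hg2 hy.1, hy.2⟩
  have h3 := Finset.card_le_card h2
  rw [Finset.card_union_of_disjoint] at h3
  · have := h.holes
    omega
  · exact Finset.disjoint_of_subset_left Finset.sdiff_subset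
      (Finset.disjoint_of_subset_right Finset.sdiff_subset (cs_disjoint hne))

theorem Star.three' {H : AddSubgroup G} {A : Finset G} (h : Star H A) {g1 g2 g3 : G}
    (hg1 : g1 ∈ A + fs H) (hg2 : g2 ∈ A + fs H) (hg3 : g3 ∈ A + fs H) (hne : g1 - g2 ∉ H)
    (hne' : g1 - g3 ∉ H) (hne'' : g2 - g3 ∉ H) :
    2 * (fs H).card + 3 ≤ (A ∩ cs H g1).card + (A ∩ cs H g2).card + (A ∩ cs H g3).card := by
  have h1 := coset_card (H := H) A g1
  have h1' := coset_card (H := H) A g2
  have h1'' := coset_card (H := H) A g3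
  have h2 : (cs H g1 \ A) ∪ (cs H g2 \ A) ∪ (cs H g3 \ A) ⊆ (A + fs H) \ A := by
    intro y hy
    rw [Finset.mem_union, Finset.mem_union, Finset.mem_sdiff, Finset.mem_sdiff,
      Finset.mem_sdiff] at hy
    rw [Finset.mem_sdiff]
    rcases hy with (hy | hy) | hy
    · exact ⟨(per_add_fs H A).cs_subset hg1 hy.1, hy.2⟩
    · exact ⟨(per_add_fs H A).cs_subset hg2 hy.1, hy.2⟩
    · exact ⟨(per_add_fs H A).cs_subset hg3 hy.1, hy.2⟩
  have h3 := Finset.card_le_card h2
  have d1 : Disjoint (cs H g1 \ A) (cs H g2 \ A) :=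
    Finset.disjoint_of_subset_left Finset.sdiff_subset
      (Finset.disjoint_of_subset_right Finset.sdiff_subset (cs_disjoint hne))
  have d2 : Disjoint ((cs H g1 \ A) ∪ (cs H g2 \ A)) (cs H g3 \ A) := by
    rw [Finset.disjoint_union_left]
    exact ⟨Finset.disjoint_of_subset_left Finset.sdiff_subset
      (Finset.disjoint_of_subset_right Finset.sdiff_subset (cs_disjoint hne')),
      Finset.disjoint_of_subset_left Finset.sdiff_subset
      (Finset.disjoint_of_subset_right Finset.sdiff_subset (cs_disjoint hne''))⟩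
  rw [Finset.card_union_of_disjoint d2, Finset.card_union_of_disjoint d1] at h3
  have := h.holes
  omega

theorem triv3_aux {H : AddSubgroup G} {A : Finset G} (h : Star H A) {x : G} (hbad : Bad3 A x)
    {a b c : G} (ha : a ∈ A + fs H) (hb : b ∈ A + fs H) (hc : c ∈ A + fs H)
    (hs : x - (a + b + c) ∈ H) : a - b ∈ H := by
  by_contra hab
  have h1 := h.two ha hb hab
  obtain ⟨c', hc'⟩ := Finset.card_pos.mp (lt_of_lt_of_le (by norm_num) (h.one hc))
  rw [Finset.mem_inter, mem_cs] at hc'
  have h2 := Finset.pred_card_le_card_erase (s := A ∩ cs H a) (a := c')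
  have h3 := Finset.pred_card_le_card_erase (s := A ∩ cs H b) (a := c')
  have h4 := h.one ha
  have h5 := h.one hb
  obtain ⟨u, hu, v, hv, huv⟩ := pigeon (H := H) (U := (A ∩ cs H a).erase c')
    (V := (A ∩ cs H b).erase c') (g1 := a) (g2 := b) (t := x - c')
    ((Finset.erase_subset _ _).trans Finset.inter_subset_right)
    ((Finset.erase_subset _ _).trans Finset.inter_subset_right)
    (by
      have e : x - c' - a - b = (x - (a + b + c)) - (c' - c) := by abel
      rw [e]
      exact H.sub_mem hs hc'.2) (by omega)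
  rw [Finset.mem_erase, Finset.mem_inter, mem_cs] at hu hv
  refine hbad u hu.2.1 v hv.2.1 c' hc'.1 ?_ hv.1 hu.1 ?_
  · rintro rfl
    apply hab
    have e : a - b = (u - b) - (u - a) := by abel
    rw [e]
    exact H.sub_mem hv.2.2 hu.2.2
  · rw [huv]; abel

/-- only trivial solutions modulo `H` -/
theorem triv3 {H : AddSubgroup G} {A : Finset G} (h : Star H A) {x : G} (hbad : Bad3 A x)
    {a b c : G} (ha : a ∈ A + fs H) (hb : b ∈ A + fs H) (hc : c ∈ A + fs H)
    (hs : x - (a + b + c) ∈ H) : a - b ∈ H ∧ b - c ∈ H := by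
  refine ⟨triv3_aux h hbad ha hb hc hs, triv3_aux h hbad hb hc ha ?_⟩
  have e : x - (b + c + a) = x - (a + b + c) := by abel
  rw [e]; exact hs

theorem triv4_aux {H : AddSubgroup G} {A : Finset G} (h : Star H A) {x : G} (hbad : Bad4 A x)
    {a b c d : G} (ha : a ∈ A + fs H) (hb : b ∈ A + fs H) (hc : c ∈ A + fs H)
    (hd : d ∈ A + fs H) (hs : x - (a + b + c + d) ∈ H) : a - b ∈ H := by
  by_contra hab
  have h1 := h.two ha hb hab
  obtain ⟨c', hc'⟩ := Finset.card_pos.mp (lt_of_lt_of_le (by norm_num) (h.one hc))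
  have h2 := Finset.pred_card_le_card_erase (s := A ∩ cs H d) (a := c')
  have h3 := h.one hd
  obtain ⟨d', hd'⟩ : ((A ∩ cs H d).erase c').Nonempty := Finset.card_pos.mp (by omega)
  rw [Finset.mem_inter, mem_cs] at hc'
  rw [Finset.mem_erase, Finset.mem_inter, mem_cs] at hd'
  have h4 := h.one ha
  have h5 := h.one hb
  have hdis : Disjoint (A ∩ cs H a) (A ∩ cs H b) :=
    Finset.disjoint_of_subset_left Finset.inter_subset_right
      (Finset.disjoint_of_subset_right Finset.inter_subset_right (cs_disjoint hab))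
  have h6 : ((A ∩ cs H a) \ {c', d'}).card + ((A ∩ cs H b) \ {c', d'}).card + 2 ≥
      (A ∩ cs H a).card + (A ∩ cs H b).card := by
    have e : ((A ∩ cs H a) \ {c', d'}) ∪ ((A ∩ cs H b) \ {c', d'}) =
        ((A ∩ cs H a) ∪ (A ∩ cs H b)) \ {c', d'} := by
      rw [Finset.union_sdiff_distrib]
    have h7 : Disjoint ((A ∩ cs H a) \ {c', d'}) ((A ∩ cs H b) \ {c', d'}) :=
      Finset.disjoint_of_subset_left Finset.sdiff_subset
        (Finset.disjoint_of_subset_right Finset.sdiff_subset hdis)
    rw [← Finset.card_union_of_disjoint h7, e, ← Finset.card_union_of_disjoint hdis]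
    have h8 := Finset.le_card_sdiff {c', d'} ((A ∩ cs H a) ∪ (A ∩ cs H b))
    have h9 : ({c', d'} : Finset G).card ≤ 2 := Finset.card_le_two
    omega
  obtain ⟨u, hu, v, hv, huv⟩ := pigeon (H := H) (U := (A ∩ cs H a) \ {c', d'})
    (V := (A ∩ cs H b) \ {c', d'}) (g1 := a) (g2 := b) (t := x - c' - d')
    (Finset.sdiff_subset.trans Finset.inter_subset_right)
    (Finset.sdiff_subset.trans Finset.inter_subset_right)
    (by
      have e : x - c' - d' - a - b = (x - (a + b + c + d)) - (c' - c) - (d' - d) := by abel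
      rw [e]
      exact H.sub_mem (H.sub_mem hs hc'.2) hd'.2.2) (by omega)
  rw [Finset.mem_sdiff, Finset.mem_inter, mem_cs] at hu hv
  have hu' : u ≠ c' ∧ u ≠ d' := by
    have := hu.2
    simp only [Finset.mem_insert, Finset.mem_singleton, not_or] at this
    exact this
  have hv' : v ≠ c' ∧ v ≠ d' := by
    have := hv.2
    simp only [Finset.mem_insert, Finset.mem_singleton, not_or] at this
    exact this
  refine hbad u hu.1.1 v hv.1.1 c' hc'.1 d' hd'.2.1 ?_ hu'.1 hu'.2 hv'.1 hv'.2 (Ne.symm hd'.1) ?_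
  · rintro rfl
    apply hab
    have e : a - b = (u - b) - (u - a) := by abel
    rw [e]
    exact H.sub_mem hv.1.2 hu.1.2
  · rw [huv]; abel

theorem triv4 {H : AddSubgroup G} {A : Finset G} (h : Star H A) {x : G} (hbad : Bad4 A x)
    {a b c d : G} (ha : a ∈ A + fs H) (hb : b ∈ A + fs H) (hc : c ∈ A + fs H)
    (hd : d ∈ A + fs H) (hs : x - (a + b + c + d) ∈ H) :
    a - b ∈ H ∧ a - c ∈ H ∧ a - d ∈ H := by
  refine ⟨triv4_aux h hbad ha hb hc hd hs, triv4_aux h hbad ha hc hb hd ?_,
    triv4_aux h hbad ha hd hb hc ?_⟩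
  · have e : x - (a + c + b + d) = x - (a + b + c + d) := by abel
    rw [e]; exact hs
  · have e : x - (a + d + b + c) = x - (a + b + c + d) := by abel
    rw [e]; exact hs

end Pool.Agent.Helper450.WZ
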