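import Mathlib
import Pool.Agent.Helper450.WZStar

set_option autoImplicit false
set_option linter.unusedSectionVars false

open Finset
open scoped Pointwise
open Pool.Agent.Helper450.Kneser

namespace Pool.Agent.Helper450.WZ

variable {G : Type*} [AddCommGroup G] [Fintype G] [DecidableEq G]

theorem fs_card_eq (H : AddSubgroup G) : (fs H).card = Nat.card H := by
  classical
  rw [Nat.card_eq_fintype_card, Fintype.card_subtype]
  congr 1

theorem card_nsmul_mem {H : AddSubgroup G} {w : G} (hw : w ∈ H) : (fs H).card • w = 0 := by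
  rw [fs_card_eq]
  have := card_nsmul_eq_zero' (x := (⟨w, hw⟩ : H))
  have h2 := congrArg (Subtype.val) this
  rw [AddSubgroup.coe_nsmul] at h2
  exact h2

theorem eq_zero_of_odd {H : AddSubgroup G} (hodd : (fs H).card % 2 = 1) {w : G} (hw : w ∈ H)
    (h2 : w + w = 0) : w = 0 := by
  have h1 := card_nsmul_mem hw
  obtain ⟨m, hm⟩ : ∃ m, (fs H).card = 2 * m + 1 := ⟨(fs H).card / 2, by omega⟩
  rw [hm, add_nsmul, mul_comm, mul_nsmul, one_nsmul] at h1
  have h3 : (2 : ℕ) • (m • w) = m • (w + w) := by
    rw [two_nsmul, nsmul_add]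
  have h4 : (2 : ℕ) • (m • w) = 0 := by rw [h3, h2, nsmul_zero]
  rw [h4, zero_add] at h1
  exact h1

theorem exists_two_torsion {H : AddSubgroup G} (heven : (fs H).card % 2 = 0) :
    ∃ w ∈ H, w ≠ 0 ∧ w + w = 0 := by
  have h1 : 2 ∣ Nat.card H := by rw [← fs_card_eq]; omega
  have : Fact (Nat.Prime 2) := ⟨Nat.prime_two⟩
  obtain ⟨w, hw⟩ := exists_prime_addOrderOf_dvd_card' 2 h1
  refine ⟨w.1, w.2, ?_, ?_⟩
  · intro h
    have : w = 0 := Subtype.ext h
    rw [this, addOrderOf_zero] at hw
    omega
  · have h2 : (2 : ℕ) • w = 0 := by rw [← hw]; exact addOrderOf_nsmul_eq_zero w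
    have h3 := congrArg Subtype.val h2
    rw [two_nsmul] at h3
    exact h3

/-- reflection of `D` through `c` -/
theorem refl_card {H : AddSubgroup G} {D : Finset G} {g x c : G} (hD : D ⊆ cs H g)
    (hx : x - (g + g + g) ∈ H) (hc : c ∈ D) :
    D ∪ (D.image fun y => x - c - y) ⊆ cs H g ∧
    2 * D.card = (D ∪ (D.image fun y => x - c - y)).card +
      (D ∩ (D.image fun y => x - c - y)).card := by
  constructor
  · intro y hy
    rcases Finset.mem_union.mp hy with hy | hy
    · exact hD hy
    · obtain ⟨v, hv, rfl⟩ := Finset.mem_image.mp hy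
      have h1 := hD hv
      have h2 := hD hc
      rw [mem_cs] at h1 h2 ⊢
      have e : x - c - v - g = (x - (g + g + g)) - (c - g) - (v - g) := by abel
      rw [e]
      exact H.sub_mem (H.sub_mem hx h2) h1
  · rw [Finset.card_union_add_card_inter, Finset.card_image_of_injective _ (sub_right_injective)]
    omega

theorem refl_mem {D : Finset G} {x c y : G} (hbad : Bad3 D x) (hc : c ∈ D)
    (hy : y ∈ D ∩ (D.image fun y => x - c - y)) (h1 : y ≠ c) (h2 : y ≠ x - c - c) :
    y + y = x - c := by
  rw [Finset.mem_inter, Finset.mem_image] at hy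
  obtain ⟨hy, y', hy', e⟩ := hy
  by_contra h3
  refine hbad y hy y' hy' c hc ?_ ?_ h1 ?_
  · rintro rfl
    apply h3
    have e2 : y + y = (x - c - y) + y := by rw [e]
    rw [e2]; abel
  · rintro rfl
    exact h2 e.symm
  · rw [← e]; abel

theorem lemmaD_odd {H : AddSubgroup G} (hodd : (fs H).card % 2 = 1) {D : Finset G} {g x : G}
    (hD : D ⊆ cs H g) (hx : x - (g + g + g) ∈ H) (hbad : Bad3 D x) {c : G} (hc : c ∈ D) :
    (D ∩ (D.image fun y => x - c - y)).card ≤ 3 := by
  have h1 : ((cs H g).filter fun y => y + y = x - c).card ≤ 1 := by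
    rw [Finset.card_le_one]
    intro a ha b hb
    rw [Finset.mem_filter, mem_cs] at ha hb
    have h2 : a - b ∈ H := by
      have e : a - b = (a - g) - (b - g) := by abel
      rw [e]; exact H.sub_mem ha.1 hb.1
    have h3 : (a - b) + (a - b) = 0 := by
      have e : (a - b) + (a - b) = (a + a) - (b + b) := by abel
      rw [e, ha.2, hb.2, sub_self]
    exact sub_eq_zero.mp (eq_zero_of_odd hodd h2 h3)
  have h2 : D ∩ (D.image fun y => x - c - y) ⊆
      {c, x - c - c} ∪ ((cs H g).filter fun y => y + y = x - c) := by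
    intro y hy
    rw [Finset.mem_union, Finset.mem_insert, Finset.mem_singleton]
    by_cases e1 : y = c
    · exact Or.inl (Or.inl e1)
    by_cases e2 : y = x - c - c
    · exact Or.inl (Or.inr e2)
    right
    rw [Finset.mem_filter]
    exact ⟨hD (Finset.mem_inter.mp hy).1, refl_mem hbad hc hy e1 e2⟩
  have h3 := Finset.card_le_card h2
  have h4 := Finset.card_union_le ({c, x - c - c} : Finset G)
    ((cs H g).filter fun y => y + y = x - c)
  have h5 : ({c, x - c - c} : Finset G).card ≤ 2 := Finset.card_le_two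
  omega

theorem lemmaD_odd' {H : AddSubgroup G} (hodd : (fs H).card % 2 = 1) {D : Finset G} {g x : G}
    (hD : D ⊆ cs H g) (hx : x - (g + g + g) ∈ H) (hbad : Bad3 D x) :
    2 * D.card ≤ (fs H).card + 3 := by
  rcases D.eq_empty_or_nonempty with rfl | ⟨c, hc⟩
  · simp
  · obtain ⟨h1, h2⟩ := refl_card hD hx hc
    have h3 := lemmaD_odd hodd hD hx hbad hc
    have h4 := Finset.card_le_card h1
    rw [card_cs] at h4
    omega

theorem lemmaD_even {H : AddSubgroup G} (heven : (fs H).card % 2 = 0) {D : Finset G} {g x : G}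
    (hD : D ⊆ cs H g) (hx : x - (g + g + g) ∈ H) (hbad : Bad3 D x) :
    2 * D.card ≤ (fs H).card + 2 := by
  by_contra hcon
  push Not at hcon
  obtain ⟨w, hwH, hw0, hw2⟩ := exists_two_torsion heven
  have h1 : D ⊆ (cs H g).image fun y => x - (y + y) := by
    intro c hc
    obtain ⟨h1, h2⟩ := refl_card hD hx hc
    have h4 := Finset.card_le_card h1
    rw [card_cs] at h4
    have h5 : ¬ (D ∩ (D.image fun y => x - c - y)) ⊆ {c, x - c - c} := by
      intro h
      have := Finset.card_le_card h
      have h5 : ({c, x - c - c} : Finset G).card ≤ 2 := Finset.card_le_two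
      omega
    obtain ⟨y, hy, hy'⟩ := Finset.not_subset.mp h5
    rw [Finset.mem_insert, Finset.mem_singleton, not_or] at hy'
    have h6 := refl_mem hbad hc hy hy'.1 hy'.2
    rw [Finset.mem_image]
    exact ⟨y, hD (Finset.mem_inter.mp hy).1, by rw [h6]; abel⟩
  have h2 : 2 * ((cs H g).image fun y => x - (y + y)).card ≤ (cs H g).card := by
    apply Finset.mul_card_image_le_card
    intro z hz
    obtain ⟨y, hy, rfl⟩ := Finset.mem_image.mp hz
    have h3 : ({y, y + w} : Finset G) ⊆ (cs H g).filter fun a => x - (a + a) = x - (y + y) := by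
      intro a ha
      rw [Finset.mem_insert, Finset.mem_singleton] at ha
      rw [Finset.mem_filter]
      rcases ha with rfl | rfl
      · exact ⟨hy, rfl⟩
      · refine ⟨per_cs H g y hy w hwH, ?_⟩
        have e : y + w + (y + w) = y + y + (w + w) := by abel
        rw [e, hw2, add_zero]
    have h4 : ({y, y + w} : Finset G).card = 2 := by
      rw [Finset.card_pair]
      intro h
      apply hw0
      exact (left_eq_add.mp h)
    calc 2 = ({y, y + w} : Finset G).card := h4.symm
      _ ≤ _ := Finset.card_le_card h3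
  rw [card_cs] at h2
  have h3 := Finset.card_le_card h1
  omega

/-- classification of the order in the extremal odd case -/
theorem lemmaD_class {H : AddSubgroup G} (hodd : (fs H).card % 2 = 1) {D : Finset G} {g x : G}
    (hD : D ⊆ cs H g) (hx : x - (g + g + g) ∈ H) (hbad : Bad3 D x)
    (hcard : 2 * D.card = (fs H).card + 3) :
    (fs H).card = 3 ∨ (fs H).card = 5 ∨ (fs H).card = 9 := by
  have hfull : ∀ c ∈ D, D ∪ (D.image fun y => x - c - y) = cs H g := by
    intro c hc
    obtain ⟨h1, h2⟩ := refl_card hD hx hc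
    have h3 := lemmaD_odd hodd hD hx hbad hc
    apply Finset.eq_of_subset_of_card_le h1
    rw [card_cs]
    omega
  set X := cs H g \ D with hX
  have hXc : X.card + D.card = (fs H).card := by
    rw [← card_cs H g]
    exact Finset.card_sdiff_add_card_eq_card hD
  rcases X.eq_empty_or_nonempty with hX0 | ⟨x0, hx0⟩
  · rw [hX0, Finset.card_empty] at hXc
    left; omega
  right
  have hsum : ∀ u ∈ X, ∀ v ∈ X, x - (u + v) ∈ X := by
    intro u hu v hv
    rw [hX, Finset.mem_sdiff] at hu hv ⊢
    have hu' := hu.1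
    have hv' := hv.1
    rw [mem_cs] at hu' hv'
    constructor
    · rw [mem_cs]
      have e : x - (u + v) - g = (x - (g + g + g)) - (u - g) - (v - g) := by abel
      rw [e]
      exact H.sub_mem (H.sub_mem hx hu') hv'
    · intro hc
      have h1 := hfull _ hc
      have h2 : u ∈ cs H g := hu.1
      rw [← h1, Finset.mem_union] at h2
      rcases h2 with h2 | h2
      · exact hu.2 h2
      · obtain ⟨y, hy, e⟩ := Finset.mem_image.mp h2
        apply hv.2
        have : v = y := by
          have e2 : x - (x - (u + v)) - y = u := e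
          have e3 : x - (x - (u + v)) - y = u + v - y := by abel
          rw [e3] at e2
          have e4 : v - y = 0 := by
            have : u + v - y - u = 0 := by rw [e2, sub_self]
            have e5 : u + v - y - u = v - y := by abel
            rwa [e5] at this
          exact sub_eq_zero.mp e4
        rwa [this]
  -- translate to a subgroup
  set Y := X.image fun u => u - x0 with hY
  have hYcard : Y.card = X.card := Finset.card_image_of_injective _ (sub_left_injective)
  have h0Y : (0 : G) ∈ Y := Finset.mem_image.mpr ⟨x0, hx0, sub_self _⟩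
  have hYY : (Y + Y).card ≤ Y.card := by
    rw [hYcard]
    have : Y + Y ⊆ X.image fun z => x - z - x0 - x0 := by
      intro y hy
      obtain ⟨a, ha, b, hb, rfl⟩ := Finset.mem_add.mp hy
      obtain ⟨u, hu, rfl⟩ := Finset.mem_image.mp ha
      obtain ⟨v, hv, rfl⟩ := Finset.mem_image.mp hb
      rw [Finset.mem_image]
      exact ⟨x - (u + v), hsum u hu v hv, by abel⟩
    exact (Finset.card_le_card this).trans Finset.card_image_le
  have hYsub : Y ⊆ Y + Y := fun y hy => by
    have := Finset.add_mem_add hy h0Y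
    rwa [add_zero] at this
  have hYeq : Y = Y + Y := Finset.eq_of_subset_of_card_le hYsub hYY
  have hYst : Y = fs (stab Y) := by
    apply Finset.Subset.antisymm
    · intro y hy
      rw [mem_fs]
      apply mem_stab_of_forall
      intro z hz
      rw [hYeq]
      exact Finset.add_mem_add hz hy
    · intro y hy
      have := stab_add (mem_fs.mp hy) h0Y
      rwa [zero_add] at this
  have hYH : stab Y ≤ H := by
    intro y hy
    have h1 : y ∈ Y := by rw [hYst, mem_fs]; exact hy
    obtain ⟨u, hu, rfl⟩ := Finset.mem_image.mp h1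
    rw [hX, Finset.mem_sdiff, mem_cs] at hu hx0
    have e : u - x0 = (u - g) - (x0 - g) := by abel
    rw [e]
    exact H.sub_mem hu.1 hx0.1
  have hdvd := fs_card_dvd_of_le hYH
  rw [← hYst, hYcard] at hdvd
  have h3 : (fs H).card = 2 * X.card + 3 := by omega
  have h4 : X.card ∣ 3 := by
    rw [h3] at hdvd
    exact (Nat.dvd_add_right (Dvd.intro_left 2 rfl)).mp hdvd
  have h5 := (Nat.dvd_prime Nat.prime_three).mp h4
  omega

/-- Scherk/Kemperman type bound, from a uniquely represented element. -/
theorem scherk {H : AddSubgroup G} {E : Finset G} (hE : Per H E) {g0 : G} (hg0 : g0 ∈ E)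
    (huniq : ∀ a ∈ E, ∀ b ∈ E, a + b = g0 + g0 → a - g0 ∈ H) :
    2 * E.card ≤ (E + E).card + (fs H).card := by
  have hk := kneser' E E ⟨g0, hg0⟩ ⟨g0, hg0⟩
  set K := stab (E + E) with hK
  have hHK : H ≤ K := (hE.add E).le_stab
  set C0 := E ∩ cs K g0 with hC0
  have h1 : C0 ∪ (C0.image fun y => g0 + g0 - y) ⊆ cs K g0 := by
    intro y hy
    rcases Finset.mem_union.mp hy with hy | hy
    · exact (Finset.mem_inter.mp hy).2
    · obtain ⟨v, hv, rfl⟩ := Finset.mem_image.mp hy
      have h2 := (Finset.mem_inter.mp hv).2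
      rw [mem_cs] at h2 ⊢
      have e : g0 + g0 - v - g0 = -(v - g0) := by abel
      rw [e]
      exact K.neg_mem h2
  have h2 : C0 ∩ (C0.image fun y => g0 + g0 - y) ⊆ cs H g0 := by
    intro y hy
    rw [Finset.mem_inter, Finset.mem_image] at hy
    obtain ⟨hy, v, hv, e⟩ := hy
    rw [mem_cs]
    exact huniq y (Finset.mem_inter.mp hy).1 v (Finset.mem_inter.mp hv).1 (by rw [← e]; abel)
  have h3 : (C0 ∪ (C0.image fun y => g0 + g0 - y)).card +
      (C0 ∩ (C0.image fun y => g0 + g0 - y)).card = C0.card + C0.card := by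
    rw [Finset.card_union_add_card_inter, Finset.card_image_of_injective _ (sub_right_injective)]
  have h4 := Finset.card_le_card h1
  have h5 := Finset.card_le_card h2
  rw [card_cs] at h4 h5
  have h6 : (E \ cs K g0) ∪ cs K g0 ⊆ E + fs K := by
    intro y hy
    rcases Finset.mem_union.mp hy with hy | hy
    · exact subset_add_fs K E (Finset.mem_sdiff.mp hy).1
    · exact (per_add_fs K E).cs_subset (subset_add_fs K E hg0) hy
  have h7 := Finset.card_le_card h6
  rw [Finset.card_union_of_disjoint Finset.sdiff_disjoint, card_cs] at h7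
  have h8 : (E \ cs K g0).card + C0.card = E.card := by
    rw [hC0]; exact Finset.card_sdiff_add_card_inter E (cs K g0)
  omega

open Classical in
/-- the solutions of `3 t ≡ x` in `A + H` -/
noncomputable def Tset (H : AddSubgroup G) (A : Finset G) (x : G) : Finset G :=
  (A + fs H).filter fun t => x - (t + t + t) ∈ H

theorem mem_Tset {H : AddSubgroup G} {A : Finset G} {x t : G} :
    t ∈ Tset H A x ↔ t ∈ A + fs H ∧ x - (t + t + t) ∈ H := by
  classical
  unfold Tset
  rw [Finset.mem_filter]

theorem per_Tset (H : AddSubgroup G) (A : Finset G) (x : G) : Per H (Tset H A x) := by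
  intro c hc g hg
  rw [mem_Tset] at hc ⊢
  refine ⟨per_add_fs H A c hc.1 g hg, ?_⟩
  have e : x - (c + g + (c + g) + (c + g)) = (x - (c + c + c)) - (g + g + g) := by abel
  rw [e]
  exact H.sub_mem hc.2 (H.add_mem (H.add_mem hg hg) hg)

/-- key inequality for one class -/
theorem scherk3 {M : Type*} [AddCommGroup M] [Fintype M] [DecidableEq M] (φ : G →+ M)
    {H : AddSubgroup G} {A : Finset G} (h : Star H A) {x : G} (hbad : Bad3 A x)
    (hφH : ∀ g ∈ H, φ g = 0) {g0 : G} (hg0 : g0 ∈ Tset H A x) :
    3 * ((A + fs H).filter fun a => φ a = φ g0).card ≤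
      (univ.filter fun g => φ g = φ g0 + φ g0).card + (fs H).card + (Tset H A x).card := by
  rw [mem_Tset] at hg0
  set E := (A + fs H).filter fun a => φ a = φ g0 with hE
  have hEper : Per H E := (per_add_fs H A).filter _ fun c g hg hc => by
    rw [map_add, hφH g hg, add_zero]; exact hc
  have hEsub : E ⊆ A + fs H := Finset.filter_subset _ _
  have hx : φ x = φ g0 + φ g0 + φ g0 := by
    have := hφH _ hg0.2
    rw [map_sub, sub_eq_zero, map_add, map_add] at this
    exact this
  have h1 := scherk hEper (g0 := g0) (Finset.mem_filter.mpr ⟨hg0.1, rfl⟩) (by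
    intro a ha b hb e
    have h2 : x - (a + b + g0) ∈ H := by rw [e]; exact hg0.2
    obtain ⟨h3, h4⟩ := triv3 h hbad (hEsub ha) (hEsub hb) hg0.1 h2
    have e2 : a - g0 = (a - b) + (b - g0) := by abel
    rw [e2]; exact H.add_mem h3 h4)
  have h2 : (E + E) ∪ (E.image fun y => x - y) ⊆ univ.filter fun g => φ g = φ g0 + φ g0 := by
    intro y hy
    rw [Finset.mem_filter]
    refine ⟨Finset.mem_univ _, ?_⟩
    rcases Finset.mem_union.mp hy with hy | hy
    · obtain ⟨a, ha, b, hb, rfl⟩ := Finset.mem_add.mp hy
      rw [map_add, (Finset.mem_filter.mp ha).2, (Finset.mem_filter.mp hb).2]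
    · obtain ⟨a, ha, rfl⟩ := Finset.mem_image.mp hy
      rw [map_sub, (Finset.mem_filter.mp ha).2, hx, add_sub_cancel_right]
  have h3 : (E + E) ∩ (E.image fun y => x - y) ⊆ (Tset H A x).image fun y => x - y := by
    intro y hy
    rw [Finset.mem_inter, Finset.mem_image] at hy
    obtain ⟨hy, c, hc, rfl⟩ := hy
    obtain ⟨a, ha, b, hb, e⟩ := Finset.mem_add.mp hy
    rw [Finset.mem_image]
    refine ⟨c, ?_, rfl⟩
    rw [mem_Tset]
    refine ⟨hEsub hc, ?_⟩
    have h4 : x - (a + b + c) ∈ H := by
      rw [e]
      have : x - (x - c + c) = 0 := by abel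
      rw [this]; exact H.zero_mem
    obtain ⟨h5, h6⟩ := triv3 h hbad (hEsub ha) (hEsub hb) (hEsub hc) h4
    have e2 : x - (c + c + c) = (x - (a + b + c)) + ((a - b) + (b - c)) + (b - c) := by abel
    rw [e2]
    exact H.add_mem (H.add_mem h4 (H.add_mem h5 h6)) h6
  have h4 := Finset.card_le_card h2
  have h5 := Finset.card_le_card h3
  have h6 := Finset.card_union_add_card_inter (E + E) (E.image fun y => x - y)
  rw [Finset.card_image_of_injective _ (sub_right_injective)] at h6
  rw [Finset.card_image_of_injective _ (sub_right_injective)] at h5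
  omega

end Pool.Agent.Helper450.WZ
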