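import Mathlib
import Pool.Agent.Helper450.WZTwo

set_option autoImplicit false
set_option linter.unusedSectionVars false

open Finset
open scoped Pointwise
open Pool.Agent.Helper450.Kneser

namespace Pool.Agent.Helper450.WZ

variable {G : Type*} [AddCommGroup G] [Fintype G] [DecidableEq G]

theorem Bad3.mono {A B : Finset G} {x : G} (h : Bad3 A x) (hBA : B ⊆ A) : Bad3 B x :=
  fun a ha b hb c hc => h a (hBA ha) b (hBA hb) c (hBA hc)

theorem sum_fs_eq_zero {H : AddSubgroup G} (hodd : (fs H).card % 2 = 1) :
    ∑ g ∈ fs H, g = 0 := by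
  apply eq_zero_of_odd hodd
  · exact H.sum_mem fun g hg => mem_fs.mp hg
  · have h1 : ∑ g ∈ fs H, g = ∑ g ∈ fs H, -g := by
      apply Finset.sum_bij (fun g _ => -g)
      · intro g hg
        rw [mem_fs] at hg ⊢
        exact H.neg_mem hg
      · intro a _ b _ hab
        exact neg_injective hab
      · intro g hg
        refine ⟨-g, ?_, neg_neg g⟩
        rw [mem_fs] at hg ⊢
        exact H.neg_mem hg
      · intro g _
        rw [neg_neg]
    rw [Finset.sum_neg_distrib] at h1
    nth_rewrite 1 [h1]
    exact neg_add_cancel _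

theorem sum_cs {H : AddSubgroup G} (hodd : (fs H).card % 2 = 1) (c : G) :
    ∑ a ∈ cs H c, a = (fs H).card • c := by
  unfold cs
  rw [Finset.sum_image (fun a _ b _ h => add_left_cancel h), Finset.sum_add_distrib,
    sum_fs_eq_zero hodd, add_zero, Finset.sum_const]

/-- sum of a periodic set, killed by `m` if `m|H|` kills everything. -/
theorem nsmul_sum_per {H : AddSubgroup G} (hodd : (fs H).card % 2 = 1) {m : ℕ}
    (hm : ∀ g : G, m • ((fs H).card • g) = 0) {C : Finset G} (h : Per H C) :
    m • ∑ a ∈ C, a = 0 := by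
  induction hn : C.card using Nat.strong_induction_on generalizing C with
  | _ n ih =>
    rcases C.eq_empty_or_nonempty with rfl | ⟨c, hc⟩
    · rw [Finset.sum_empty, nsmul_zero]
    · have hsub := h.cs_subset hc
      have h1 := Finset.card_sdiff_add_card_eq_card hsub
      rw [card_cs] at h1
      have hpos := fs_card_pos H
      have h2 := ih (C \ cs H c).card (by omega) (h.sdiff_cs c) rfl
      rw [← Finset.sum_sdiff hsub, nsmul_add, h2, sum_cs hodd, hm, add_zero]

/-- Structure in case II. -/
theorem caseII {k : ℕ} (hG : Fintype.card G = 9 * k) {H : AddSubgroup G} {A : Finset G}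
    (h : Star H A) (hc : (A + fs H).card = 3 * k + (fs H).card) {x : G} (hbad : Bad3 A x)
    {g0 : G} (hg0 : g0 ∈ Tset H A x) :
    (fs H).card % 2 = 1 ∧ ∃ g1 ∈ Tset H A x, g0 - g1 ∉ H ∧
      2 * (A ∩ cs H g0).card = (fs H).card + 3 ∧ 2 * (A ∩ cs H g1).card = (fs H).card + 3 := by
  have hT := mem_Tset.mp hg0
  -- |T| ≥ 2h
  have h1 := scherk3 (0 : G →+ Unit) h hbad (fun _ _ => rfl) hg0
  have e1 : ((A + fs H).filter fun a => (0 : G →+ Unit) a = (0 : G →+ Unit) g0) = A + fs H := by
    apply Finset.filter_true_of_mem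
    intro _ _; rfl
  have e2 : (univ.filter fun g : G => (0 : G →+ Unit) g = (0 : G →+ Unit) g0 +
      (0 : G →+ Unit) g0) = univ := by
    apply Finset.filter_true_of_mem
    intro _ _; rfl
  rw [e1, e2, Finset.card_univ, hG, hc] at h1
  have hpos := fs_card_pos H
  have h2 : ¬ Tset H A x ⊆ cs H g0 := by
    intro hs
    have := Finset.card_le_card hs
    rw [card_cs] at this
    omega
  obtain ⟨g1, hg1, hg1'⟩ := Finset.not_subset.mp h2
  have hT1 := mem_Tset.mp hg1
  have hne : g0 - g1 ∉ H := by
    intro hm
    apply hg1'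
    rw [mem_cs, ← neg_sub]
    exact H.neg_mem hm
  have h3 := h.two hT.1 hT1.1 hne
  have b0 : Bad3 (A ∩ cs H g0) x := hbad.mono Finset.inter_subset_left
  have b1 : Bad3 (A ∩ cs H g1) x := hbad.mono Finset.inter_subset_left
  rcases Nat.mod_two_eq_zero_or_one (fs H).card with hpar | hpar
  · have h4 := lemmaD_even hpar Finset.inter_subset_right hT.2 b0
    have h5 := lemmaD_even hpar Finset.inter_subset_right hT1.2 b1
    omega
  · have h4 := lemmaD_odd' hpar Finset.inter_subset_right hT.2 b0
    have h5 := lemmaD_odd' hpar Finset.inter_subset_right hT1.2 b1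
    exact ⟨hpar, g1, hg1, hne, by omega, by omega⟩

theorem caseII_full {H : AddSubgroup G} {A : Finset G} (h : Star H A) {x g0 g1 : G}
    (hg0 : g0 ∈ Tset H A x) (hg1 : g1 ∈ Tset H A x) (hne : g0 - g1 ∉ H)
    (h0 : 2 * (A ∩ cs H g0).card = (fs H).card + 3)
    (h1 : 2 * (A ∩ cs H g1).card = (fs H).card + 3) {a : G} (ha : a ∈ A + fs H)
    (haT : a ∉ Tset H A x) : a ∈ A := by
  by_contra haA
  have e0 := coset_card (H := H) A g0
  have e1 := coset_card (H := H) A g1
  have hs0 := (per_Tset H A x).cs_subset hg0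
  have hs1 := (per_Tset H A x).cs_subset hg1
  have h2 : insert a ((cs H g0 \ A) ∪ (cs H g1 \ A)) ⊆ (A + fs H) \ A := by
    intro y hy
    rw [Finset.mem_insert, Finset.mem_union, Finset.mem_sdiff, Finset.mem_sdiff] at hy
    rw [Finset.mem_sdiff]
    rcases hy with rfl | hy | hy
    · exact ⟨ha, haA⟩
    · exact ⟨(mem_Tset.mp (hs0 hy.1)).1, hy.2⟩
    · exact ⟨(mem_Tset.mp (hs1 hy.1)).1, hy.2⟩
  have h3 := Finset.card_le_card h2
  rw [Finset.card_insert_of_notMem, Finset.card_union_of_disjoint] at h3
  · have := h.holes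
    omega
  · exact Finset.disjoint_of_subset_left Finset.sdiff_subset
      (Finset.disjoint_of_subset_right Finset.sdiff_subset (cs_disjoint hne))
  · intro hm
    apply haT
    rcases Finset.mem_union.mp hm with hm | hm
    · exact hs0 (Finset.mem_sdiff.mp hm).1
    · exact hs1 (Finset.mem_sdiff.mp hm).1

theorem Tset_card_gt {H : AddSubgroup G} {A : Finset G} (h : Star H A) {x g0 g1 : G}
    (hodd : (fs H).card % 2 = 1) (hbad : Bad3 A x)
    (hg0 : g0 ∈ Tset H A x) (hg1 : g1 ∈ Tset H A x) (hne : g0 - g1 ∉ H)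
    (h3 : 3 < (fs H).card) : (Tset H A x).card ≤ 2 * (fs H).card := by
  have h1 : Tset H A x ⊆ cs H g0 ∪ cs H g1 := by
    intro g2 hg2
    by_contra hcon
    rw [Finset.mem_union, not_or, mem_cs, mem_cs] at hcon
    have n1 : g0 - g2 ∉ H := fun hm => hcon.1 (by rw [← neg_sub]; exact H.neg_mem hm)
    have n2 : g1 - g2 ∉ H := fun hm => hcon.2 (by rw [← neg_sub]; exact H.neg_mem hm)
    have t0 := mem_Tset.mp hg0
    have t1 := mem_Tset.mp hg1
    have t2 := mem_Tset.mp hg2
    have h4 := h.three' t0.1 t1.1 t2.1 hne n1 n2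
    have d0 := lemmaD_odd' hodd Finset.inter_subset_right t0.2
      (hbad.mono (Finset.inter_subset_left (s₂ := cs H g0)))
    have d1 := lemmaD_odd' hodd Finset.inter_subset_right t1.2
      (hbad.mono (Finset.inter_subset_left (s₂ := cs H g1)))
    have d2 := lemmaD_odd' hodd Finset.inter_subset_right t2.2
      (hbad.mono (Finset.inter_subset_left (s₂ := cs H g2)))
    omega
  have h2 := Finset.card_le_card h1
  have h3 := Finset.card_union_le (cs H g0) (cs H g1)
  rw [card_cs, card_cs] at h3
  omega

theorem Tset_card_three {H : AddSubgroup G} {A : Finset G} (h : Star H A) {x : G}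
    (hbad : Bad3 A x) (h3 : (fs H).card = 3)
    (htor : (univ.filter fun u : G => u + u + u = 0).card ≤ 9) :
    (Tset H A x).card ≤ 12 := by
  have hodd : (fs H).card % 2 = 1 := by omega
  have hAA : A + fs H = A := by
    have := h.holes
    rw [h3] at this
    have h4 : (A + fs H) \ A = ∅ := Finset.card_eq_zero.mp (by omega)
    rw [Finset.sdiff_eq_empty_iff_subset] at h4
    exact Finset.Subset.antisymm h4 (subset_add_fs H A)
  -- a nonzero element of H
  obtain ⟨g, hg, hg0⟩ : ∃ g ∈ H, g ≠ 0 := by
    by_contra hcon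
    push Not at hcon
    have : fs H ⊆ {0} := by
      intro y hy
      rw [Finset.mem_singleton]
      exact hcon y (mem_fs.mp hy)
    have := Finset.card_le_card this
    rw [Finset.card_singleton] at this
    omega
  have hgneg : g ≠ -g := by
    intro e
    apply hg0
    apply eq_zero_of_odd hodd hg
    nth_rewrite 2 [e]
    exact add_neg_cancel g
  have hfs : fs H = {0, g, -g} := by
    symm
    apply Finset.eq_of_subset_of_card_le
    · intro y hy
      rw [Finset.mem_insert, Finset.mem_insert, Finset.mem_singleton] at hy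
      rw [mem_fs]
      rcases hy with rfl | rfl | rfl
      · exact H.zero_mem
      · exact hg
      · exact H.neg_mem hg
    · rw [h3, Finset.card_insert_of_notMem, Finset.card_pair hgneg]
      rw [Finset.mem_insert, Finset.mem_singleton, not_or]
      exact ⟨hg0.symm, fun e => hg0 (by rw [← neg_neg g, ← e, neg_zero])⟩
  -- translates by a fixed value
  have key : ∀ y ∈ H, ((Tset H A x).filter fun t => x - (t + t + t) = y).card ≤ 6 := by
    intro y hy
    by_contra hcon
    push Not at hcon
    set S := (Tset H A x).filter fun t => x - (t + t + t) = y with hS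
    have hSne : S.Nonempty := Finset.card_pos.mp (by omega)
    obtain ⟨t0, ht0⟩ := hSne
    have h3g : ∀ z ∈ H, z + z + z = 0 := by
      intro z hz
      have := card_nsmul_mem hz
      rw [h3] at this
      have e : (3 : ℕ) • z = z + z + z := by
        rw [succ_nsmul, two_nsmul]
      rwa [e] at this
    have hSper : Per H S := by
      apply (per_Tset H A x).filter
      intro c z hz hc
      have e : x - (c + z + (c + z) + (c + z)) = (x - (c + c + c)) - (z + z + z) := by abel
      rw [e, h3g z hz, sub_zero]; exact hc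
    have hd := hSper.card_dvd
    rw [h3] at hd
    have hsub : (S.image fun t => t - t0) ⊆ univ.filter fun u : G => u + u + u = 0 := by
      intro u hu
      obtain ⟨t, ht, rfl⟩ := Finset.mem_image.mp hu
      rw [Finset.mem_filter]
      refine ⟨Finset.mem_univ _, ?_⟩
      have e1 := (Finset.mem_filter.mp ht).2
      have e0 := (Finset.mem_filter.mp ht0).2
      have e : t - t0 + (t - t0) + (t - t0) = (x - (t0 + t0 + t0)) - (x - (t + t + t)) := by abel
      rw [e, e1, e0, sub_self]
    have hle := Finset.card_le_card hsub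
    rw [Finset.card_image_of_injective _ (sub_left_injective)] at hle
    have hS9 : S.card = 9 := by omega
    have heq : (S.image fun t => t - t0) = univ.filter fun u : G => u + u + u = 0 := by
      apply Finset.eq_of_subset_of_card_le hsub
      rw [Finset.card_image_of_injective _ (sub_left_injective)]
      omega
    -- an element u of order three outside H
    obtain ⟨u, hu, huH⟩ : ∃ u ∈ univ.filter (fun u : G => u + u + u = 0), u ∉ fs H := by
      apply Finset.exists_mem_notMem_of_card_lt_card
      rw [← heq, Finset.card_image_of_injective _ (sub_left_injective)]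
      omega
    have hu3 := (Finset.mem_filter.mp hu).2
    have hmem : ∀ v : G, v + v + v = 0 → t0 + v ∈ A + fs H := by
      intro v hv
      have : v ∈ S.image fun t => t - t0 := by
        rw [heq, Finset.mem_filter]; exact ⟨Finset.mem_univ _, hv⟩
      obtain ⟨t, ht, rfl⟩ := Finset.mem_image.mp this
      have e : t0 + (t - t0) = t := by abel
      rw [e]
      exact (mem_Tset.mp (Finset.mem_filter.mp ht).1).1
    have m1 := hmem u hu3
    have m2 := hmem (-u) (by
      have e : -u + -u + -u = -(u + u + u) := by abel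
      rw [e, hu3, neg_zero])
    have m0 := hmem 0 (by simp)
    rw [add_zero] at m0
    have hsum : x - (t0 + (t0 + u) + (t0 + -u)) ∈ H := by
      have e : x - (t0 + (t0 + u) + (t0 + -u)) = x - (t0 + t0 + t0) := by abel
      rw [e, (Finset.mem_filter.mp ht0).2]; exact hy
    have := (triv3 h hbad m0 m1 m2 hsum).1
    apply huH
    rw [mem_fs]
    have e : u = -(t0 - (t0 + u)) := by abel
    rw [e]; exact H.neg_mem this
  -- the value 0 does not occur
  have hzero : ((Tset H A x).filter fun t => x - (t + t + t) = 0) = ∅ := by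
    rw [Finset.filter_eq_empty_iff]
    intro t ht e
    have ht' := (mem_Tset.mp ht).1
    have m1 := per_add_fs H A t ht' g hg
    have m2 := per_add_fs H A t ht' (-g) (H.neg_mem hg)
    rw [hAA] at ht' m1 m2
    refine hbad t ht' (t + g) m1 (t + -g) m2 ?_ ?_ ?_ ?_
    · intro e2; exact hg0 (left_eq_add.mp e2)
    · intro e2; exact hgneg (add_left_cancel e2)
    · intro e2; exact hg0 (by rw [← neg_neg g, left_eq_add.mp e2, neg_zero])
    · rw [sub_eq_zero] at e
      rw [e]; abel
  have hsplit : Tset H A x ⊆ ((Tset H A x).filter fun t => x - (t + t + t) = 0) ∪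
      (((Tset H A x).filter fun t => x - (t + t + t) = g) ∪
      ((Tset H A x).filter fun t => x - (t + t + t) = -g)) := by
    intro t ht
    have h4 := (mem_Tset.mp ht).2
    rw [← mem_fs, hfs, Finset.mem_insert, Finset.mem_insert, Finset.mem_singleton] at h4
    rw [Finset.mem_union, Finset.mem_union, Finset.mem_filter, Finset.mem_filter,
      Finset.mem_filter]
    rcases h4 with h4 | h4 | h4
    · exact Or.inl ⟨ht, h4⟩
    · exact Or.inr (Or.inl ⟨ht, h4⟩)
    · exact Or.inr (Or.inr ⟨ht, h4⟩)
  rw [hzero, Finset.empty_union] at hsplit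
  have h5 := Finset.card_le_card hsplit
  have h6 := Finset.card_union_le ((Tset H A x).filter fun t => x - (t + t + t) = g)
    ((Tset H A x).filter fun t => x - (t + t + t) = -g)
  have h7 := key g hg
  have h8 := key (-g) (H.neg_mem hg)
  omega

/-- If `3 ∤ k`, the case `|H| = 3` is impossible when `x = σ(A)`. -/
theorem caseII_three {k : ℕ} (hk3 : ¬ 3 ∣ k) (hexp : ∀ g : G, (3 * k) • g = 0)
    {H : AddSubgroup G} {A : Finset G} (h : Star H A) {x : G} (hbad : Bad3 A x)
    (hσ : ∑ a ∈ A, a = x) {g0 : G} (hg0 : g0 ∈ Tset H A x) (h3 : (fs H).card = 3) : False := by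
  have hodd : (fs H).card % 2 = 1 := by omega
  have hAA : A + fs H = A := by
    have := h.holes
    rw [h3] at this
    have h4 : (A + fs H) \ A = ∅ := Finset.card_eq_zero.mp (by omega)
    rw [Finset.sdiff_eq_empty_iff_subset] at h4
    exact Finset.Subset.antisymm h4 (subset_add_fs H A)
  have hper : Per H A := by rw [← hAA]; exact per_add_fs H A
  have h1 : k • ∑ a ∈ A, a = 0 := nsmul_sum_per hodd (fun g => by
    rw [h3, ← mul_nsmul]
    exact hexp g) hper
  rw [hσ] at h1
  have hT := mem_Tset.mp hg0
  set y := x - (g0 + g0 + g0) with hy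
  have h2 : k • y = 0 := by
    have e : g0 + g0 + g0 = (3 : ℕ) • g0 := by
      rw [succ_nsmul, two_nsmul]
    rw [hy, e, nsmul_sub, h1, ← mul_nsmul, hexp, sub_zero]
  have h4 : (3 : ℕ) • y = 0 := by
    have := card_nsmul_mem hT.2
    rwa [h3] at this
  have h5 : y = 0 := by
    have h6 : addOrderOf y ∣ k := addOrderOf_dvd_of_nsmul_eq_zero h2
    have h7 : addOrderOf y ∣ 3 := addOrderOf_dvd_of_nsmul_eq_zero h4
    rcases (Nat.dvd_prime Nat.prime_three).mp h7 with h8 | h8
    · exact AddMonoid.addOrderOf_eq_one_iff.mp h8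
    · rw [h8] at h6; exact absurd h6 hk3
  obtain ⟨g, hg, hgne⟩ : ∃ g ∈ H, g ≠ 0 := by
    by_contra hcon
    push Not at hcon
    have : fs H ⊆ {0} := by
      intro y hy
      rw [Finset.mem_singleton]
      exact hcon y (mem_fs.mp hy)
    have := Finset.card_le_card this
    rw [Finset.card_singleton] at this
    omega
  have hgneg : g ≠ -g := by
    intro e
    apply hgne
    apply eq_zero_of_odd hodd hg
    nth_rewrite 2 [e]
    exact add_neg_cancel g
  have ht' := hT.1
  have m1 := per_add_fs H A g0 ht' g hg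
  have m2 := per_add_fs H A g0 ht' (-g) (H.neg_mem hg)
  rw [hAA] at ht' m1 m2
  refine hbad g0 ht' (g0 + g) m1 (g0 + -g) m2 ?_ ?_ ?_ ?_
  · intro e2; exact hgne (left_eq_add.mp e2)
  · intro e2; exact hgneg (add_left_cancel e2)
  · intro e2; exact hgne (by rw [← neg_neg g, left_eq_add.mp e2, neg_zero])
  · rw [hy, sub_eq_zero] at h5
    rw [h5]; abel

end Pool.Agent.Helper450.WZ
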