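import Mathlib
import Pool.Agent.Helper450.WZCaseII

set_option autoImplicit false
set_option linter.unusedSectionVars false

open Finset
open scoped Pointwise
open Pool.Agent.Helper450.Kneser

namespace Pool.Agent.Helper450.WZ

variable {G : Type*} [AddCommGroup G] [Fintype G] [DecidableEq G]

theorem arith1 {w l X Y : ℕ} (hl : 0 < l) (h3 : 3 * l ∣ w) (hX : l ∣ X) (hY : l ∣ Y)
    (hXY : X + Y + Y ≤ w + l) (hbig : 2 * w < 3 * (X + Y)) : 3 * Y ≤ w := by
  obtain ⟨m, rfl⟩ := h3
  obtain ⟨c1, rfl⟩ := hX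
  obtain ⟨c2, rfl⟩ := hY
  have h1 : l * (c1 + 2 * c2) ≤ l * (3 * m + 1) := by nlinarith
  have h2 := Nat.le_of_mul_le_mul_left h1 hl
  have h3 : l * (2 * m) < l * (c1 + c2) := by nlinarith
  have h4 := Nat.lt_of_mul_lt_mul_left h3
  have h5 : c2 ≤ m := by omega
  nlinarith

theorem arith2 {w l X Y : ℕ} (hl : 0 < l) (h3 : 3 * l ∣ w) (hX : l ∣ X) (hY : l ∣ Y)
    (hXY : X + Y + Y ≤ w + l) (hbig : w ≤ 3 * X) : 3 * Y ≤ w := by
  obtain ⟨m, rfl⟩ := h3
  obtain ⟨c1, rfl⟩ := hX
  obtain ⟨c2, rfl⟩ := hY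
  have h1 : l * (c1 + 2 * c2) ≤ l * (3 * m + 1) := by nlinarith
  have h2 := Nat.le_of_mul_le_mul_left h1 hl
  have h3 : l * m ≤ l * c1 := by nlinarith
  have h4 := Nat.le_of_mul_le_mul_left h3 hl
  have h5 : c2 ≤ m := by omega
  nlinarith

theorem dvd_pow_three {l n : ℕ} (h : l ∣ 3 ^ n) (hne : l ≠ 3 ^ n) : 3 * l ∣ 3 ^ n := by
  obtain ⟨i, hi, rfl⟩ := (Nat.dvd_prime_pow Nat.prime_three).mp h
  have : i < n := lt_of_le_of_ne hi (by rintro rfl; exact hne rfl)
  rw [← pow_succ']
  exact pow_dvd_pow 3 this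

theorem le_card_of_per {L : AddSubgroup G} {C : Finset G} (hC : C.Nonempty) :
    (fs L).card ≤ (C + fs L).card := by
  obtain ⟨c, hc⟩ := hC
  rw [← card_cs L c]
  exact Finset.card_le_card ((per_add_fs L C).cs_subset (subset_add_fs L C hc))

/-- The shifted sum over `A + H` vanishes. -/
theorem shift_sum {M : Type*} [AddCommGroup M] (ψ : G →+ M) {k : ℕ}
    (hexp : ∀ g : G, (3 * k) • g = 0) {H : AddSubgroup G} {A : Finset G}
    (hA : A.card = 3 * k + 3) {x : G} (hσ : ∑ a ∈ A, a = x)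
    (hψH : ∀ g ∈ H, ψ g = 0) (hinj : ∀ u v : M, u + u + u = v + v + v → u = v)
    {g0 : G} (hg0 : g0 ∈ Tset H A x)
    (hfull : ∀ a ∈ A + fs H, a ∉ Tset H A x → a ∈ A) :
    (∀ t ∈ Tset H A x, ψ t = ψ g0) ∧ ψ x = ψ g0 + ψ g0 + ψ g0 ∧
    ∑ a ∈ A + fs H, (ψ a - ψ g0) = 0 := by
  have hx : ∀ t ∈ Tset H A x, ψ x = ψ t + ψ t + ψ t := by
    intro t ht
    have := hψH _ (mem_Tset.mp ht).2
    rw [map_sub, sub_eq_zero, map_add, map_add] at this
    exact this
  have hT : ∀ t ∈ Tset H A x, ψ t = ψ g0 := by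
    intro t ht
    apply hinj
    rw [← hx t ht, ← hx g0 hg0]
  refine ⟨hT, hx g0 hg0, ?_⟩
  rw [← Finset.sum_sdiff (subset_add_fs H A)]
  have h1 : ∑ a ∈ (A + fs H) \ A, (ψ a - ψ g0) = 0 := by
    apply Finset.sum_eq_zero
    intro a ha
    rw [Finset.mem_sdiff] at ha
    rw [sub_eq_zero]
    apply hT
    by_contra hcon
    exact ha.2 (hfull a ha.1 hcon)
  rw [h1, zero_add, Finset.sum_sub_distrib, ← map_sum, hσ, Finset.sum_const, hA, hx g0 hg0,
    add_nsmul, ← map_nsmul, hexp, map_zero, zero_add]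
  have e : (3 : ℕ) • ψ g0 = ψ g0 + ψ g0 + ψ g0 := by
    rw [succ_nsmul, two_nsmul]
  rw [e, sub_self]

theorem parity_even {k : ℕ} (ε : G →+ ZMod 2)
    (hexp : ∀ g : G, (3 * k) • g = 0) {H : AddSubgroup G} {A : Finset G}
    (hA : A.card = 3 * k + 3) {x : G} (hσ : ∑ a ∈ A, a = x)
    (hψH : ∀ g ∈ H, ε g = 0) {g0 : G} (hg0 : g0 ∈ Tset H A x)
    (hfull : ∀ a ∈ A + fs H, a ∉ Tset H A x → a ∈ A) :
    ((A + fs H).filter fun a => ¬ ε a = ε g0).card % 2 = 0 := by
  obtain ⟨_, _, h⟩ := shift_sum ε hexp hA hσ hψH (by decide) hg0 hfull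
  rw [← Finset.sum_filter_add_sum_filter_not (A + fs H) (fun a => ε a = ε g0)] at h
  have h1 : ∑ a ∈ (A + fs H).filter (fun a => ε a = ε g0), (ε a - ε g0) = 0 := by
    apply Finset.sum_eq_zero
    intro a ha
    rw [(Finset.mem_filter.mp ha).2, sub_self]
  have h2 : ∑ a ∈ (A + fs H).filter (fun a => ¬ ε a = ε g0), (ε a - ε g0) =
      ∑ a ∈ (A + fs H).filter (fun a => ¬ ε a = ε g0), (1 : ZMod 2) := by
    apply Finset.sum_congr rfl
    intro a ha
    have h3 := (Finset.mem_filter.mp ha).2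
    have : ∀ u v : ZMod 2, ¬ u = v → u - v = 1 := by decide
    exact this _ _ h3
  rw [h1, zero_add, h2, Finset.sum_const, nsmul_eq_mul, mul_one] at h
  have h3 := (ZMod.natCast_eq_zero_iff _ 2).mp h
  omega

theorem odd_hom_zero {M : Type*} [AddCommGroup M] (ψ : G →+ M) {H : AddSubgroup G} {m : ℕ}
    (hm : ∀ u : M, (2 ^ m) • u = 0) (hodd : (fs H).card % 2 = 1) : ∀ g ∈ H, ψ g = 0 := by
  intro g hg
  have h1 := card_nsmul_mem hg
  have h2 : (fs H).card • ψ g = 0 := by rw [← map_nsmul, h1, map_zero]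
  have h3 := hm (ψ g)
  have h4 : addOrderOf (ψ g) ∣ (fs H).card := addOrderOf_dvd_of_nsmul_eq_zero h2
  have h5 : addOrderOf (ψ g) ∣ 2 ^ m := addOrderOf_dvd_of_nsmul_eq_zero h3
  have h6 : Nat.Coprime (fs H).card (2 ^ m) := by
    apply Nat.Coprime.pow_right
    rw [Nat.coprime_comm, Nat.coprime_two_left, Nat.odd_iff]
    exact hodd
  have h7 := Nat.eq_one_of_dvd_coprimes h6 h4 h5
  exact AddMonoid.addOrderOf_eq_one_iff.mp h7

/-- `k = 2 * 3 ^ b` -/
theorem caseC_two {b : ℕ} (hG : Fintype.card G = 9 * (2 * 3 ^ b))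
    (hexp : ∀ g : G, (3 * (2 * 3 ^ b)) • g = 0) (ε : G →+ ZMod 2)
    (hε : Function.Surjective ε) {H : AddSubgroup G} {A : Finset G}
    (h : Star H A) (hA : A.card = 3 * (2 * 3 ^ b) + 3)
    (hc : (A + fs H).card = 3 * (2 * 3 ^ b) + (fs H).card)
    (hdv : (fs H).card ∣ 3 * (2 * 3 ^ b)) {x : G} (hbad : Bad3 A x)
    (hσ : ∑ a ∈ A, a = x) {g0 : G} (hg0 : g0 ∈ Tset H A x)
    (hfull : ∀ a ∈ A + fs H, a ∉ Tset H A x → a ∈ A) (hodd : (fs H).card % 2 = 1)
    (hT : (Tset H A x).card ≤ 4 * (fs H).card) : False := by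
  have hεH : ∀ g ∈ H, ε g = 0 := odd_hom_zero ε (m := 1) (by decide) hodd
  have hx : ε x = ε g0 + ε g0 + ε g0 := (shift_sum ε hexp hA hσ hεH (by decide) hg0 hfull).2.1
  have hpar := parity_even ε hexp hA hσ hεH hg0 hfull
  have hw : ∀ m, (univ.filter fun g => ε g = m).card = 3 ^ (b + 2) := by
    intro m
    have := card_fiber ε hε m
    rw [hG, ZMod.card] at this
    rw [pow_add]; omega
  have hE := scherk3 ε h hbad hεH hg0
  rw [hw] at hE
  have hsplit := Finset.card_filter_add_card_filter_not (s := A + fs H) (fun a => ε a = ε g0)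
  rw [hc] at hsplit
  set E := (A + fs H).filter fun a => ε a = ε g0 with hEdef
  set O := (A + fs H).filter fun a => ¬ ε a = ε g0 with hOdef
  have hEne : E.Nonempty := ⟨g0, Finset.mem_filter.mpr ⟨(mem_Tset.mp hg0).1, rfl⟩⟩
  have hOper : Per H O := (per_add_fs H A).filter _ fun c g hg hc => by
    rw [map_add, hεH g hg, add_zero]; exact hc
  have hpos := fs_card_pos H
  have e9 : 3 ^ (b + 2) = 9 * 3 ^ b := by rw [pow_add]; ring
  have hqodd : (3 ^ b) % 2 = 1 := by
    rw [Nat.pow_mod]; norm_num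
  have hO : 3 * O.card ≤ 3 ^ (b + 2) := by
    rcases O.eq_empty_or_nonempty with h0 | hOne
    · rw [h0, Finset.card_empty]; omega
    obtain ⟨h1, h2⟩ := k3 ε hEne hOne hOne (x := x) (by
      intro a ha c hc' d hd
      have ha' := (Finset.mem_filter.mp ha).2
      have hc'' := (Finset.mem_filter.mp hc').2
      have hd' := (Finset.mem_filter.mp hd).2
      rw [map_add, map_add, ha', hx]
      have : ∀ u v w : ZMod 2, ¬ v = u → ¬ w = u → u + v + w = u + u + u := by decide
      exact this _ _ _ hc'' hd') (by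
      intro a ha c hc' d hd e
      have ha' := Finset.mem_filter.mp ha
      have hc'' := Finset.mem_filter.mp hc'
      have hd' := Finset.mem_filter.mp hd
      have h3 := (triv3 h hbad ha'.1 hc''.1 hd'.1 (by
        rw [e, sub_self]; exact H.zero_mem)).1
      have h4 := hεH _ h3
      rw [map_sub, sub_eq_zero] at h4
      exact hc''.2 (by rw [← h4]; exact ha'.2))
    rw [hw] at h2
    set L := stab (E + O + O)
    have hlpos := fs_card_pos L
    have hl : (fs L).card ∣ 3 ^ (b + 2) := by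
      rw [← hw 0]; exact fs_card_dvd_fiber ε h1 0
    have hX := (per_add_fs L E).card_dvd
    have hY := (per_add_fs L O).card_dvd
    have hXl := le_card_of_per (L := L) hEne
    have hYl := le_card_of_per (L := L) hOne
    have hl' : (fs L).card ≠ 3 ^ (b + 2) := by omega
    have h3l := dvd_pow_three hl hl'
    have hE' := Finset.card_le_card (subset_add_fs L E)
    have hO' := Finset.card_le_card (subset_add_fs L O)
    have := arith1 hlpos h3l hX hY h2 (by omega)
    omega
  have hOd := hOper.card_dvd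
  have hd3 : (fs H).card ∣ 3 * 3 ^ b := by
    have h1 : (fs H).card ∣ 2 * (3 * 3 ^ b) := by
      have e : 2 * (3 * 3 ^ b) = 3 * (2 * 3 ^ b) := by ring
      rw [e]; exact hdv
    refine Nat.Coprime.dvd_of_dvd_mul_left ?_ h1
    rw [Nat.coprime_comm, Nat.coprime_two_left, Nat.odd_iff]
    exact hodd
  have h5 : O.card < 3 * 3 ^ b := by
    have : O.card ≤ 3 * 3 ^ b := by omega
    rcases this.lt_or_eq with h6 | h6
    · exact h6
    · omega
  have h6 : (fs H).card ∣ 3 * 3 ^ b - O.card := Nat.dvd_sub hd3 hOd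
  have h7 := Nat.le_of_dvd (by omega) h6
  omega

/-- `k = 4 * 3 ^ b` -/
theorem caseC_four {b : ℕ} (hG : Fintype.card G = 9 * (4 * 3 ^ b))
    (hexp : ∀ g : G, (3 * (4 * 3 ^ b)) • g = 0) (ψ : G →+ ZMod 4)
    (hψ : Function.Surjective ψ) {H : AddSubgroup G} {A : Finset G}
    (h : Star H A) (hA : A.card = 3 * (4 * 3 ^ b) + 3)
    (hc : (A + fs H).card = 3 * (4 * 3 ^ b) + (fs H).card)
    (hdv : (fs H).card ∣ 3 * (4 * 3 ^ b)) {x : G} (hbad : Bad3 A x)
    (hσ : ∑ a ∈ A, a = x) {g0 : G} (hg0 : g0 ∈ Tset H A x)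
    (hfull : ∀ a ∈ A + fs H, a ∉ Tset H A x → a ∈ A) (hodd : (fs H).card % 2 = 1)
    (hT : (Tset H A x).card ≤ 4 * (fs H).card) : False := by
  have hψH : ∀ g ∈ H, ψ g = 0 := odd_hom_zero ψ (m := 2) (by decide) hodd
  obtain ⟨-, hx, hsum⟩ := shift_sum ψ hexp hA hσ hψH (by decide) hg0 hfull
  -- parity homomorphism
  set ε : G →+ ZMod 2 := (ZMod.castHom (by norm_num : 2 ∣ 4) (ZMod 2)).toAddMonoidHom.comp ψ
    with hεdef
  have hεψ : ∀ g, ε g = ZMod.castHom (by norm_num : 2 ∣ 4) (ZMod 2) (ψ g) := fun g => rfl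
  have hε : Function.Surjective ε := by
    intro m
    have : ∀ m : ZMod 2, ∃ u : ZMod 4, ZMod.castHom (by norm_num : 2 ∣ 4) (ZMod 2) u = m := by
      decide
    obtain ⟨u, hu⟩ := this m
    obtain ⟨g, hg⟩ := hψ u
    exact ⟨g, by rw [hεψ, hg, hu]⟩
  have hεH : ∀ g ∈ H, ε g = 0 := fun g hg => by rw [hεψ, hψH g hg, map_zero]
  have hxε : ε x = ε g0 + ε g0 + ε g0 := (shift_sum ε hexp hA hσ hεH (by decide) hg0 hfull).2.1
  have hpar := parity_even ε hexp hA hσ hεH hg0 hfull
  have hpos := fs_card_pos H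
  have e9 : 3 ^ (b + 2) = 9 * 3 ^ b := by rw [pow_add]; ring
  have hqodd : (3 ^ b) % 2 = 1 := by
    rw [Nat.pow_mod]; norm_num
  have hw2 : ∀ m, (univ.filter fun g => ε g = m).card = 2 * 3 ^ (b + 2) := by
    intro m
    have := card_fiber ε hε m
    rw [hG, ZMod.card] at this
    omega
  have hw4 : ∀ m, (univ.filter fun g => ψ g = m).card = 3 ^ (b + 2) := by
    intro m
    have := card_fiber ψ hψ m
    rw [hG, ZMod.card] at this
    omega
  -- classes
  set F : ZMod 4 → Finset G := fun j => (A + fs H).filter fun a => ψ a - ψ g0 = j with hF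
  have hFmem : ∀ j a, a ∈ F j ↔ a ∈ A + fs H ∧ ψ a - ψ g0 = j := by
    intro j a; rw [hF]; exact Finset.mem_filter
  have hFper : ∀ j, Per H (F j) := fun j => (per_add_fs H A).filter _ fun c g hg hc => by
    rw [map_add, hψH g hg, add_zero]; exact hc
  have hFd : ∀ j, (fs H).card ∣ (F j).card := fun j => (hFper j).card_dvd
  have hd3 : (fs H).card ∣ 3 * 3 ^ b := by
    have h1 : (fs H).card ∣ 4 * (3 * 3 ^ b) := by
      have e : 4 * (3 * 3 ^ b) = 3 * (4 * 3 ^ b) := by ring
      rw [e]; exact hdv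
    refine Nat.Coprime.dvd_of_dvd_mul_left ?_ h1
    have : Nat.Coprime (fs H).card (2 ^ 2) := by
      apply Nat.Coprime.pow_right
      rw [Nat.coprime_comm, Nat.coprime_two_left, Nat.odd_iff]
      exact hodd
    simpa using this
  have huniv4 : (univ : Finset (ZMod 4)) = {0, 1, 2, 3} := by decide
  have hcardsum : (F 0).card + (F 1).card + (F 2).card + (F 3).card =
      3 * (4 * 3 ^ b) + (fs H).card := by
    rw [← hc, Finset.card_eq_sum_card_fiberwise (s := A + fs H) (t := (univ : Finset (ZMod 4)))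
      (f := fun a => ψ a - ψ g0) (fun _ _ => Finset.mem_univ _), huniv4]
    rw [Finset.sum_insert (by decide), Finset.sum_insert (by decide),
      Finset.sum_insert (by decide), Finset.sum_singleton]
    ring
  have hweight : (((F 1).card + 2 * (F 2).card + 3 * (F 3).card : ℕ) : ZMod 4) = 0 := by
    have h1 := Finset.sum_fiberwise (A + fs H) (fun a => ψ a - ψ g0) (fun a => ψ a - ψ g0)
    rw [hsum, huniv4, Finset.sum_insert (by decide), Finset.sum_insert (by decide),
      Finset.sum_insert (by decide), Finset.sum_singleton] at h1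
    have h2 : ∀ j, ∑ a ∈ (A + fs H).filter (fun a => ψ a - ψ g0 = j), (ψ a - ψ g0) =
        ((F j).card : ZMod 4) * j := by
      intro j
      rw [Finset.sum_congr rfl (fun a ha => (Finset.mem_filter.mp ha).2), Finset.sum_const,
        nsmul_eq_mul]
    rw [h2, h2, h2, h2] at h1
    rw [← h1]
    push_cast
    ring
  have hweight' := (ZMod.natCast_eq_zero_iff _ 4).mp hweight
  -- the class of g0
  have hE0 := scherk3 ψ h hbad hψH hg0
  rw [hw4] at hE0
  have hF0 : ((A + fs H).filter fun a => ψ a = ψ g0) = F 0 := by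
    rw [hF]; ext a; simp only [Finset.mem_filter, sub_eq_zero]
  rw [hF0] at hE0
  have h0le : (F 0).card ≤ 3 * 3 ^ b + (fs H).card := by
    obtain ⟨u, hu⟩ := hFd 0
    obtain ⟨v, hv⟩ := hd3
    rw [hu, hv]
    have h1 : (fs H).card * (3 * u) ≤ (fs H).card * (3 * v + 5) := by
      have : 3 * (F 0).card ≤ 3 * (3 * 3 ^ b) + 5 * (fs H).card := by omega
      rw [hu, hv] at this
      nlinarith
    have h2 := Nat.le_of_mul_le_mul_left h1 hpos
    have h3 : u ≤ v + 1 := by omega
    nlinarith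
  -- parity classes
  have hεcls : ∀ a, ε a = ε g0 ↔ (ψ a - ψ g0 = 0 ∨ ψ a - ψ g0 = 2) := by
    intro a
    rw [hεψ, hεψ]
    have : ∀ u v : ZMod 4, (ZMod.castHom (by norm_num : 2 ∣ 4) (ZMod 2) u =
        ZMod.castHom (by norm_num : 2 ∣ 4) (ZMod 2) v) ↔ (u - v = 0 ∨ u - v = 2) := by decide
    exact this _ _
  have hsplit := Finset.card_filter_add_card_filter_not (s := A + fs H) (fun a => ε a = ε g0)
  rw [hc] at hsplit
  set E := (A + fs H).filter fun a => ε a = ε g0 with hEdef
  set O := (A + fs H).filter fun a => ¬ ε a = ε g0 with hOdef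
  have hEcard : E.card = (F 0).card + (F 2).card := by
    rw [← Finset.card_union_of_disjoint]
    · congr 1
      ext a
      rw [hEdef, Finset.mem_filter, Finset.mem_union, hFmem, hFmem, hεcls]
      tauto
    · rw [Finset.disjoint_left]
      intro a ha hb
      rw [hFmem] at ha hb
      exact absurd (ha.2.symm.trans hb.2) (by decide)
  have hOcard : O.card = (F 1).card + (F 3).card := by omega
  have hEne : E.Nonempty := ⟨g0, Finset.mem_filter.mpr ⟨(mem_Tset.mp hg0).1, rfl⟩⟩
  have hOle : O.card ≤ 2 * (3 * 3 ^ b) := by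
    rcases O.eq_empty_or_nonempty with h0 | hOne
    · rw [h0, Finset.card_empty]; omega
    obtain ⟨h1, h2⟩ := k3 ε hEne hOne hOne (x := x) (by
      intro a ha c hc' d hd
      have ha' := (Finset.mem_filter.mp ha).2
      have hc'' := (Finset.mem_filter.mp hc').2
      have hd' := (Finset.mem_filter.mp hd).2
      rw [map_add, map_add, ha', hxε]
      have : ∀ u v w : ZMod 2, ¬ v = u → ¬ w = u → u + v + w = u + u + u := by decide
      exact this _ _ _ hc'' hd') (by
      intro a ha c hc' d hd e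
      have ha' := Finset.mem_filter.mp ha
      have hc'' := Finset.mem_filter.mp hc'
      have hd' := Finset.mem_filter.mp hd
      have h3 := (triv3 h hbad ha'.1 hc''.1 hd'.1 (by
        rw [e, sub_self]; exact H.zero_mem)).1
      have h4 := hεH _ h3
      rw [map_sub, sub_eq_zero] at h4
      exact hc''.2 (by rw [← h4]; exact ha'.2))
    rw [hw2] at h2
    set L := stab (E + O + O)
    have hlpos := fs_card_pos L
    have hl : (fs L).card ∣ 2 * 3 ^ (b + 2) := by
      rw [← hw2 0]; exact fs_card_dvd_fiber ε h1 0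
    have hX := (per_add_fs L E).card_dvd
    have hY := (per_add_fs L O).card_dvd
    have hXl := le_card_of_per (L := L) hEne
    have hYl := le_card_of_per (L := L) hOne
    have hE' := Finset.card_le_card (subset_add_fs L E)
    have hO' := Finset.card_le_card (subset_add_fs L O)
    by_cases h3l : 3 * (fs L).card ∣ 2 * 3 ^ (b + 2)
    · have := arith1 hlpos h3l hX hY h2 (by omega)
      omega
    · -- then |L| = 3 ^ (b + 2)
      exfalso
      have hL : (fs L).card = 3 ^ (b + 2) := by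
        rcases Nat.mod_two_eq_zero_or_one (fs L).card with hp | hp
        · obtain ⟨m, hm⟩ : ∃ m, (fs L).card = 2 * m := ⟨(fs L).card / 2, by omega⟩
          rw [hm] at hl
          have hm3 : m ∣ 3 ^ (b + 2) := Nat.dvd_of_mul_dvd_mul_left (by norm_num) hl
          have hmne : m ≠ 3 ^ (b + 2) := by
            rintro rfl
            omega
          exfalso
          apply h3l
          rw [hm]
          have := dvd_pow_three hm3 hmne
          have e : 3 * (2 * m) = 2 * (3 * m) := by ring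
          rw [e]
          exact Nat.mul_dvd_mul_left 2 this
        · have hl3 : (fs L).card ∣ 3 ^ (b + 2) := by
            refine Nat.Coprime.dvd_of_dvd_mul_left ?_ hl
            rw [Nat.coprime_comm, Nat.coprime_two_left, Nat.odd_iff]
            exact hp
          by_contra hne
          apply h3l
          exact (dvd_pow_three hl3 hne).mul_left 2
      have hLodd : (fs L).card % 2 = 1 := by rw [hL, e9]; omega
      have hψL : ∀ g ∈ L, ψ g = 0 := odd_hom_zero ψ (m := 2) (by decide) hLodd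
      -- E lies in one coset of L
      have hXeq : (E + fs L).card = (fs L).card := by
        obtain ⟨c1, hc1⟩ := hX
        obtain ⟨c2, hc2⟩ := hY
        rw [hc1, hc2] at h2
        rw [hc1] at hXl
        rw [hc2] at hYl
        rw [hc1]
        have hh : (fs L).card * (c1 + 2 * c2) ≤ (fs L).card * 3 := by
          have : 2 * 3 ^ (b + 2) + (fs L).card = (fs L).card * 3 := by rw [hL]; ring
          rw [← this]; nlinarith
        have h5 := Nat.le_of_mul_le_mul_left hh hlpos
        have h6 : 1 ≤ c1 := Nat.pos_of_ne_zero (by rintro rfl; omega)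
        have h7 : 1 ≤ c2 := Nat.pos_of_ne_zero (by rintro rfl; omega)
        have h8 : c1 = 1 := by omega
        rw [h8, mul_one]
      have hYle : (O + fs L).card ≤ 3 ^ (b + 2) := by omega
      have hg0E : g0 ∈ E := Finset.mem_filter.mpr ⟨(mem_Tset.mp hg0).1, rfl⟩
      have hEcs : E + fs L = cs L g0 := by
        symm
        apply Finset.eq_of_subset_of_card_le
        · exact (per_add_fs L E).cs_subset (subset_add_fs L E hg0E)
        · rw [card_cs]; omega
      have hF2 : (F 2).card = 0 := by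
        rw [Finset.card_eq_zero, Finset.eq_empty_iff_forall_notMem]
        intro a ha
        rw [hFmem] at ha
        have haE : a ∈ E := by
          rw [hEdef, Finset.mem_filter, hεcls]
          exact ⟨ha.1, Or.inr ha.2⟩
        have h5 := subset_add_fs L E haE
        rw [hEcs, mem_cs] at h5
        have h6 := hψL _ h5
        rw [map_sub, ha.2] at h6
        exact absurd h6 (by decide)
      omega
  -- class 2
  have h2ge : 3 * 3 ^ b ≤ (F 2).card := by omega
  have hqpos : 0 < 3 ^ b := by positivity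
  have hF0ne : (F 0).Nonempty := ⟨g0, by rw [hFmem]; exact ⟨(mem_Tset.mp hg0).1, sub_self _⟩⟩
  have hF2ne : (F 2).Nonempty := Finset.card_pos.mp (by omega)
  have hnotx : ∀ i j l : ZMod 4, i ≠ j → ∀ a ∈ F i, ∀ c ∈ F j, ∀ d ∈ F l, a + c + d ≠ x := by
    intro i j l hij a ha c hc' d hd e
    rw [hFmem] at ha hc' hd
    have h3 := (triv3 h hbad ha.1 hc'.1 hd.1 (by
      rw [e, sub_self]; exact H.zero_mem)).1
    have h4 := hψH _ h3
    rw [map_sub] at h4
    apply hij
    rw [← ha.2, ← hc'.2]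
    have e2 : ψ a - ψ g0 - (ψ c - ψ g0) = ψ a - ψ c := by abel
    rw [← sub_eq_zero, e2, h4]
  have hcls : ∀ i j l : ZMod 4, i + j + l = 0 → ∀ a ∈ F i, ∀ c ∈ F j, ∀ d ∈ F l,
      ψ (a + c + d) = ψ x := by
    intro i j l hs a ha c hc' d hd
    rw [hFmem] at ha hc' hd
    rw [map_add, map_add, hx]
    have e2 : ψ a + ψ c + ψ d = (ψ a - ψ g0) + (ψ c - ψ g0) + (ψ d - ψ g0) +
        (ψ g0 + ψ g0 + ψ g0) := by abel
    rw [e2, ha.2, hc'.2, hd.2, hs, zero_add]
  have step : ∀ i j : ZMod 4, i ≠ j → i + j + j = 0 → (F i).Nonempty → (F j).Nonempty →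
      ∃ L : AddSubgroup G, 0 < (fs L).card ∧ 3 * (fs L).card ∣ 3 ^ (b + 2) ∧
        (fs L).card ∣ (F i + fs L).card ∧ (fs L).card ∣ (F j + fs L).card ∧
        (F i + fs L).card + (F j + fs L).card + (F j + fs L).card ≤
          3 ^ (b + 2) + (fs L).card := by
    intro i j hij hs hi hj
    obtain ⟨h1, h2⟩ := k3 ψ hi hj hj (x := x) (hcls i j j hs) (hnotx i j j hij)
    rw [hw4] at h2
    refine ⟨_, fs_card_pos _, ?_, (per_add_fs _ _).card_dvd, (per_add_fs _ _).card_dvd, h2⟩
    apply dvd_pow_three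
    · rw [← hw4 0]; exact fs_card_dvd_fiber ψ h1 0
    · have hXl := le_card_of_per (L := stab (F i + F j + F j)) hi
      have hYl := le_card_of_per (L := stab (F i + F j + F j)) hj
      have := fs_card_pos (stab (F i + F j + F j))
      omega
  have h2le : 3 * (F 2).card ≤ 3 ^ (b + 2) := by
    obtain ⟨L, l1, l2, l3, l4, l5⟩ := step 0 2 (by decide) (by decide) hF0ne hF2ne
    have hE' := Finset.card_le_card (subset_add_fs L (F 0))
    have hO' := Finset.card_le_card (subset_add_fs L (F 2))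
    have := arith1 l1 l2 l3 l4 l5 (by omega)
    omega
  have h1le : 3 * (F 1).card ≤ 3 ^ (b + 2) := by
    rcases (F 1).eq_empty_or_nonempty with h0 | hne
    · rw [h0, Finset.card_empty]; omega
    obtain ⟨L, l1, l2, l3, l4, l5⟩ := step 2 1 (by decide) (by decide) hF2ne hne
    have hE' := Finset.card_le_card (subset_add_fs L (F 2))
    have hO' := Finset.card_le_card (subset_add_fs L (F 1))
    have := arith2 l1 l2 l3 l4 l5 (by omega)
    omega
  have h3le : 3 * (F 3).card ≤ 3 ^ (b + 2) := by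
    rcases (F 3).eq_empty_or_nonempty with h0 | hne
    · rw [h0, Finset.card_empty]; omega
    obtain ⟨L, l1, l2, l3, l4, l5⟩ := step 2 3 (by decide) (by decide) hF2ne hne
    have hE' := Finset.card_le_card (subset_add_fs L (F 2))
    have hO' := Finset.card_le_card (subset_add_fs L (F 3))
    have := arith2 l1 l2 l3 l4 l5 (by omega)
    omega
  have f2 : (F 2).card = 3 * 3 ^ b := by omega
  have f0 : (F 0).card = 3 * 3 ^ b + (fs H).card := by omega
  have f13 : (F 1).card + (F 3).card = 6 * 3 ^ b := by omega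
  have f1 : (F 1).card = 3 * 3 ^ b := by omega
  have f3 : (F 3).card = 3 * 3 ^ b := by omega
  rw [f1, f2, f3] at hweight'
  omega

end Pool.Agent.Helper450.WZ
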