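import Mathlib
open Finset
open scoped Pointwise
namespace Pool.Agent.Helper450.WZJ1

section gen
open Polynomial
variable {K : Type*} [Field K] [DecidableEq K]

/-- Lagrange weights of a finite set. -/
noncomputable def wt (S : Finset K) (a : K) : K := (∏ j ∈ S.erase a, (a - j))⁻¹

lemma sum_wt (S : Finset K) (P : K[X]) (hP : P.degree < S.card) :
    ∑ a ∈ S, wt S a * P.eval a = P.coeff (S.card - 1) := by
  have h := Lagrange.coeff_eq_sum (s := S) (v := id) (Set.injOn_id _) hP
  rw [h]
  refine Finset.sum_congr rfl fun a _ => ?_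
  simp [wt, div_eq_mul_inv, mul_comm]

/-- weighted power sums -/
noncomputable def mu (S : Finset K) (i : ℕ) : K := ∑ a ∈ S, wt S a * a ^ i

lemma mu_lt (S : Finset K) (i : ℕ) (hi : i + 1 < S.card) : mu S i = 0 := by
  have h := sum_wt S (X ^ i : K[X]) (by
    rw [degree_X_pow]; exact_mod_cast (by omega : i < S.card))
  simp only [eval_pow, eval_X, coeff_X_pow] at h
  rw [mu, h, if_neg (by omega)]

lemma mu_pred (S : Finset K) (i : ℕ) (hi : i + 1 = S.card) : mu S i = 1 := by
  have h := sum_wt S (X ^ i : K[X]) (by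
    rw [degree_X_pow]; exact_mod_cast (by omega : i < S.card))
  simp only [eval_pow, eval_X, coeff_X_pow] at h
  rw [mu, h, if_pos (by omega)]

lemma mu_card (S : Finset K) (hS : 0 < S.card) : mu S S.card = ∑ a ∈ S, a := by
  have hdeg : (∏ a ∈ S, (X - C a) : K[X]).degree = S.card := by
    rw [degree_prod]; simp
  have hmon : (∏ a ∈ S, (X - C a) : K[X]).Monic := monic_prod_of_monic _ _ fun a _ => monic_X_sub_C a
  have hlt : (X ^ S.card - ∏ a ∈ S, (X - C a) : K[X]).degree < S.card := by
    have := degree_sub_lt_left (p := (X ^ S.card : K[X])) (q := ∏ a ∈ S, (X - C a))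
      (by rw [hdeg, degree_X_pow]) (pow_ne_zero _ X_ne_zero)
      (by rw [hmon.leadingCoeff, (monic_X_pow _).leadingCoeff])
    rwa [degree_X_pow] at this
  have h := sum_wt S _ hlt
  have hc : (∏ a ∈ S, (X - C a) : K[X]).coeff (S.card - 1) = - ∑ a ∈ S, a :=
    prod_X_sub_C_coeff_card_pred S (fun a => a) hS
  rw [coeff_sub, hc, coeff_X_pow, if_neg (by omega)] at h
  rw [mu]
  have e : ∑ a ∈ S, wt S a * a ^ S.card
      = ∑ a ∈ S, wt S a * (X ^ S.card - ∏ a ∈ S, (X - C a) : K[X]).eval a := by
    refine Finset.sum_congr rfl fun a ha => ?_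
    have : (∏ a ∈ S, (X - C a) : K[X]).eval a = 0 := by
      rw [eval_prod]
      exact Finset.prod_eq_zero ha (by simp)
    rw [eval_sub, this, eval_pow, eval_X, sub_zero]
  rw [e, h]
  ring

lemma double (S : Finset K) (j : ℕ) :
    ∑ a ∈ S, ∑ b ∈ S, wt S a * wt S b * (a + b) ^ j
      = ∑ i ∈ range (j + 1), (j.choose i : K) * (mu S i * mu S (j - i)) := by
  have h1 : ∀ a ∈ S, ∀ b ∈ S, wt S a * wt S b * (a + b) ^ j
      = ∑ i ∈ range (j + 1), (j.choose i : K) * ((wt S a * a ^ i) * (wt S b * b ^ (j - i))) := by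
    intro a _ b _
    rw [add_pow, Finset.mul_sum]
    refine Finset.sum_congr rfl fun i _ => ?_
    ring
  rw [Finset.sum_congr rfl fun a ha => Finset.sum_congr rfl fun b hb => h1 a ha b hb]
  rw [Finset.sum_congr rfl fun a _ => Finset.sum_comm, Finset.sum_comm]
  refine Finset.sum_congr rfl fun i _ => ?_
  rw [mu, mu, Finset.sum_mul_sum, Finset.mul_sum]
  refine Finset.sum_congr rfl fun a _ => ?_
  rw [Finset.mul_sum]

lemma key (S : Finset K) (m : ℕ) (hm : 1 ≤ m) (hS : S.card = m) (T : Finset K)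
    (hT : T.card = 2 * m - 1) (hST : ∀ a ∈ S, ∀ b ∈ S, a + b ∈ T) :
    (∑ t ∈ T, t) * ((2 * m - 2).choose (m - 1) : K)
      = 2 * ((2 * m - 1).choose m : K) * ∑ s ∈ S, s := by
  set P : K[X] := ∏ t ∈ T, (X - C t) with hP
  have hmon : P.Monic := monic_prod_of_monic _ _ fun a _ => monic_X_sub_C a
  have hnd : P.natDegree = 2 * m - 1 := by
    rw [hP, natDegree_prod_of_monic _ _ fun a _ => monic_X_sub_C a]
    simp [hT]
  have hc : P.coeff (2 * m - 2) = - ∑ t ∈ T, t := by
    have := prod_X_sub_C_coeff_card_pred T (fun a => a) (by omega)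
    rw [hT] at this
    rw [hP]
    exact this
  have hlead : P.coeff (2 * m - 1) = 1 := by
    have := hmon.coeff_natDegree
    rwa [hnd] at this
  have hzero : ∑ a ∈ S, ∑ b ∈ S, wt S a * wt S b * P.eval (a + b) = 0 := by
    refine Finset.sum_eq_zero fun a ha => Finset.sum_eq_zero fun b hb => ?_
    have : P.eval (a + b) = 0 := by
      rw [hP, eval_prod]
      exact Finset.prod_eq_zero (hST a ha b hb) (by simp)
    rw [this, mul_zero]
  have hexp : ∑ a ∈ S, ∑ b ∈ S, wt S a * wt S b * P.eval (a + b)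
      = ∑ j ∈ range (2 * m), P.coeff j *
        ∑ i ∈ range (j + 1), (j.choose i : K) * (mu S i * mu S (j - i)) := by
    have h1 : ∀ a ∈ S, ∀ b ∈ S, wt S a * wt S b * P.eval (a + b)
        = ∑ j ∈ range (2 * m), P.coeff j * (wt S a * wt S b * (a + b) ^ j) := by
      intro a _ b _
      rw [eval_eq_sum_range, hnd, show 2 * m - 1 + 1 = 2 * m by omega, Finset.mul_sum]
      refine Finset.sum_congr rfl fun i _ => ?_
      ring
    rw [Finset.sum_congr rfl fun a ha => Finset.sum_congr rfl fun b hb => h1 a ha b hb]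
    rw [Finset.sum_congr rfl fun a _ => Finset.sum_comm, Finset.sum_comm]
    refine Finset.sum_congr rfl fun j _ => ?_
    rw [← double, Finset.mul_sum]
    refine Finset.sum_congr rfl fun a _ => ?_
    rw [Finset.mul_sum]
  have hinner : ∀ j, j < 2 * m - 2 →
      ∑ i ∈ range (j + 1), (j.choose i : K) * (mu S i * mu S (j - i)) = 0 := by
    intro j hj
    refine Finset.sum_eq_zero fun i hi => ?_
    rw [Finset.mem_range] at hi
    by_cases h : i + 1 < m
    · rw [mu_lt S i (by omega)]; ring
    · rw [mu_lt S (j - i) (by omega)]; ring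
  have hin2 : ∑ i ∈ range (2 * m - 2 + 1),
      ((2 * m - 2).choose i : K) * (mu S i * mu S (2 * m - 2 - i))
      = ((2 * m - 2).choose (m - 1) : K) := by
    rw [Finset.sum_eq_single_of_mem (m - 1) (by rw [Finset.mem_range]; omega)]
    · rw [mu_pred S (m - 1) (by omega), mu_pred S (2 * m - 2 - (m - 1)) (by omega)]; ring
    · intro i hi hne
      rw [Finset.mem_range] at hi
      by_cases h : i + 1 < m
      · rw [mu_lt S i (by omega)]; ring
      · rw [mu_lt S (2 * m - 2 - i) (by omega)]; ring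
  have hin1 : ∑ i ∈ range (2 * m - 1 + 1),
      ((2 * m - 1).choose i : K) * (mu S i * mu S (2 * m - 1 - i))
      = 2 * ((2 * m - 1).choose m : K) * ∑ s ∈ S, s := by
    have hmc : mu S m = ∑ s ∈ S, s := by rw [← mu_card S (by omega), hS]
    have hsub : ({m - 1, m} : Finset ℕ) ⊆ range (2 * m - 1 + 1) := by
      intro x hx
      simp only [Finset.mem_insert, Finset.mem_singleton] at hx
      rw [Finset.mem_range]; omega
    rw [← Finset.sum_subset hsub]
    · rw [Finset.sum_pair (by omega)]
      rw [show 2 * m - 1 - (m - 1) = m by omega, show 2 * m - 1 - m = m - 1 by omega,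
        mu_pred S (m - 1) (by omega), hmc]
      have hch : (2 * m - 1).choose (m - 1) = (2 * m - 1).choose m :=
        Nat.choose_symm_of_eq_add (by omega)
      rw [hch]; ring
    · intro i hi hne
      simp only [Finset.mem_insert, Finset.mem_singleton, not_or] at hne
      rw [Finset.mem_range] at hi
      by_cases h : i + 1 < m
      · rw [mu_lt S i (by omega)]; ring
      · rw [mu_lt S (2 * m - 1 - i) (by omega)]; ring
  rw [hexp] at hzero
  rw [show 2 * m = (2 * m - 2) + 1 + 1 by omega, Finset.sum_range_succ, Finset.sum_range_succ] at hzero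
  rw [Finset.sum_eq_zero (fun j hj => by
    rw [Finset.mem_range] at hj
    rw [hinner j hj, mul_zero])] at hzero
  rw [show 2 * m - 2 + 1 = 2 * m - 1 by omega] at hzero
  rw [show 2 * m - 1 = 2 * m - 2 + 1 by omega] at hzero
  rw [hin2] at hzero
  rw [show 2 * m - 2 + 1 = 2 * m - 1 by omega] at hzero
  rw [hin1, hc, hlead] at hzero
  linear_combination -hzero

end gen

/-- Critical case of Cauchy-Davenport for three equal sets: the missing element is `9 σ(S)`. -/
theorem zp_sum (p m : ℕ) [Fact p.Prime] (hp : 5 ≤ p) (hm : 3 * m = p + 1)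
    (S : Finset (ZMod p)) (hS : S.card = m) (y : ZMod p)
    (hy : ∀ a ∈ S, ∀ b ∈ S, ∀ c ∈ S, a + b + c ≠ y) :
    9 * ∑ s ∈ S, s = y := by
  have hpp : p.Prime := Fact.out
  have hne : S.Nonempty := by rw [← Finset.card_pos]; omega
  set T := S + S with hT
  have hcd := ZMod.cauchy_davenport hpp hne hne
  rw [← hT, hS] at hcd
  have hTge : 2 * m - 1 ≤ T.card := by
    have : min p (m + m - 1) = 2 * m - 1 := by omega
    omega
  set R := S.image (fun c => y - c) with hR
  have hRcard : R.card = m := by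
    rw [hR, Finset.card_image_of_injective _ (fun a b h => by simpa using h), hS]
  have hdisj : Disjoint T R := by
    rw [Finset.disjoint_left]
    intro x hx hx'
    rw [hT, Finset.mem_add] at hx
    obtain ⟨a, ha, b, hb, rfl⟩ := hx
    rw [hR, Finset.mem_image] at hx'
    obtain ⟨c, hc, h⟩ := hx'
    exact hy a ha b hb c hc (by rw [← h]; ring)
  have hcardle : (T ∪ R).card ≤ p := by
    have := Finset.card_le_univ (T ∪ R)
    rwa [ZMod.card] at this
  rw [Finset.card_union_of_disjoint hdisj, hRcard] at hcardle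
  have hTcard : T.card = 2 * m - 1 := by omega
  have huniv : T ∪ R = Finset.univ := by
    rw [← Finset.card_eq_iff_eq_univ, ZMod.card, Finset.card_union_of_disjoint hdisj, hRcard,
      hTcard]
    omega
  have hsum0 : ∑ x : ZMod p, x = 0 := by
    have := FiniteField.sum_pow_lt_card_sub_one (ZMod p) 1 (by rw [ZMod.card]; omega)
    simpa using this
  have hsumR : ∑ x ∈ R, x = m * y - ∑ s ∈ S, s := by
    rw [hR, Finset.sum_image (fun a _ b _ h => by simpa using h), Finset.sum_sub_distrib,
      Finset.sum_const, hS, nsmul_eq_mul]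
  rw [← huniv, Finset.sum_union hdisj, hsumR] at hsum0
  have hk := key S m (by omega) hS T hTcard (fun a ha b hb => Finset.add_mem_add ha hb)
  have hch : m * (2 * m - 1).choose m = (2 * m - 1) * (2 * m - 2).choose (m - 1) := by
    have := Nat.add_one_mul_choose_eq (2 * m - 2) (m - 1)
    rw [show 2 * m - 2 + 1 = 2 * m - 1 by omega, show m - 1 + 1 = m by omega] at this
    rw [this, mul_comm]
  have hchK : (m : ZMod p) * ((2 * m - 1).choose m : ZMod p)
      = (2 * m - 1) * ((2 * m - 2).choose (m - 1) : ZMod p) := by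
    have := congrArg (Nat.cast : ℕ → ZMod p) hch
    push_cast [Nat.cast_sub (show 1 ≤ 2 * m by omega)] at this
    exact this
  have hcne : ((2 * m - 2).choose (m - 1) : ZMod p) ≠ 0 := by
    rw [Ne, ZMod.natCast_eq_zero_iff]
    intro hd
    have h1 : (2 * m - 2).choose (m - 1) ∣ (2 * m - 2).factorial :=
      ⟨_, by rw [← mul_assoc]; exact (Nat.choose_mul_factorial_mul_factorial (by omega)).symm⟩
    have := (hpp.dvd_factorial).1 (hd.trans h1)
    omega
  have h3 : (3 : ZMod p) * m = 1 := by
    have := congrArg (Nat.cast : ℕ → ZMod p) hm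
    push_cast at this
    rw [this]; simp
  set s := ∑ s ∈ S, s with hs
  set c := ((2 * m - 2).choose (m - 1) : ZMod p) with hc
  have e1 : (m : ZMod p) * (∑ t ∈ T, t) = 2 * (2 * m - 1) * s := by
    apply mul_right_cancel₀ hcne
    calc (m : ZMod p) * (∑ t ∈ T, t) * c = m * ((∑ t ∈ T, t) * c) := by ring
      _ = m * (2 * ((2 * m - 1).choose m : ZMod p) * s) := by rw [hk]
      _ = 2 * (m * ((2 * m - 1).choose m : ZMod p)) * s := by ring
      _ = 2 * ((2 * m - 1) * c) * s := by rw [hchK]
      _ = 2 * (2 * m - 1) * s * c := by ring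
  have e2 : ∑ t ∈ T, t = s - m * y := by linear_combination hsum0
  rw [e2] at e1
  -- m (s - m y) = 2 (2m-1) s
  have e3 : s = (m : ZMod p) ^ 2 * y := by
    linear_combination e1 + s * h3
  rw [e3]
  have : (9 : ZMod p) * (m ^ 2 * y) = (3 * m) ^ 2 * y := by ring
  rw [this, h3]; ring

end Pool.Agent.Helper450.WZJ1
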