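import Mathlib
import Pool.Agent.Helper450.WZCaseC
import Pool.Agent.Helper450.WZJ1

set_option autoImplicit false
set_option linter.unusedSectionVars false

open Finset
open scoped Pointwise
open Pool.Agent.Helper450.Kneser

namespace Pool.Agent.Helper450.WZ

variable {G : Type*} [AddCommGroup G] [Fintype G] [DecidableEq G]

/-- Structure in case I: `x` is not a sum of three elements of `A`. -/
theorem caseI {k : ℕ} (hG : Fintype.card G = 9 * k) {A : Finset G} (hA : A.card = 3 * k + 3)
    {x : G} (hno : ∀ a ∈ A, ∀ b ∈ A, ∀ c ∈ A, a + b + c ≠ x) :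
    ∃ (K : AddSubgroup G) (N m : ℕ), N * (fs K).card = 9 * k ∧ 3 * m = N + 1 ∧
      (A + fs K).card = m * (fs K).card ∧
      ∀ a ∈ A + fs K, ∀ b ∈ A + fs K, ∀ c ∈ A + fs K, x - (a + b + c) ∉ K := by
  have hAne : A.Nonempty := Finset.card_pos.mp (by omega)
  obtain ⟨_, h2⟩ := k3 (0 : G →+ Unit) hAne hAne hAne (x := x) (fun _ _ _ _ _ _ => rfl) hno
  have e2 : (univ.filter fun g : G => (0 : G →+ Unit) g = (0 : G →+ Unit) x) = univ := by
    apply Finset.filter_true_of_mem
    intro _ _; rfl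
  rw [e2, Finset.card_univ, hG] at h2
  set K := stab (A + A + A) with hK
  have hKper : Per K (A + A + A) := per_stab _
  have hpos := fs_card_pos K
  obtain ⟨N, hN⟩ := fs_card_dvd_card K
  rw [hG] at hN
  obtain ⟨m, hm⟩ := (per_add_fs K A).card_dvd
  have hge := Finset.card_le_card (subset_add_fs K A)
  have h3 : 3 * m = N + 1 := by
    rw [hm] at h2 hge
    have h4 : (fs K).card * (3 * m) ≤ (fs K).card * (N + 1) := by nlinarith
    have h5 := Nat.le_of_mul_le_mul_left h4 hpos
    have h6 : (fs K).card * N < (fs K).card * (3 * m) := by nlinarith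
    have h7 := Nat.lt_of_mul_lt_mul_left h6
    omega
  refine ⟨K, N, m, by rw [hN, mul_comm], h3, by rw [hm, mul_comm], ?_⟩
  intro a ha b hb c hc hmem
  rw [mem_add_fs] at ha hb hc
  obtain ⟨a', ha', ha⟩ := ha
  obtain ⟨b', hb', hb⟩ := hb
  obtain ⟨c', hc', hc⟩ := hc
  have h4 : x ∈ A + A + A := by
    apply hKper.mem_of_sub_mem (a := a' + b' + c')
    · have e : x - (a' + b' + c') = (x - (a + b + c)) + (a - a') + (b - b') + (c - c') := by abel
      rw [e]
      exact K.add_mem (K.add_mem (K.add_mem hmem ha) hb) hc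
    · exact Finset.add_mem_add (Finset.add_mem_add ha' hb') hc'
  obtain ⟨y, hy, c2, hc2, e⟩ := Finset.mem_add.mp h4
  obtain ⟨a2, ha2, b2, hb2, rfl⟩ := Finset.mem_add.mp hy
  exact hno a2 ha2 b2 hb2 c2 hc2 e

/-- sum of a set inside a coset -/
theorem sum_sub_mem {K : AddSubgroup G} {A : Finset G} {a0 : G} (hA : A ⊆ cs K a0) :
    ∑ a ∈ A, a - A.card • a0 ∈ K := by
  rw [← Finset.sum_const, ← Finset.sum_sub_distrib]
  apply K.sum_mem
  intro a ha
  exact mem_cs.mp (hA ha)

theorem caseI_N2 {k : ℕ} (hexp : ∀ g : G, (3 * k) • g = 0) {A : Finset G}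
    (hA : A.card = 3 * k + 3) {x : G} (hσ : ∑ a ∈ A, a = x) {K : AddSubgroup G}
    (hc : (A + fs K).card = (fs K).card)
    (hx : ∀ a ∈ A + fs K, ∀ b ∈ A + fs K, ∀ c ∈ A + fs K, x - (a + b + c) ∉ K) : False := by
  obtain ⟨a0, ha0⟩ : A.Nonempty := Finset.card_pos.mp (by omega)
  have h0 := subset_add_fs K A ha0
  have h1 : cs K a0 = A + fs K := by
    apply Finset.eq_of_subset_of_card_le ((per_add_fs K A).cs_subset h0)
    rw [card_cs, hc]
  have h2 : A ⊆ cs K a0 := by rw [h1]; exact subset_add_fs K A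
  have h3 := sum_sub_mem h2
  rw [hσ, hA, add_nsmul, hexp, zero_add] at h3
  apply hx a0 h0 a0 h0 a0 h0
  have e : (3 : ℕ) • a0 = a0 + a0 + a0 := by rw [succ_nsmul, two_nsmul]
  rwa [e] at h3

theorem parity_even' {k : ℕ} (hk : k % 2 = 0) (ε : G →+ ZMod 2) {A : Finset G}
    (hA : A.card = 3 * k + 3) {x : G} (hσ : ∑ a ∈ A, a = x) :
    (A.filter fun a => ¬ ε a = ε x).card % 2 = 0 := by
  have h : ∑ a ∈ A, (ε a - ε x) = 0 := by
    rw [Finset.sum_sub_distrib, ← map_sum, hσ, Finset.sum_const, hA]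
    obtain ⟨j, rfl⟩ : ∃ j, k = 2 * j := ⟨k / 2, by omega⟩
    have e : 3 * (2 * j) + 3 = 2 * (3 * j + 1) + 1 := by ring
    rw [e, add_nsmul, mul_comm 2, mul_nsmul, one_nsmul]
    have h2 : ∀ u : ZMod 2, (2 : ℕ) • u = 0 := by decide
    have h3 : (2 : ℕ) • ((3 * j + 1) • ε x) = 0 := h2 _
    rw [h3, zero_add, sub_self]
  rw [← Finset.sum_filter_add_sum_filter_not A (fun a => ε a = ε x)] at h
  have h1 : ∑ a ∈ A.filter (fun a => ε a = ε x), (ε a - ε x) = 0 := by
    apply Finset.sum_eq_zero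
    intro a ha
    rw [(Finset.mem_filter.mp ha).2, sub_self]
  have h2 : ∑ a ∈ A.filter (fun a => ¬ ε a = ε x), (ε a - ε x) =
      ∑ a ∈ A.filter (fun a => ¬ ε a = ε x), (1 : ZMod 2) := by
    apply Finset.sum_congr rfl
    intro a ha
    have h3 := (Finset.mem_filter.mp ha).2
    have : ∀ u v : ZMod 2, ¬ u = v → u - v = 1 := by decide
    exact this _ _ h3
  rw [h1, zero_add, h2, Finset.sum_const, nsmul_eq_mul, mul_one] at h
  have h3 := (ZMod.natCast_eq_zero_iff _ 2).mp h
  omega

/-- `k = 2p`, quotient of order `2p` -/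
theorem caseI_2p {p : ℕ} (hp : p.Prime) (hp5 : 5 ≤ p) (hG : Fintype.card G = 9 * (2 * p))
    (ε : G →+ ZMod 2) (hε : Function.Surjective ε) {A : Finset G}
    (hA : A.card = 3 * (2 * p) + 3) {x : G} (hσ : ∑ a ∈ A, a = x) {K : AddSubgroup G} {m : ℕ}
    (hK : (fs K).card = 9) (hm : 3 * m = 2 * p + 1) (hc : (A + fs K).card = m * (fs K).card)
    (hno : ∀ a ∈ A, ∀ b ∈ A, ∀ c ∈ A, a + b + c ≠ x) : False := by
  have hpodd : p % 2 = 1 := by
    rcases hp.eq_two_or_odd with h | h
    · omega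
    · exact h
  have hAA : A + fs K = A := by
    symm
    apply Finset.eq_of_subset_of_card_le (subset_add_fs K A)
    rw [hc, hK, hA]; omega
  have hAper : Per K A := by rw [← hAA]; exact per_add_fs K A
  have hKε : ∀ g ∈ K, ε g = 0 := odd_hom_zero ε (m := 1) (by decide) (by rw [hK])
  have hpar := parity_even' (by omega) ε hA hσ
  have hw : ∀ m, (univ.filter fun g => ε g = m).card = 9 * p := by
    intro m
    have := card_fiber ε hε m
    rw [hG, ZMod.card] at this
    omega
  have hsplit := Finset.card_filter_add_card_filter_not (s := A) (fun a => ε a = ε x)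
  rw [hA] at hsplit
  set E := A.filter fun a => ε a = ε x with hEdef
  set O := A.filter fun a => ¬ ε a = ε x with hOdef
  have hEper : Per K E := hAper.filter _ fun c g hg hc => by
    rw [map_add, hKε g hg, add_zero]; exact hc
  have hOper : Per K O := hAper.filter _ fun c g hg hc => by
    rw [map_add, hKε g hg, add_zero]; exact hc
  obtain ⟨e, he⟩ := hEper.card_dvd
  obtain ⟨o, ho⟩ := hOper.card_dvd
  rw [hK] at he ho
  have hEne : E.Nonempty := by
    rw [Finset.nonempty_iff_ne_empty]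
    intro h0
    rw [h0, Finset.card_empty] at hsplit
    omega
  have bound : ∀ U V : Finset G, U.Nonempty → V.Nonempty → U ⊆ A → V ⊆ A → Per K U →
      (∀ a ∈ U, ∀ b ∈ V, ∀ c ∈ V, ε (a + b + c) = ε x) →
      U.card + V.card + V.card ≤ 9 * p + 9 := by
    intro U V hU hV hUA hVA hUper hcl
    obtain ⟨h1, h2⟩ := k3 ε hU hV hV (x := x) hcl
      (fun a ha b hb c hc => hno a (hUA ha) b (hVA hb) c (hVA hc))
    rw [hw] at h2
    have hKL : K ≤ stab (U + V + V) := ((hUper.add V).add V).le_stab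
    set L := stab (U + V + V)
    have hX := Finset.card_le_card (subset_add_fs L U)
    have hY := Finset.card_le_card (subset_add_fs L V)
    have hXl := le_card_of_per (L := L) hU
    have hYl := le_card_of_per (L := L) hV
    have hlpos := fs_card_pos L
    have hl : (fs L).card ∣ 9 * p := by
      rw [← hw 0]; exact fs_card_dvd_fiber ε h1 0
    obtain ⟨j, hj⟩ := fs_card_dvd_of_le hKL
    rw [hK] at hj
    rw [hj] at hl
    have hjp : j ∣ p := Nat.dvd_of_mul_dvd_mul_left (by norm_num) hl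
    rcases (Nat.dvd_prime hp).mp hjp with h3 | h3
    · rw [h3] at hj; omega
    · rw [h3] at hj; omega
  have b1 := bound E E hEne hEne (Finset.filter_subset _ _) (Finset.filter_subset _ _) hEper (by
    intro a ha b hb c hc
    rw [map_add, map_add, (Finset.mem_filter.mp ha).2, (Finset.mem_filter.mp hb).2,
      (Finset.mem_filter.mp hc).2]
    have : ∀ u : ZMod 2, u + u + u = u := by decide
    exact this _)
  have hOne : O.Nonempty := Finset.card_pos.mp (by omega)
  have b2 := bound E O hEne hOne (Finset.filter_subset _ _) (Finset.filter_subset _ _) hEper (by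
    intro a ha b hb c hc
    rw [map_add, map_add, (Finset.mem_filter.mp ha).2]
    have : ∀ u v w : ZMod 2, ¬ v = u → ¬ w = u → u + v + w = u := by decide
    exact this _ _ _ (Finset.mem_filter.mp hb).2 (Finset.mem_filter.mp hc).2)
  omega

/-- `k = 2p`, quotient of order `p` -/
theorem caseI_p {p : ℕ} (hp : p.Prime) (hp5 : 5 ≤ p) (hG : Fintype.card G = 9 * (2 * p))
    (ψ : G →+ ZMod p) (hψ : Function.Surjective ψ) {A : Finset G}
    (hA : A.card = 3 * (2 * p) + 3) {x : G} (hσ : ∑ a ∈ A, a = x) {K : AddSubgroup G} {m : ℕ}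
    (hK : (fs K).card = 18) (hm : 3 * m = p + 1) (hc : (A + fs K).card = m * (fs K).card)
    (hx : ∀ a ∈ A + fs K, ∀ b ∈ A + fs K, ∀ c ∈ A + fs K, x - (a + b + c) ∉ K) : False := by
  have : Fact p.Prime := ⟨hp⟩
  have hpodd : p % 2 = 1 := by
    rcases hp.eq_two_or_odd with h | h
    · omega
    · exact h
  have hKψ : ∀ g ∈ K, ψ g = 0 := by
    intro g hg
    have h1 := card_nsmul_mem hg
    rw [hK] at h1
    have h2 : (18 : ℕ) • ψ g = 0 := by rw [← map_nsmul, h1, map_zero]
    rw [nsmul_eq_mul, mul_eq_zero] at h2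
    rcases h2 with h2 | h2
    · exfalso
      have h3 := (ZMod.natCast_eq_zero_iff 18 p).mp h2
      have h4 : p ∣ 2 * 3 ^ 2 := by norm_num; exact h3
      rcases (Nat.Prime.dvd_mul hp).mp h4 with h5 | h5
      · have := Nat.le_of_dvd (by norm_num) h5; omega
      · have := Nat.le_of_dvd (by norm_num) (hp.dvd_of_dvd_pow h5); omega
    · exact h2
  have hfib : ∀ m, (univ.filter fun g => ψ g = m).card = 18 := by
    intro m
    have h1 := card_fiber ψ hψ m
    rw [hG, ZMod.card] at h1
    have h2 : (univ.filter fun g => ψ g = m).card * p = 18 * p := by rw [h1]; ring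
    exact Nat.eq_of_mul_eq_mul_right hp.pos h2
  have hker : K = ψ.ker := by
    apply fs_eq_of_le_of_card
    · intro g hg; exact AddMonoidHom.mem_ker.mpr (hKψ g hg)
    · rw [hK]
      have h1 := card_fs_ker ψ hψ
      rw [hG, ZMod.card] at h1
      have h2 : (fs ψ.ker).card * p = 18 * p := by rw [h1]; ring
      exact (Nat.eq_of_mul_eq_mul_right hp.pos h2).le
  set W := A + fs K with hW
  have hWper : Per K W := per_add_fs K A
  set S := W.image ψ with hS
  have hfibW : ∀ s ∈ S, (W.filter fun w => ψ w = s) = univ.filter fun g => ψ g = s := by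
    intro s hs
    obtain ⟨w, hw, rfl⟩ := Finset.mem_image.mp hs
    ext g
    rw [Finset.mem_filter, Finset.mem_filter]
    refine ⟨fun h => ⟨Finset.mem_univ _, h.2⟩, fun h => ⟨?_, h.2⟩⟩
    apply hWper.mem_of_sub_mem _ hw
    rw [hker, AddMonoidHom.mem_ker, map_sub, h.2, sub_self]
  have hmaps : ∀ w ∈ W, ψ w ∈ S := fun w hw => Finset.mem_image_of_mem _ hw
  have hWcard : W.card = 18 * S.card := by
    rw [Finset.card_eq_sum_card_fiberwise hmaps, Finset.sum_congr rfl (fun s hs => by
      rw [hfibW s hs, hfib]), Finset.sum_const, smul_eq_mul, mul_comm]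
  have hScard : S.card = m := by
    rw [hc, hK] at hWcard
    omega
  have hWsum : ∑ w ∈ W, ψ w = 18 * ∑ s ∈ S, s := by
    rw [← Finset.sum_fiberwise_of_maps_to hmaps, Finset.mul_sum]
    apply Finset.sum_congr rfl
    intro s hs
    rw [Finset.sum_congr rfl (fun w hw => (Finset.mem_filter.mp hw).2), Finset.sum_const,
      hfibW s hs, hfib, nsmul_eq_mul]
    norm_num
  have hkey := WZJ1.zp_sum p m hp5 hm S hScard (ψ x) (by
    intro a ha b hb c hc' e
    obtain ⟨a', ha', rfl⟩ := Finset.mem_image.mp ha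
    obtain ⟨b', hb', rfl⟩ := Finset.mem_image.mp hb
    obtain ⟨c', hc'', rfl⟩ := Finset.mem_image.mp hc'
    apply hx a' ha' b' hb' c' hc''
    rw [hker, AddMonoidHom.mem_ker, map_sub, map_add, map_add, e, sub_self])
  -- three holes
  have hholes : (W \ A).card = 3 := by
    have h1 := Finset.card_sdiff_add_card_eq_card (subset_add_fs K A)
    rw [← hW, hc, hK, hA] at h1
    omega
  obtain ⟨t1, t2, t3, -, -, -, ht⟩ := Finset.card_eq_three.mp hholes
  have hsum : ∑ w ∈ W, ψ w = ψ x + (ψ t1 + ψ t2 + ψ t3) := by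
    rw [← Finset.sum_sdiff (subset_add_fs K A), ← hW, ht, ← map_sum ψ _ A, hσ]
    have hcard3 : ({t1, t2, t3} : Finset G).card = 3 := by rw [← ht, hholes]
    have n12 : t1 ∉ ({t2, t3} : Finset G) := by
      intro hmem
      rw [Finset.insert_eq_of_mem hmem] at hcard3
      have : ({t2, t3} : Finset G).card ≤ 2 := Finset.card_le_two
      omega
    have n23 : t2 ∉ ({t3} : Finset G) := by
      intro hmem
      rw [Finset.insert_eq_of_mem hmem] at hcard3
      have : ({t1, t3} : Finset G).card ≤ 2 := Finset.card_le_two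
      omega
    rw [Finset.sum_insert n12, Finset.sum_insert n23, Finset.sum_singleton]
    ring
  rw [hWsum] at hsum
  have h18 : (18 : ZMod p) * ∑ s ∈ S, s = ψ x + ψ x := by
    have e : (18 : ZMod p) * ∑ s ∈ S, s = 2 * (9 * ∑ s ∈ S, s) := by ring
    rw [e, hkey]; ring
  rw [h18] at hsum
  have hfin : ψ x = ψ t1 + ψ t2 + ψ t3 := add_left_cancel hsum
  have hmem : ∀ t ∈ ({t1, t2, t3} : Finset G), t ∈ W := by
    intro t ht'
    rw [← ht, Finset.mem_sdiff] at ht'
    exact ht'.1
  apply hx t1 (hmem t1 (by simp)) t2 (hmem t2 (by simp)) t3 (hmem t3 (by simp))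
  rw [hker, AddMonoidHom.mem_ker, map_sub, map_add, map_add, hfin, sub_self]

/-- `k = 8`, quotient of order `8` -/
theorem caseI_8 (hG : Fintype.card G = 72) {A : Finset G}
    (hA : A.card = 27) {x : G} (hσ : ∑ a ∈ A, a = x) {K : AddSubgroup G}
    (hK : (fs K).card = 9) (hc : (A + fs K).card = 27)
    (hx : ∀ a ∈ A + fs K, ∀ b ∈ A + fs K, ∀ c ∈ A + fs K, x - (a + b + c) ∉ K) : False := by
  have hAA : A + fs K = A := by
    symm
    apply Finset.eq_of_subset_of_card_le (subset_add_fs K A)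
    rw [hc, hA]
  have hAper : Per K A := by rw [← hAA]; exact per_add_fs K A
  have hodd : (fs K).card % 2 = 1 := by rw [hK]
  have hidx : K.index = 8 := by
    have h1 := K.card_mul_index
    rw [← fs_card_eq, hK, Nat.card_eq_fintype_card, hG] at h1
    omega
  have h8 : ∀ g : G, (8 : ℕ) • g ∈ K := by
    intro g
    have := AddSubgroup.nsmul_index_mem K g
    rwa [hidx] at this
  obtain ⟨a, ha⟩ : A.Nonempty := Finset.card_pos.mp (by omega)
  have sa := hAper.cs_subset ha
  have ca := Finset.card_sdiff_add_card_eq_card sa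
  rw [card_cs, hK, hA] at ca
  obtain ⟨b, hb⟩ : (A \ cs K a).Nonempty := Finset.card_pos.mp (by omega)
  have sb := (hAper.sdiff_cs a).cs_subset hb
  have cb := Finset.card_sdiff_add_card_eq_card sb
  rw [card_cs, hK] at cb
  obtain ⟨c, hc'⟩ : ((A \ cs K a) \ cs K b).Nonempty := Finset.card_pos.mp (by omega)
  have sc := ((hAper.sdiff_cs a).sdiff_cs b).cs_subset hc'
  have cc : (A \ cs K a) \ cs K b = cs K c := by
    symm
    apply Finset.eq_of_subset_of_card_le sc
    rw [card_cs, hK]; omega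
  have hsum : x = (9 : ℕ) • (a + b + c) := by
    rw [← hσ, ← Finset.sum_sdiff sa, ← Finset.sum_sdiff sb, cc, sum_cs hodd, sum_cs hodd,
      sum_cs hodd, hK, ← nsmul_add, ← nsmul_add]
    congr 1; abel
  have hb' : b ∈ A := (Finset.mem_sdiff.mp hb).1
  have hc'' : c ∈ A := (Finset.mem_sdiff.mp (Finset.mem_sdiff.mp hc').1).1
  rw [hAA] at hx
  apply hx a ha b hb' c hc''
  rw [hsum]
  have e : (9 : ℕ) • (a + b + c) - (a + b + c) = (8 : ℕ) • (a + b + c) := by
    rw [succ_nsmul, add_sub_cancel_right]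
  rw [e]
  exact h8 _

end Pool.Agent.Helper450.WZ
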