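import Mathlib
import Pool.Agent.Helper450.WZCaseI

set_option autoImplicit false
set_option linter.unusedSectionVars false

open Finset
open scoped Pointwise
open Pool.Agent.Helper450.Kneser

namespace Pool.Agent.Helper450.WZ

variable {G : Type*} [AddCommGroup G] [Fintype G] [DecidableEq G]

theorem card_double_le (h2 : (univ.filter fun u : G => u + u = 0).card ≤ 2) (z : G) :
    (univ.filter fun u : G => u + u = z).card ≤ 2 := by
  rcases (univ.filter fun u : G => u + u = z).eq_empty_or_nonempty with h0 | ⟨y, hy⟩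
  · rw [h0]; simp
  · rw [Finset.mem_filter] at hy
    refine le_trans ?_ h2
    rw [← Finset.card_image_of_injective _ (sub_left_injective (b := y))]
    apply Finset.card_le_card
    intro u hu
    obtain ⟨v, hv, rfl⟩ := Finset.mem_image.mp hu
    rw [Finset.mem_filter] at hv ⊢
    refine ⟨Finset.mem_univ _, ?_⟩
    have e : v - y + (v - y) = (v + v) - (y + y) := by abel
    rw [e, hv.2, hy.2, sub_self]

/-- A bad set is not inside a coset of a subgroup of index 2. -/
theorem not_in_half {k : ℕ} (h2 : (univ.filter fun u : G => u + u = 0).card ≤ 2)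
    {A : Finset G} (hA : A.card = 3 * k + 3) {x : G} (hbad : Bad3 A x) {L : AddSubgroup G}
    (hL : 2 * (fs L).card = 9 * k) {g : G} (hAL : A ⊆ cs L g) (hx : x - (g + g + g) ∈ L) :
    False := by
  obtain ⟨c, hc⟩ : A.Nonempty := Finset.card_pos.mp (by omega)
  obtain ⟨h1, h3⟩ := refl_card hAL hx hc
  have h4 := Finset.card_le_card h1
  rw [card_cs] at h4
  have h5 : A ∩ (A.image fun y => x - c - y) ⊆
      {c, x - c - c} ∪ (univ.filter fun y : G => y + y = x - c) := by
    intro y hy
    rw [Finset.mem_union, Finset.mem_insert, Finset.mem_singleton]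
    by_cases e1 : y = c
    · exact Or.inl (Or.inl e1)
    by_cases e2 : y = x - c - c
    · exact Or.inl (Or.inr e2)
    right
    rw [Finset.mem_filter]
    exact ⟨Finset.mem_univ _, refl_mem hbad hc hy e1 e2⟩
  have h6 := Finset.card_le_card h5
  have h7 := Finset.card_union_le ({c, x - c - c} : Finset G)
    (univ.filter fun y : G => y + y = x - c)
  have h8 : ({c, x - c - c} : Finset G).card ≤ 2 := Finset.card_le_two
  have h9 := card_double_le h2 (x - c)
  omega

theorem four_sum {k : ℕ} (hk : 0 < k) (hG : Fintype.card G = 9 * k)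
    (hexp : ∀ g : G, (3 * k) • g = 0)
    (hπ : ∀ x : G, ∃ π : G →+ ZMod 3, Function.Surjective π ∧ π x = 0)
    (h2 : (univ.filter fun u : G => u + u = 0).card ≤ 2)
    {A : Finset G} (hA : A.card = 3 * k + 4) : ¬ Bad4 A (∑ a ∈ A, a) := by
  intro hbad
  set x := ∑ a ∈ A, a with hx
  obtain ⟨c0, hc0⟩ : A.Nonempty := Finset.card_pos.mp (by omega)
  set A' := A.erase c0 with hA'
  have hA'card : A'.card = 3 * k + 3 := by
    rw [hA', Finset.card_erase_of_mem hc0, hA]; omega
  have hsum' : ∑ a ∈ A', a = x - c0 := by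
    rw [hx, ← Finset.add_sum_erase A (fun a => a) hc0]; abel
  have hsub : A' ⊆ A := Finset.erase_subset _ _
  have hbad3 : Bad3 A' (x - c0) := by
    intro a ha b hb c hc hab hbc hac e
    have ha' := Finset.mem_erase.mp ha
    have hb' := Finset.mem_erase.mp hb
    have hc' := Finset.mem_erase.mp hc
    apply hbad a ha'.2 b hb'.2 c hc'.2 c0 hc0 hab hac ha'.1 hbc hb'.1 hc'.1
    rw [e]; abel
  have hbad4 : Bad4 A' x := fun a ha b hb c hc d hd =>
    hbad a (hsub ha) b (hsub hb) c (hsub hc) d (hsub hd)
  obtain ⟨π, hπs, hπx⟩ := hπ (x - c0)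
  obtain ⟨H, hHπ, hHd, hH3, hHc⟩ := exists_star hG hk π hπs hπx hA'card hbad3
  have hstar := star_of_card hH3 hA'card hHc
  set B := A' + fs H with hB
  have hBper : Per H B := per_add_fs H A'
  have hBne : B.Nonempty := Finset.card_pos.mp (by omega)
  -- the set of `y` with `2y ≡ x`
  classical
  set Y := univ.filter fun y : G => x - (y + y) ∈ H with hY
  have hYcard : Y.card ≤ 2 * (fs H).card := by
    rw [← card_cs H x]
    apply Finset.card_le_mul_card_image_of_maps_to (f := fun y => y + y)
    · intro y hy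
      rw [mem_cs, ← neg_sub]
      exact H.neg_mem (Finset.mem_filter.mp hy).2
    · intro z _
      refine le_trans (Finset.card_le_card ?_) (card_double_le h2 z)
      intro y hy
      rw [Finset.mem_filter] at hy ⊢
      exact ⟨Finset.mem_univ _, hy.2⟩
  have h1 : (B + B) ∩ ((B + B).image fun y => x - y) ⊆ Y := by
    intro y hy
    rw [Finset.mem_inter, Finset.mem_image] at hy
    obtain ⟨hy, z, hz, e⟩ := hy
    obtain ⟨a, ha, b, hb, rfl⟩ := Finset.mem_add.mp hy
    obtain ⟨c, hc, d, hd, rfl⟩ := Finset.mem_add.mp hz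
    have hs : x - (a + b + c + d) = 0 := by
      have e2 : x - (a + b + c + d) = (x - (c + d)) - (a + b) := by abel
      rw [e2, e, sub_self]
    obtain ⟨h3, h4, h5⟩ := triv4 hstar hbad4 ha hb hc hd (by rw [hs]; exact H.zero_mem)
    rw [hY, Finset.mem_filter]
    refine ⟨Finset.mem_univ _, ?_⟩
    have e3 : x - (a + b + (a + b)) = (x - (a + b + c + d)) - (a - c) - (a - d) + (a - b) := by
      abel
    rw [e3, hs]
    exact H.add_mem (H.sub_mem (H.sub_mem H.zero_mem h4) h5) h3
  have h3 := Finset.card_le_card h1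
  have h4 := Finset.card_union_add_card_inter (B + B) ((B + B).image fun y => x - y)
  rw [Finset.card_image_of_injective _ (sub_right_injective)] at h4
  have h5 := Finset.card_le_univ ((B + B) ∪ ((B + B).image fun y => x - y))
  rw [hG] at h5
  have hk2 := kneser' B B hBne hBne
  set L := stab (B + B) with hL
  have hHL : H ≤ L := (hBper.add B).le_stab
  have hHLd := Finset.card_le_card (fs_mono hHL)
  have hlpos := fs_card_pos L
  obtain ⟨N, hN⟩ := fs_card_dvd_card L
  rw [hG] at hN
  obtain ⟨c, hc⟩ := (per_add_fs L B).card_dvd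
  have hge := Finset.card_le_card (subset_add_fs L B)
  rw [hc] at hk2 hge
  rw [hHc] at hge
  -- inequalities
  have i1 : (fs L).card * (6 * c) ≤ (fs L).card * (N + 6) := by
    nlinarith
  have i2 : (fs L).card * N < (fs L).card * (3 * c) := by nlinarith
  have i3 := Nat.le_of_mul_le_mul_left i1 hlpos
  have i4 := Nat.lt_of_mul_lt_mul_left i2
  have hNpos : 0 < N := Nat.pos_of_ne_zero (by rintro rfl; omega)
  have hHle : (fs H).card ≤ 3 * k := Nat.le_of_dvd (by omega) hHd
  have hcN : c = 1 ∧ (N = 1 ∨ N = 2) := by omega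
  obtain ⟨rfl, rfl | rfl⟩ := hcN
  · omega
  · -- index 2
    obtain ⟨b0, hb0⟩ := hBne
    have hb0' := subset_add_fs L B hb0
    have h6 : cs L b0 = B + fs L := by
      apply Finset.eq_of_subset_of_card_le ((per_add_fs L B).cs_subset hb0')
      rw [card_cs, hc, mul_one]
    have h7 : A' ⊆ cs L b0 := by
      rw [h6]
      exact (subset_add_fs H A').trans (subset_add_fs L B)
    apply not_in_half h2 hA'card hbad3 (L := L) (by omega) h7
    have h8 := sum_sub_mem h7
    rw [hsum', hA'card, add_nsmul, hexp, zero_add] at h8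
    have e : (3 : ℕ) • b0 = b0 + b0 + b0 := by rw [succ_nsmul, two_nsmul]
    rwa [e] at h8

end Pool.Agent.Helper450.WZ
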