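import Mathlib
open Finset
namespace Pool.Agent.Helper450.WZJ2

lemma exists_b (m : ℕ) (hm : 2 ≤ m) : ∀ (T t : ℕ), t ≤ T * (m - 1) →
    ∃ b : ℕ → ℕ, (∑ i ∈ range m, b i = T) ∧ (∑ i ∈ range m, i * b i = t) := by
  intro T
  induction T with
  | zero =>
    intro t ht
    refine ⟨fun _ => 0, by simp, by simp; omega⟩
  | succ T ih =>
    intro t ht
    have hj : min t (m - 1) ≤ t := min_le_left _ _
    have hj2 : min t (m - 1) < m := by
      have := min_le_right t (m - 1)
      omega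
    obtain ⟨b, hb1, hb2⟩ := ih (t - min t (m - 1)) (by
      rw [add_mul, one_mul] at ht
      rcases le_total t (m - 1) with h | h
      · rw [min_eq_left h]; simp
      · rw [min_eq_right h]; omega)
    refine ⟨fun i => b i + if i = min t (m - 1) then 1 else 0, ?_, ?_⟩
    · rw [sum_add_distrib, hb1, sum_ite_eq' (range m), if_pos (mem_range.2 hj2)]
    · simp only [mul_add, sum_add_distrib, hb2, mul_ite, mul_one, mul_zero]
      rw [sum_ite_eq' (range m), if_pos (mem_range.2 hj2)]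
      omega

lemma exists_t (N k' m : ℕ) (hN5 : 5 ≤ N) (hm : 3 * m = N + 1)
    (h : 3 ≤ k' ∨ (k' = 1 ∧ N % 2 = 1)) :
    ∃ t, t ≤ (3 * k' - 3) * (m - 1) ∧ t ≡ (∑ i ∈ range m, 9 * k' * i) + 1 [MOD N] := by
  rcases h with h | ⟨h1, h2⟩
  · refine ⟨((∑ i ∈ range m, 9 * k' * i) + 1) % N, ?_, Nat.mod_modEq _ _⟩
    have h3 : ((∑ i ∈ range m, 9 * k' * i) + 1) % N < N := Nat.mod_lt _ (by omega)
    have h4 : N - 1 ≤ (3 * k' - 3) * (m - 1) := by
      obtain ⟨c, hc⟩ : ∃ c, m = c + 1 := ⟨m - 1, by omega⟩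
      obtain ⟨d, hd⟩ : ∃ d, k' = d + 3 := ⟨k' - 3, by omega⟩
      subst hc hd
      have : (3 * (d + 3) - 3) * (c + 1 - 1) = (3 * d + 6) * c := by
        congr 1
      rw [this]
      have hN' : N = 3 * c + 2 := by omega
      have hc : 1 ≤ c := by omega
      subst hN'
      have : 3 * c + 2 - 1 = 3 * c + 1 := rfl
      rw [this]
      nlinarith [Nat.zero_le (d * c)]
    omega
  · subst h1
    refine ⟨0, Nat.zero_le _, ?_⟩
    have h3 : (∑ i ∈ range m, 9 * 1 * i) * 2 = 9 * (m * (m - 1)) := by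
      rw [← mul_sum, mul_assoc, Finset.sum_range_id_mul_two]
    rw [Nat.ModEq.comm, Nat.modEq_zero_iff_dvd]
    have hcop : Nat.Coprime N 2 := by
      rw [Nat.coprime_two_right]
      exact Nat.odd_iff.2 h2
    refine hcop.dvd_of_dvd_mul_right ?_
    rw [add_mul, h3]
    obtain ⟨c, hc⟩ : ∃ c, m = c + 1 := ⟨m - 1, by omega⟩
    subst hc
    have h5 : N = 3 * c + 2 := by omega
    subst h5
    refine ⟨3 * c + 1, ?_⟩
    simp only [Nat.add_sub_cancel]
    ring

theorem constr1 (k N k' : ℕ) (hk : k = N * k') (hN : N % 3 = 2) (hN5 : 5 ≤ N)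
    (h : 3 ≤ k' ∨ (k' = 1 ∧ N % 2 = 1)) :
    ∃ A : Finset (ZMod 3 × ZMod (3 * k)), A.card = 3 * k + 3 ∧
      ∀ a ∈ A, ∀ b ∈ A, ∀ c ∈ A, a ≠ b → b ≠ c → a ≠ c → a + b + c ≠ ∑ x ∈ A, x := by
  classical
  have hk'1 : 1 ≤ k' := by omega
  have hkpos : 0 < 3 * k := by
    rw [hk]; positivity
  have : NeZero (3 * k) := ⟨by omega⟩
  have : NeZero N := ⟨by omega⟩
  obtain ⟨m, hm⟩ : ∃ m, 3 * m = N + 1 := ⟨(N + 1) / 3, by omega⟩
  have hm2 : 2 ≤ m := by omega
  have hdvd : N ∣ 3 * k := ⟨3 * k', by rw [hk]; ring⟩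
  let ψ : ZMod 3 × ZMod (3 * k) →+ ZMod N :=
    ((ZMod.castHom hdvd (ZMod N)).toAddMonoidHom).comp (AddMonoidHom.snd (ZMod 3) (ZMod (3 * k)))
  have hψ : Function.Surjective ψ := by
    intro y
    obtain ⟨x, hx⟩ := ZMod.castHom_surjective hdvd y
    exact ⟨(0, x), hx⟩
  obtain ⟨t, ht1, ht2⟩ := exists_t N k' m hN5 hm h
  obtain ⟨b, hb1, hb2⟩ := exists_b m hm2 (3 * k' - 3) t ht1
  have hble : ∀ i ∈ range m, b i ≤ 9 * k' := by
    intro i hi
    have : b i ≤ ∑ i ∈ range m, b i := single_le_sum (fun _ _ => Nat.zero_le _) hi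
    omega
  -- fibres
  have hfib : ∀ y : ZMod N, (univ.filter (fun x => ψ x = y)).card = 9 * k' := by
    have heq : ∀ y : ZMod N, (univ.filter (fun x => ψ x = y)).card =
        (univ.filter (fun x => ψ x = 0)).card := by
      intro y
      obtain ⟨x0, hx0⟩ := hψ y
      refine Finset.card_bij' (fun x _ => x - x0) (fun x _ => x + x0) ?_ ?_ ?_ ?_
      · intro x hx
        simp only [mem_filter, mem_univ, true_and] at hx ⊢
        rw [map_sub, hx, hx0, sub_self]
      · intro x hx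
        simp only [mem_filter, mem_univ, true_and] at hx ⊢
        rw [map_add, hx, hx0, zero_add]
      · intro x _; simp
      · intro x _; simp
    have htot : (univ : Finset (ZMod 3 × ZMod (3 * k))).card =
        ∑ y : ZMod N, (univ.filter (fun x => ψ x = y)).card :=
      Finset.card_eq_sum_card_fiberwise (fun x _ => mem_univ _)
    rw [sum_congr rfl (fun y _ => heq y), sum_const, card_univ, card_univ, Fintype.card_prod,
      ZMod.card, ZMod.card, ZMod.card, smul_eq_mul] at htot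
    have htot2 : 3 * (3 * k) = N * (9 * k') := by rw [hk]; ring
    intro y
    rw [heq y]
    have : N * (univ.filter (fun x => ψ x = 0)).card = N * (9 * k') := by
      rw [← htot]; exact htot2
    exact Nat.eq_of_mul_eq_mul_left (by omega) this
  have hex : ∀ i : ℕ, ∃ s : Finset (ZMod 3 × ZMod (3 * k)),
      s ⊆ univ.filter (fun x => ψ x = (i : ZMod N)) ∧ s.card = 9 * k' - b i := by
    intro i
    exact Finset.exists_subset_card_eq (by rw [hfib]; omega)
  choose s hs1 hs2 using hex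
  have hs1' : ∀ i, ∀ x ∈ s i, ψ x = (i : ZMod N) := by
    intro i x hx
    have := hs1 i hx
    simpa using this
  have hdisj : (↑(range m) : Set ℕ).PairwiseDisjoint s := by
    intro i hi j hj hij
    rw [Function.onFun, Finset.disjoint_left]
    intro x hx hx'
    have h1 := hs1' i x hx
    have h2 := hs1' j x hx'
    rw [h1] at h2
    rw [ZMod.natCast_eq_natCast_iff] at h2
    simp only [coe_range, Set.mem_Iio] at hi hj
    exact hij (Nat.ModEq.eq_of_lt_of_lt h2 (by omega) (by omega))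
  refine ⟨(range m).biUnion s, ?_, ?_⟩
  · rw [card_biUnion (fun i hi j hj hij => hdisj hi hj hij)]
    rw [sum_congr rfl (fun i _ => hs2 i)]
    have h1 : ∑ i ∈ range m, (9 * k' - b i) + ∑ i ∈ range m, b i = ∑ i ∈ range m, 9 * k' := by
      rw [← sum_add_distrib]
      refine sum_congr rfl fun i hi => ?_
      have := hble i hi
      omega
    rw [hb1, sum_const, card_range, smul_eq_mul] at h1
    have h2 : m * (9 * k') = 3 * k' * (N + 1) := by rw [← hm]; ring
    rw [h2] at h1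
    have h3 : 3 * k = 3 * k' * N := by rw [hk]; ring
    rw [mul_add, mul_one, ← h3] at h1
    omega
  · have hsum : ψ (∑ x ∈ (range m).biUnion s, x) = -1 := by
      rw [map_sum, sum_biUnion hdisj]
      have h1 : ∀ i ∈ range m, ∑ x ∈ s i, ψ x = ((9 * k' * i : ℕ) : ZMod N) - ((i * b i : ℕ) : ZMod N) := by
        intro i hi
        rw [sum_congr rfl (fun x hx => hs1' i x hx), sum_const, hs2, nsmul_eq_mul,
          Nat.cast_sub (hble i hi)]
        push_cast
        ring
      rw [sum_congr rfl h1, sum_sub_distrib, ← Nat.cast_sum, ← Nat.cast_sum, hb2]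
      have h2 : ((t : ℕ) : ZMod N) = (((∑ i ∈ range m, 9 * k' * i) + 1 : ℕ) : ZMod N) :=
        (ZMod.natCast_eq_natCast_iff _ _ _).2 ht2
      rw [h2]
      push_cast
      ring
    intro a ha b' hb' c hc _ _ _ heq
    simp only [mem_biUnion] at ha hb' hc
    obtain ⟨i, hi, ha⟩ := ha
    obtain ⟨j, hj, hb'⟩ := hb'
    obtain ⟨l, hl, hc⟩ := hc
    have h1 : ψ (a + b' + c) = ((i + j + l : ℕ) : ZMod N) := by
      rw [map_add, map_add, hs1' i a ha, hs1' j b' hb', hs1' l c hc]
      push_cast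
      ring
    rw [heq, hsum] at h1
    have h2 : ((i + j + l + 1 : ℕ) : ZMod N) = 0 := by
      rw [Nat.cast_add, ← h1]; simp
    rw [ZMod.natCast_eq_zero_iff] at h2
    have h3 := Nat.le_of_dvd (by omega) h2
    simp only [mem_range] at hi hj hl
    omega

end Pool.Agent.Helper450.WZJ2
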