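import Mathlib
open Finset
namespace Pool.Agent.Helper450.WZJ3

theorem constr2 (k M : ℕ) (hk : k = 4 * M) (hM : M % 3 = 1) (hM4 : 4 ≤ M) :
    ∃ A : Finset (ZMod 3 × ZMod (3 * k)), A.card = 3 * k + 3 ∧
      ∀ a ∈ A, ∀ b ∈ A, ∀ c ∈ A, a ≠ b → b ≠ c → a ≠ c → a + b + c ≠ ∑ x ∈ A, x := by
  obtain ⟨m, rfl⟩ : ∃ m, M = 3 * m + 1 := ⟨M / 3, by omega⟩
  subst hk
  have hm1 : 1 ≤ m := by omega
  set M := 3 * m + 1 with hMdef
  haveI : NeZero (3 * (4 * M)) := ⟨by omega⟩
  haveI : NeZero (2 * M) := ⟨by omega⟩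
  have hdvd : 2 * M ∣ 3 * (4 * M) := ⟨6, by ring⟩
  let f : ZMod (3 * (4 * M)) →+* ZMod (2 * M) := ZMod.castHom hdvd (ZMod (2 * M))
  let psi : (ZMod 3 × ZMod (3 * (4 * M))) →+ ZMod (2 * M) :=
    f.toAddMonoidHom.comp (AddMonoidHom.snd _ _)
  have hsurj : Function.Surjective psi := by
    intro y
    obtain ⟨x, hx⟩ := ZMod.castHom_surjective hdvd y
    exact ⟨(0, x), hx⟩
  -- fibre sizes
  have hfib : ∀ y : ZMod (2 * M), (Finset.univ.filter fun g => psi g = y).card = 18 := by
    have hconst : ∀ y z : ZMod (2 * M), (Finset.univ.filter fun g => psi g = y).card =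
        (Finset.univ.filter fun g => psi g = z).card := by
      intro y z
      obtain ⟨a, ha⟩ := hsurj (z - y)
      apply Finset.card_bij (fun g _ => g + a)
      · intro g hg
        rw [Finset.mem_filter] at hg ⊢
        refine ⟨Finset.mem_univ _, ?_⟩
        rw [map_add, hg.2, ha]; ring
      · intro g _ h _ hgh
        exact add_right_cancel hgh
      · intro g hg
        rw [Finset.mem_filter] at hg
        refine ⟨g - a, ?_, by simp⟩
        rw [Finset.mem_filter]
        refine ⟨Finset.mem_univ _, ?_⟩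
        rw [map_sub, hg.2, ha]; ring
    intro y
    have htot : Fintype.card (ZMod 3 × ZMod (3 * (4 * M))) =
        ∑ z : ZMod (2 * M), (Finset.univ.filter fun g => psi g = z).card := by
      rw [← Finset.card_univ]
      exact Finset.card_eq_sum_card_fiberwise (fun _ _ => Finset.mem_univ _)
    rw [Finset.sum_congr rfl (fun z _ => hconst z y), Finset.sum_const, Finset.card_univ,
      Fintype.card_prod, ZMod.card, ZMod.card, ZMod.card, smul_eq_mul] at htot
    have : (2 * M) * 18 = (2 * M) * (Finset.univ.filter fun g => psi g = y).card := by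
      rw [← htot]; ring
    exact (Nat.eq_of_mul_eq_mul_left (by omega) this).symm
  -- base set
  let B : Finset ℕ := insert 0 (Finset.Icc 1 m ∪ Finset.Icc (M + 1) (M + m))
  have hB : ∀ b ∈ B, b = 0 ∨ (1 ≤ b ∧ b ≤ m) ∨ (M + 1 ≤ b ∧ b ≤ M + m) := by
    intro b hb
    simpa [B] using hb
  have hdisj : Disjoint (Finset.Icc 1 m) (Finset.Icc (M + 1) (M + m)) := by
    rw [Finset.disjoint_left]
    intro a ha hb
    rw [Finset.mem_Icc] at ha hb
    omega
  have h0 : 0 ∉ (Finset.Icc 1 m ∪ Finset.Icc (M + 1) (M + m)) := by simp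
  have hBcard : B.card = 2 * m + 1 := by
    simp only [B]
    rw [Finset.card_insert_of_notMem h0, Finset.card_union_of_disjoint hdisj]
    simp; omega
  have hBsum : ∑ b ∈ B, b = m * (m + 1) + m * M := by
    simp only [B]
    rw [Finset.sum_insert h0, Finset.sum_union hdisj, zero_add]
    have e1 : ∑ x ∈ Finset.Icc 1 m, x = ∑ i ∈ Finset.range m, (i + 1) := by
      rw [Finset.range_eq_Ico, Finset.sum_Ico_add' (fun i => i) 0 m 1]
      rfl
    have e2 : ∑ x ∈ Finset.Icc (M + 1) (M + m), x = ∑ i ∈ Finset.range m, (i + 1 + M) := by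
      have : Finset.Icc (M + 1) (M + m) = (Finset.Ico (0 + (M + 1)) (m + (M + 1))) := by
        ext x; simp; omega
      rw [this, ← Finset.sum_Ico_add' (fun i => i) 0 m (M + 1), ← Finset.range_eq_Ico]
      exact Finset.sum_congr rfl fun i _ => by ring
    have e4 : ∑ i ∈ Finset.range m, (i + 1 + M) = ∑ i ∈ Finset.range m, (i + 1) + m * M := by
      rw [Finset.sum_add_distrib (f := fun i => i + 1) (g := fun _ => M), Finset.sum_const, Finset.card_range, smul_eq_mul]
    rw [e1, e2, e4]
    have e3 : (∑ i ∈ Finset.range m, (i + 1)) * 2 = m * (m + 1) := by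
      have := Finset.sum_range_id_mul_two (m + 1)
      rw [Finset.sum_range_succ'] at this
      simp at this
      linarith
    omega
  have hBinj : ∀ a ∈ B, ∀ b ∈ B, (a : ZMod (2 * M)) = b → a = b := by
    intro a ha b hb hab
    rw [ZMod.natCast_eq_natCast_iff] at hab
    have h1 := hB a ha
    have h2 := hB b hb
    have h3 : a < 2 * M := by omega
    have h4 : b < 2 * M := by omega
    exact Nat.ModEq.eq_of_lt_of_lt hab h3 h4
  -- the big set
  let W : Finset (ZMod 3 × ZMod (3 * (4 * M))) :=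
    B.biUnion fun b => Finset.univ.filter fun g => psi g = (b : ZMod (2 * M))
  have hWdisj : (B : Set ℕ).PairwiseDisjoint
      fun b => Finset.univ.filter fun g => psi g = (b : ZMod (2 * M)) := by
    intro a ha b hb hab
    rw [Function.onFun, Finset.disjoint_left]
    intro g hg hg'
    rw [Finset.mem_filter] at hg hg'
    exact hab (hBinj a ha b hb (hg.2.symm.trans hg'.2))
  have hWcard : W.card = 18 * (2 * m + 1) := by
    simp only [W]
    rw [Finset.card_biUnion hWdisj]
    have hs : ∑ u ∈ B, (Finset.univ.filter fun g => psi g = (u : ZMod (2 * M))).card = ∑ _u ∈ B, 18 :=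
      Finset.sum_congr rfl fun b _ => hfib _
    refine hs.trans ?_
    rw [Finset.sum_const, hBcard, smul_eq_mul]
    ring
  have hWsum : psi (∑ x ∈ W, x) = 18 * ((m * (m + 1) + m * M : ℕ) : ZMod (2 * M)) := by
    rw [map_sum, ← hBsum]
    simp only [W]
    rw [Finset.sum_biUnion hWdisj]
    have : ∀ b ∈ B, ∑ g ∈ (Finset.univ.filter fun g => psi g = (b : ZMod (2 * M))), psi g =
        18 * (b : ZMod (2 * M)) := by
      intro b _
      rw [Finset.sum_congr rfl (fun g hg => (Finset.mem_filter.1 hg).2), Finset.sum_const, hfib]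
      simp
    rw [Finset.sum_congr rfl this, ← Finset.mul_sum]
    push_cast; rfl
  -- remove three elements of one fibre
  obtain ⟨T, hTsub, hTcard⟩ := Finset.exists_subset_card_eq
    (s := Finset.univ.filter fun g => psi g = ((m - 1 : ℕ) : ZMod (2 * M))) (n := 3)
    (by rw [hfib]; norm_num)
  have hTW : T ⊆ W := by
    intro g hg
    have h1 := hTsub hg
    simp only [W]
    rw [Finset.mem_biUnion]
    refine ⟨m - 1, ?_, h1⟩
    simp only [B]
    rw [Finset.mem_insert, Finset.mem_union, Finset.mem_Icc]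
    omega
  have hTsum : psi (∑ x ∈ T, x) = 3 * ((m - 1 : ℕ) : ZMod (2 * M)) := by
    rw [map_sum, Finset.sum_congr rfl (fun g hg => (Finset.mem_filter.1 (hTsub hg)).2),
      Finset.sum_const, hTcard]
    simp
  refine ⟨W \ T, ?_, ?_⟩
  · rw [Finset.card_sdiff_of_subset hTW, hWcard, hTcard]; omega
  · intro a ha b hb c hc _ _ _ heq
    have hsum : psi (∑ x ∈ W \ T, x) = (M : ZMod (2 * M)) := by
      have h1 : ∑ x ∈ W \ T, x = ∑ x ∈ W, x - ∑ x ∈ T, x := by
        rw [eq_sub_iff_add_eq]; exact Finset.sum_sdiff hTW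
      rw [h1, map_sub, hWsum, hTsum, sub_eq_iff_eq_add]
      have h2 : (18 : ZMod (2 * M)) * ((m * (m + 1) + m * M : ℕ) : ZMod (2 * M)) =
          ((18 * (m * (m + 1) + m * M) : ℕ) : ZMod (2 * M)) := by push_cast; rfl
      have h3 : (M : ZMod (2 * M)) + 3 * ((m - 1 : ℕ) : ZMod (2 * M)) =
          ((M + 3 * (m - 1) : ℕ) : ZMod (2 * M)) := by push_cast; rfl
      rw [h2, h3, ZMod.natCast_eq_natCast_iff]
      have h4 : 18 * (m * (m + 1) + m * M) = (M + 3 * (m - 1)) + (2 * M) * (12 * m + 1) := by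
        obtain ⟨j, rfl⟩ : ∃ j, m = j + 1 := ⟨m - 1, by omega⟩
        simp only [Nat.add_sub_cancel]
        rw [hMdef]; ring
      rw [h4]
      exact Nat.ModEq.symm (by simp [Nat.ModEq])
    have hmem : ∀ g ∈ W \ T, ∃ i ∈ B, psi g = (i : ZMod (2 * M)) := by
      intro g hg
      have h1 := (Finset.mem_sdiff.1 hg).1
      simp only [W] at h1
      rw [Finset.mem_biUnion] at h1
      obtain ⟨i, hi, hgi⟩ := h1
      exact ⟨i, hi, (Finset.mem_filter.1 hgi).2⟩
    obtain ⟨i, hi, hai⟩ := hmem a ha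
    obtain ⟨j, hj, hbj⟩ := hmem b hb
    obtain ⟨l, hl, hcl⟩ := hmem c hc
    have h5 := congrArg psi heq
    rw [hsum, map_add, map_add, hai, hbj, hcl] at h5
    have h6 : ((i + j + l : ℕ) : ZMod (2 * M)) = ((M : ℕ) : ZMod (2 * M)) := by
      push_cast; exact h5
    rw [ZMod.natCast_eq_natCast_iff] at h6
    have hi' := hB i hi
    have hj' := hB j hj
    have hl' := hB l hl
    have h7 : (i + j + l) % (2 * M) = M % (2 * M) := h6
    rw [Nat.mod_eq_of_lt (by omega : M < 2 * M)] at h7
    have h8 := Nat.div_add_mod (i + j + l) (2 * M)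
    rw [h7] at h8
    have h9 : (i + j + l) / (2 * M) < 3 := by
      rw [Nat.div_lt_iff_lt_mul (by omega)]; omega
    interval_cases h10 : (i + j + l) / (2 * M) <;> omega

end Pool.Agent.Helper450.WZJ3
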