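import Mathlib
open Finset
namespace Pool.Agent.Helper450.WZJ4

theorem constr3 (k : ℕ) (hk : k % 2 = 1) (h3 : 3 ∣ k) :
    ∃ A : Finset (ZMod 3 × ZMod (3 * k)), A.card = 3 * k + 3 ∧
      ∀ a ∈ A, ∀ b ∈ A, ∀ c ∈ A, a ≠ b → b ≠ c → a ≠ c → a + b + c ≠ ∑ x ∈ A, x := by
  obtain ⟨m, rfl⟩ := h3
  have hm : m % 2 = 1 := by omega
  have hm1 : 1 ≤ m := by omega
  obtain ⟨h, hh⟩ : ∃ h, m = 2 * h + 1 := ⟨m / 2, by omega⟩
  set N := 3 * (3 * m) with hN
  haveI : NeZero N := ⟨by omega⟩
  let S : ℕ → Finset (ZMod 3) := fun i => if i = 0 ∨ i = m then {0, 1} else univ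
  let P : Finset (Σ _ : ℕ, ℕ × ZMod 3) := (range (m + 1)).sigma (fun i => range 3 ×ˢ S i)
  let f : (Σ _ : ℕ, ℕ × ZMod 3) → ZMod 3 × ZMod N :=
    fun p => (p.2.2, ((p.1 + 3 * m * p.2.1 : ℕ) : ZMod N))
  have hP : ∀ p ∈ P, p.1 ≤ m ∧ p.2.1 < 3 ∧ p.2.2 ∈ S p.1 := by
    intro p hp
    simp only [P, mem_sigma, mem_range, mem_product] at hp
    exact ⟨by omega, hp.2.1, hp.2.2⟩
  have hlt : ∀ i j : ℕ, i ≤ m → j < 3 → i + 3 * m * j < N := by
    intro i j hi hj
    interval_cases j <;> omega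
  have hinj : Set.InjOn f (P : Set (Σ _ : ℕ, ℕ × ZMod 3)) := by
    rintro ⟨i, j, a⟩ hp ⟨i', j', a'⟩ hp' he
    obtain ⟨h1, h2, -⟩ := hP _ (mem_coe.1 hp)
    obtain ⟨h1', h2', -⟩ := hP _ (mem_coe.1 hp')
    simp only at h1 h2 h1' h2'
    simp only [f, Prod.mk.injEq] at he
    obtain ⟨ha, hz⟩ := he
    have h5 := congrArg ZMod.val hz
    rw [ZMod.val_natCast, ZMod.val_natCast, Nat.mod_eq_of_lt (hlt i j h1 h2),
      Nat.mod_eq_of_lt (hlt i' j' h1' h2')] at h5
    subst ha
    have hjj : j = j' ∧ i = i' := by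
      interval_cases j <;> interval_cases j' <;> constructor <;> omega
    rw [hjj.1, hjj.2]
  have hcardS : ∀ i, (S i).card = if i = 0 ∨ i = m then 2 else 3 := by
    intro i
    simp only [S]
    split_ifs
    · decide
    · decide
  refine ⟨P.image f, ?_, ?_⟩
  · rw [card_image_of_injOn hinj, card_sigma]
    simp only [card_product, card_range, hcardS]
    rw [sum_range_succ]
    obtain ⟨n, rfl⟩ : ∃ n, m = n + 1 := ⟨m - 1, by omega⟩
    rw [sum_range_succ']
    have : ∀ i ∈ range n, 3 * (if i + 1 = 0 ∨ i + 1 = n + 1 then 2 else 3) = 9 := by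
      intro i hi
      rw [mem_range] at hi
      rw [if_neg (by omega)]
    rw [sum_congr rfl this]
    simp
    omega
  · have hsum : ∑ x ∈ P.image f, x = (0, ((6 * m : ℕ) : ZMod N)) := by
      rw [sum_image hinj, sum_sigma]
      have hg : ∀ i ∈ range (m + 1), ∑ s ∈ range 3 ×ˢ S i, f ⟨i, s⟩
          = if i = m then (0, ((6 * m : ℕ) : ZMod N)) else (0, ((9 * i : ℕ) : ZMod N)) := by
        intro i hi
        have hN0 : ((9 * m : ℕ) : ZMod N) = 0 := by
          have : 9 * m = N := by omega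
          rw [this]; exact ZMod.natCast_self N
        have key : ∀ T : Finset (ZMod 3), ∑ s ∈ range 3 ×ˢ T, f ⟨i, s⟩
            = (3 * ∑ a ∈ T, a, ((T.card * (3 * i + 9 * m) : ℕ) : ZMod N)) := by
          intro T
          rw [sum_product, sum_range_succ, sum_range_succ, sum_range_one]
          simp only [f]
          ext
          · simp only [Prod.fst_add, Prod.fst_sum]
            ring
          · simp only [Prod.snd_add, Prod.snd_sum, sum_const, nsmul_eq_mul]
            push_cast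
            ring
        rw [key]
        simp only [S]
        by_cases h0 : i = 0 ∨ i = m
        · rw [if_pos h0]
          have e1 : (3 : ZMod 3) * ∑ a ∈ ({0, 1} : Finset (ZMod 3)), a = 0 := by decide
          have e2 : ({0, 1} : Finset (ZMod 3)).card = 2 := by decide
          rw [e1, e2]
          rcases h0 with h0 | h0
          · subst h0
            rw [if_neg (by omega)]
            have : 2 * (3 * 0 + 9 * m) = 9 * m * 2 := by ring
            rw [this, Nat.cast_mul, hN0]
            simp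
          · subst h0
            rw [if_pos rfl]
            have : 2 * (3 * i + 9 * i) = 6 * i + 9 * i * 2 := by ring
            rw [this, Nat.cast_add, Nat.cast_mul (9 * i) 2, hN0]
            simp
        · rw [if_neg h0, if_neg (by tauto)]
          have e1 : (3 : ZMod 3) * ∑ a ∈ (univ : Finset (ZMod 3)), a = 0 := by decide
          have e2 : (univ : Finset (ZMod 3)).card = 3 := by decide
          rw [e1, e2]
          have : 3 * (3 * i + 9 * m) = 9 * i + 9 * m * 3 := by ring
          rw [this, Nat.cast_add, Nat.cast_mul (9 * m) 3, hN0]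
          simp
      rw [sum_congr rfl hg, sum_range_succ, if_pos rfl]
      have h2 : ∀ i ∈ range m, (if i = m then ((0 : ZMod 3), ((6 * m : ℕ) : ZMod N)) else (0, ((9 * i : ℕ) : ZMod N)))
          = (0, ((9 * i : ℕ) : ZMod N)) := by
        intro i hi
        rw [mem_range] at hi
        rw [if_neg (by omega)]
      rw [sum_congr rfl h2]
      have h3 : ∑ i ∈ range m, ((0 : ZMod 3), ((9 * i : ℕ) : ZMod N)) = (0, 0) := by
        ext
        · simp [Prod.fst_sum]
        · rw [Prod.snd_sum]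
          simp only
          rw [← Nat.cast_sum, ← mul_sum]
          have h4 : ∑ i ∈ range m, i = m * h := by
            rw [sum_range_id, hh]
            have : (2 * h + 1) * (2 * h + 1 - 1) = ((2 * h + 1) * h) * 2 := by
              simp only [Nat.add_sub_cancel]; ring
            rw [this, Nat.mul_div_cancel _ (by norm_num)]
          rw [h4]
          have : 9 * (m * h) = N * h := by rw [hN]; ring
          rw [this]
          simp
      rw [h3]
      simp
    rw [hsum]
    intro a ha b hb c hc hab hbc hac he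
    rw [mem_image] at ha hb hc
    obtain ⟨⟨i1, j1, a1⟩, hp1, rfl⟩ := ha
    obtain ⟨⟨i2, j2, a2⟩, hp2, rfl⟩ := hb
    obtain ⟨⟨i3, j3, a3⟩, hp3, rfl⟩ := hc
    obtain ⟨x1, y1, z1⟩ := hP _ hp1
    obtain ⟨x2, y2, z2⟩ := hP _ hp2
    obtain ⟨x3, y3, z3⟩ := hP _ hp3
    simp only at x1 y1 z1 x2 y2 z2 x3 y3 z3
    simp only [f, Prod.mk_add_mk, Prod.mk.injEq] at he
    obtain ⟨hs, ht⟩ := he
    rw [← Nat.cast_add, ← Nat.cast_add, ZMod.natCast_eq_natCast_iff] at ht
    -- the i's are all 0 or all m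
    have hmod : (i1 + 3 * m * j1 + (i2 + 3 * m * j2) + (i3 + 3 * m * j3)) ≡ 6 * m [MOD 3 * m] :=
      ht.of_mul_left 3
    have hmod2 : (i1 + i2 + i3) % (3 * m) = 0 := by
      have e1 : i1 + 3 * m * j1 + (i2 + 3 * m * j2) + (i3 + 3 * m * j3)
        = (i1 + i2 + i3) + 3 * m * (j1 + j2 + j3) := by ring
      have e2 : 6 * m = 0 + 3 * m * 2 := by ring
      rw [e1, e2] at hmod
      unfold Nat.ModEq at hmod
      rwa [Nat.add_mul_mod_self_left, Nat.add_mul_mod_self_left, Nat.zero_mod] at hmod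
    have hcase : (i1 = 0 ∧ i2 = 0 ∧ i3 = 0) ∨ (i1 = m ∧ i2 = m ∧ i3 = m) := by
      obtain ⟨q, hq⟩ := Nat.dvd_of_mod_eq_zero hmod2
      have : q = 0 ∨ q = 1 := by
        by_contra hcon
        have : 2 ≤ q := by omega
        have : 3 * m * 2 ≤ 3 * m * q := Nat.mul_le_mul_left _ this
        omega
      rcases this with h0 | h0
      · left; subst h0; omega
      · right; subst h0; omega
    have hS1 : ∀ i a, (i = 0 ∨ i = m) → a ∈ S i → a = 0 ∨ a = 1 := by
      intro i a hi ha
      simp only [S, if_pos hi] at ha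
      simpa using ha
    have hii : i1 = i2 ∧ i2 = i3 ∧ (i1 = 0 ∨ i1 = m) := by
      rcases hcase with h | h <;> simp [h.1, h.2.1, h.2.2]
    obtain ⟨e12, e23, h1e⟩ := hii
    subst e12 e23
    have q1 := hS1 _ _ h1e z1
    have q2 := hS1 _ _ h1e z2
    have q3 := hS1 _ _ h1e z3
    have haa : a1 = a2 ∧ a2 = a3 := by
      rcases q1 with rfl | rfl <;> rcases q2 with rfl | rfl <;> rcases q3 with rfl | rfl <;>
        first
        | exact ⟨rfl, rfl⟩
        | (exfalso; revert hs; decide)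
    obtain ⟨r1, r2⟩ := haa
    subst r1 r2
    have d12 : j1 ≠ j2 := fun h => hab (by rw [h])
    have d23 : j2 ≠ j3 := fun h => hbc (by rw [h])
    have d13 : j1 ≠ j3 := fun h => hac (by rw [h])
    have hj : j1 + j2 + j3 = 3 := by omega
    have e1 : i1 + 3 * m * j1 + (i1 + 3 * m * j2) + (i1 + 3 * m * j3) = 3 * i1 + 3 * m * (j1 + j2 + j3) := by ring
    rw [e1, hj] at ht
    have e2 : 3 * i1 + 3 * m * 3 = 3 * i1 + N * 1 := by rw [hN]; ring
    rw [e2] at ht
    unfold Nat.ModEq at ht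
    rw [Nat.add_mul_mod_self_left] at ht
    rw [Nat.mod_eq_of_lt (by omega), Nat.mod_eq_of_lt (by omega)] at ht
    omega

end Pool.Agent.Helper450.WZJ4
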