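import Mathlib
open Finset
namespace Pool.Agent.Helper450.WZJ5

lemma sumAll (n : ℕ) [NeZero n] : ∑ x : ZMod n, x = ((n*(n-1)/2 : ℕ) : ZMod n) := by
  rw [← Finset.sum_range_id, Nat.cast_sum]
  refine Finset.sum_nbij' (i := ZMod.val) (j := fun i => (i : ZMod n)) ?_ ?_ ?_ ?_ ?_
  · intro a _; simp [ZMod.val_lt]
  · intro a _; simp
  · intro a _; simp
  · intro a ha; rw [ZMod.val_natCast]; exact Nat.mod_eq_of_lt (by simpa using ha)
  · intro a _; simp

lemma mem_aux {n : ℕ} [NeZero n] (D : Finset (ZMod n)) (E : Finset (ZMod n)) (x : ZMod 3 × ZMod n) :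
    x ∈ (({0} : Finset (ZMod 3)) ×ˢ D ∪ ({1} : Finset (ZMod 3)) ×ˢ E) ↔ (x.1 = 0 ∧ x.2 ∈ D) ∨ (x.1 = 1 ∧ x.2 ∈ E) := by
  simp only [Finset.mem_union, Finset.mem_product, Finset.mem_singleton]

lemma card_aux {n : ℕ} [NeZero n] (D : Finset (ZMod n)) (E : Finset (ZMod n)) :
    (({0} : Finset (ZMod 3)) ×ˢ D ∪ ({1} : Finset (ZMod 3)) ×ˢ E).card = D.card + E.card := by
  rw [Finset.card_union_of_disjoint]
  · simp
  · rw [Finset.disjoint_left]
    intro a ha hb
    simp only [Finset.mem_product, Finset.mem_singleton] at ha hb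
    exact absurd (ha.1.symm.trans hb.1) (by decide)

lemma sum_aux {n : ℕ} [NeZero n] (D : Finset (ZMod n)) (E : Finset (ZMod n)) :
    ∑ x ∈ (({0} : Finset (ZMod 3)) ×ˢ D ∪ ({1} : Finset (ZMod 3)) ×ˢ E), x
      = (((E.card : ℕ) : ZMod 3), ∑ x ∈ D, x + ∑ x ∈ E, x) := by
  rw [Finset.sum_union]
  · rw [Finset.sum_product, Finset.sum_product]
    apply Prod.ext
    · simp [Prod.fst_sum]
    · simp [Prod.snd_sum]
  · rw [Finset.disjoint_left]
    intro a ha hb
    simp only [Finset.mem_product, Finset.mem_singleton] at ha hb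
    exact absurd (ha.1.symm.trans hb.1) (by decide)

lemma good_aux {n : ℕ} [NeZero n] (D : Finset (ZMod n)) (E : Finset (ZMod n))
    (hE : ((E.card : ℕ) : ZMod 3) = 2)
    (h : ∀ a ∈ E, ∀ b ∈ E, a ≠ b → a + b ≠ ∑ x ∈ D, x + ∑ x ∈ E, x) :
    ∀ a ∈ (({0} : Finset (ZMod 3)) ×ˢ D ∪ ({1} : Finset (ZMod 3)) ×ˢ E),
    ∀ b ∈ (({0} : Finset (ZMod 3)) ×ˢ D ∪ ({1} : Finset (ZMod 3)) ×ˢ E), a ≠ b →
      a + b ≠ ∑ x ∈ (({0} : Finset (ZMod 3)) ×ˢ D ∪ ({1} : Finset (ZMod 3)) ×ˢ E), x := by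
  rintro ⟨a1, a2⟩ ha ⟨b1, b2⟩ hb hab he
  rw [mem_aux] at ha hb
  rw [sum_aux, hE] at he
  simp only [Prod.mk_add_mk, Prod.mk.injEq] at he
  obtain ⟨h1, h2⟩ := he
  rcases ha with ⟨ha1, ha2⟩ | ⟨ha1, ha2⟩ <;> rcases hb with ⟨hb1, hb2⟩ | ⟨hb1, hb2⟩ <;>
    simp only at ha1 ha2 hb1 hb2 <;> subst ha1 <;> subst hb1
  · exact absurd h1 (by decide)
  · exact absurd h1 (by decide)
  · exact absurd h1 (by decide)
  · exact h a2 ha2 b2 hb2 (fun hh => hab (by rw [hh])) h2

lemma cast_ne {n : ℕ} (a b : ℕ) (ha : a < n) (hb : b < n) (hab : a ≠ b) :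
    (a : ZMod n) ≠ (b : ZMod n) := by
  intro h
  rw [ZMod.natCast_eq_natCast_iff] at h
  exact hab (Nat.ModEq.eq_of_lt_of_lt h ha hb)

theorem constr0 (k : ℕ) (hk : 2 ≤ k) :
    ∃ A : Finset (ZMod 3 × ZMod (3 * k)), A.card = 3 * k + 2 ∧
      ∀ a ∈ A, ∀ b ∈ A, a ≠ b → a + b ≠ ∑ x ∈ A, x := by
  have hne : NeZero (3 * k) := ⟨by omega⟩
  have hfact : Fact (1 < 3 * k) := ⟨by omega⟩
  rcases Nat.even_or_odd' k with ⟨m, hm | hm⟩
  · -- even
    have hc : ∀ a b : ℕ, a < 3 * k → b < 3 * k → a ≠ b → (a : ZMod (3*k)) ≠ (b : ZMod (3*k)) :=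
      fun a b ha hb hab => cast_ne a b ha hb hab
    have h01 : (0 : ZMod (3*k)) ≠ 1 := by
      have := hc 0 1 (by omega) (by omega) (by omega)
      simpa using this
    have hcard : ({0, 1} : Finset (ZMod (3 * k))).card = 2 := Finset.card_pair h01
    refine ⟨(({0} : Finset (ZMod 3)) ×ˢ univ ∪ ({1} : Finset (ZMod 3)) ×ˢ {0, 1}), ?_, ?_⟩
    · rw [card_aux, hcard, Finset.card_univ, ZMod.card]
    · apply good_aux
      · rw [hcard]; rfl
      · rw [Finset.sum_pair h01, sumAll]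
        have hS : ((3 * k * (3 * k - 1) / 2 : ℕ) : ZMod (3 * k)) ≠ 0 := by
          have h1 : 3 * k * (3 * k - 1) / 2 = 3 * m * (3 * k - 1) := by
            subst hm
            rw [show 3 * (2 * m) * (3 * (2 * m) - 1) = (3 * m * (3 * (2 * m) - 1)) * 2 by ring]
            exact Nat.mul_div_cancel _ (by norm_num)
          rw [h1]
          intro h
          rw [ZMod.natCast_eq_zero_iff] at h
          subst hm
          obtain ⟨c, hc'⟩ := h
          have hm0 : 0 < 3 * m := by omega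
          have h3 : 3 * m * (3 * (2 * m) - 1) = 3 * m * (2 * c) := by rw [hc']; ring
          have := Nat.eq_of_mul_eq_mul_left hm0 h3
          omega
        intro a ha b hb hab h
        simp only [Finset.mem_insert, Finset.mem_singleton] at ha hb
        rcases ha with rfl | rfl <;> rcases hb with rfl | rfl
        · exact hab rfl
        · exact hS (right_eq_add.mp h)
        · rw [add_comm] at h
          exact hS (right_eq_add.mp h)
        · exact hab rfl
  · -- odd
    have hk9 : 9 ≤ 3 * k := by omega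
    set n := 3 * k with hn
    have hc : ∀ a b : ℕ, a < n → b < n → a ≠ b → (a : ZMod n) ≠ (b : ZMod n) :=
      fun a b ha hb hab => cast_ne a b ha hb hab
    set E : Finset (ZMod n) := (Finset.range 5).image (fun i : ℕ => (i : ZMod n)) with hE
    set D' : Finset (ZMod n) := (({1, 2, 7} : Finset ℕ)).image (fun i : ℕ => (i : ZMod n)) with hD'
    have injE : Set.InjOn (fun i : ℕ => (i : ZMod n)) (Finset.range 5 : Finset ℕ) := by
      intro a ha b hb h
      simp only [Finset.coe_range, Set.mem_Iio] at ha hb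
      by_contra hab
      exact hc a b (by omega) (by omega) hab h
    have injD : Set.InjOn (fun i : ℕ => (i : ZMod n)) (({1, 2, 7} : Finset ℕ) : Set ℕ) := by
      intro a ha b hb h
      simp only [Finset.coe_insert, Finset.coe_singleton, Set.mem_insert_iff, Set.mem_singleton_iff] at ha hb
      by_contra hab
      exact hc a b (by omega) (by omega) hab h
    have cE : E.card = 5 := by rw [hE, Finset.card_image_of_injOn injE]; simp
    have cD : D'.card = 3 := by rw [hD', Finset.card_image_of_injOn injD]; rfl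
    have sE : ∑ x ∈ E, x = ((10 : ℕ) : ZMod n) := by
      rw [hE, Finset.sum_image injE, ← Nat.cast_sum]
      rfl
    have sD : ∑ x ∈ D', x = ((10 : ℕ) : ZMod n) := by
      rw [hD', Finset.sum_image injD, ← Nat.cast_sum]
      rfl
    have sU : ∑ x : ZMod n, x = 0 := by
      rw [sumAll]
      have h1 : n * (n - 1) / 2 = n * ((n - 1) / 2) := by
        apply Nat.mul_div_assoc
        omega
      rw [h1]; simp
    have sUD : ∑ x ∈ D'ᶜ, x + ((10 : ℕ) : ZMod n) = 0 := by
      rw [← sD, Finset.sum_compl_add_sum, sU]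
    refine ⟨(({0} : Finset (ZMod 3)) ×ˢ D'ᶜ ∪ ({1} : Finset (ZMod 3)) ×ˢ E), ?_, ?_⟩
    · rw [card_aux, cE, Finset.card_compl, cD, ZMod.card]; omega
    · apply good_aux
      · rw [cE]; rfl
      · rw [sE, sUD]
        intro a ha b hb hab h
        rw [hE, Finset.mem_image] at ha hb
        obtain ⟨i, hi, rfl⟩ := ha
        obtain ⟨j, hj, rfl⟩ := hb
        simp only [Finset.mem_range] at hi hj
        have hij : i ≠ j := fun hh => hab (by rw [hh])
        rw [← Nat.cast_add] at h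
        exact hc (i + j) 0 (by omega) (by omega) (by omega) (by simpa using h)

end Pool.Agent.Helper450.WZJ5
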