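import Mathlib
namespace Pool.Agent.Helper450.WZJ6

theorem classify (k : ℕ) (hk : 2 ≤ k) (h8 : k ≠ 8) (h2 : ∀ b, k ≠ 2 * 3 ^ b)
    (h4 : ∀ b, k ≠ 4 * 3 ^ b) (hp : ∀ p, p.Prime → k ≠ 2 * p)
    (h1 : ¬ ∀ p, p.Prime → p ∣ k → p % 3 = 1) :
    (∃ N k', k = N * k' ∧ N % 3 = 2 ∧ 5 ≤ N ∧ (3 ≤ k' ∨ (k' = 1 ∧ N % 2 = 1))) ∨
    (∃ M, k = 4 * M ∧ M % 3 = 1 ∧ 4 ≤ M) ∨ (k % 2 = 1 ∧ 3 ∣ k) := by
  push Not at h1
  obtain ⟨p, hpp, hpk, hp1⟩ := h1
  have hp2 := hpp.two_le
  rcases Nat.mod_two_eq_zero_or_one k with hk2 | hk2
  · -- k even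
    by_cases ha : ∃ q, q.Prime ∧ 5 ≤ q ∧ q % 3 = 2 ∧ q ∣ k
    · obtain ⟨q, hq, hq5, hq3, k', rfl⟩ := ha
      left
      refine ⟨q, k', rfl, hq3, hq5, Or.inl ?_⟩
      have hqodd : q % 2 = 1 := by
        rcases hq.eq_two_or_odd with h | h
        · omega
        · exact h
      have hk'e : k' % 2 = 0 := by
        have := Nat.mul_mod q k' 2
        rw [hqodd, hk2] at this
        omega
      have hk'2 : k' ≠ 2 := by
        rintro rfl
        exact hp q hq (by ring)
      have hk'0 : k' ≠ 0 := by
        rintro rfl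
        omega
      omega
    · push Not at ha
      have hodd : ∀ q, q.Prime → q ∣ k → q = 2 ∨ q = 3 ∨ (q % 3 = 1 ∧ 7 ≤ q) := by
        intro q hq hqk
        have h2q := hq.two_le
        by_cases h : q ≤ 4
        · have : q ≠ 4 := by rintro rfl; revert hq; decide
          omega
        · have h3 : q % 3 ≠ 2 := fun h' => ha q hq (by omega) h' hqk
          have h0 : q % 3 ≠ 0 := by
            intro h0
            have : (3 : ℕ) ∣ q := Nat.dvd_of_mod_eq_zero h0
            rcases hq.eq_one_or_self_of_dvd 3 this with h | h <;> omega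
          have h5 : q ≠ 5 := by rintro rfl; exact h3 rfl
          have h6 : q ≠ 6 := by rintro rfl; exact h0 rfl
          right; right
          omega
      by_cases h8k : 8 ∣ k
      · obtain ⟨k', rfl⟩ := h8k
        have : k' ≠ 1 := by rintro rfl; exact h8 rfl
        rcases Nat.lt_or_ge k' 3 with h | h
        · have : k' = 2 := by omega
          subst this
          exact Or.inr (Or.inl ⟨4, by norm_num, by norm_num, by norm_num⟩)
        · exact Or.inl ⟨8, k', rfl, by norm_num, by norm_num, Or.inl h⟩
      · by_cases hq : ∃ q, q.Prime ∧ q % 3 = 1 ∧ 7 ≤ q ∧ q ∣ k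
        · obtain ⟨q, hq, hq3, hq7, hqk⟩ := hq
          have h2k : 2 ∣ k := Nat.dvd_of_mod_eq_zero hk2
          have hcop : Nat.Coprime 2 q := by
            rw [Nat.coprime_primes Nat.prime_two hq]; omega
          obtain ⟨k', hk'⟩ := hcop.mul_dvd_of_dvd_of_dvd h2k hqk
          have h1' : k' ≠ 1 := by
            rintro rfl
            exact hp q hq (by rw [hk']; ring)
          have h0' : k' ≠ 0 := by rintro rfl; omega
          rcases Nat.lt_or_ge k' 3 with h | h
          · have : k' = 2 := by omega
            subst this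
            exact Or.inr (Or.inl ⟨q, by rw [hk']; ring, hq3, by omega⟩)
          · exact Or.inl ⟨2 * q, k', hk', by omega, by omega, Or.inl h⟩
        · exfalso
          push Not at hq
          have hall : ∀ q, q.Prime → q ∣ k → q = 2 ∨ q = 3 := by
            intro q hqp hqk
            rcases hodd q hqp hqk with h | h | ⟨h, h'⟩
            · exact Or.inl h
            · exact Or.inr h
            · exact absurd hqk (hq q hqp h h')
          have key : ∀ u, u ∣ k → u % 2 = 1 → ∃ b, u = 3 ^ b := by
            intro u huk hu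
            refine ⟨_, Nat.eq_prime_pow_of_unique_prime_dvd (p := 3) (by omega) ?_⟩
            intro d hd hdu
            rcases hall d hd (hdu.trans huk) with h | h
            · subst h
              omega
            · exact h
          obtain ⟨v, hv⟩ : 2 ∣ k := Nat.dvd_of_mod_eq_zero hk2
          rcases Nat.mod_two_eq_zero_or_one v with hv2 | hv2
          · obtain ⟨w, hw⟩ : 2 ∣ v := Nat.dvd_of_mod_eq_zero hv2
            have hw2 : w % 2 = 1 := by
              rcases Nat.mod_two_eq_zero_or_one w with h | h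
              · exfalso; apply h8k; omega
              · exact h
            obtain ⟨b, hb⟩ := key w ⟨4, by omega⟩ hw2
            exact h4 b (by rw [← hb]; omega)
          · obtain ⟨b, hb⟩ := key v ⟨2, by omega⟩ hv2
            exact h2 b (by rw [← hb]; omega)
  · -- k odd
    by_cases h30 : p % 3 = 0
    · have h3p : (3 : ℕ) ∣ p := Nat.dvd_of_mod_eq_zero h30
      exact Or.inr (Or.inr ⟨hk2, h3p.trans hpk⟩)
    · have hp32 : p % 3 = 2 := by omega
      obtain ⟨k', rfl⟩ := hpk
      have hpodd : p % 2 = 1 := by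
        rcases Nat.mod_two_eq_zero_or_one p with h | h
        · have := Nat.mul_mod p k' 2
          rw [h, hk2] at this
          omega
        · exact h
      have hk'odd : k' % 2 = 1 := by
        rcases Nat.mod_two_eq_zero_or_one k' with h | h
        · have := Nat.mul_mod p k' 2
          rw [h, hk2] at this
          omega
        · exact h
      left
      refine ⟨p, k', rfl, hp32, by omega, ?_⟩
      rcases Nat.lt_or_ge k' 3 with h | h
      · exact Or.inr ⟨by omega, hpodd⟩
      · exact Or.inl h

end Pool.Agent.Helper450.WZJ6
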