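import Mathlib
import Pool.Agent.Helper450.WZFour
import Pool.Agent.Helper450.WZJ2
import Pool.Agent.Helper450.WZJ3
import Pool.Agent.Helper450.WZJ4
import Pool.Agent.Helper450.WZJ5
import Pool.Agent.Helper450.WZJ6

set_option autoImplicit false
set_option linter.unusedSectionVars false

open Finset
open scoped Pointwise
open Pool.Agent.Helper450.Kneser

namespace Pool.Agent.Helper450.WZ

/-- The group. -/
abbrev Gk (k : ℕ) : Type := ZMod 3 × ZMod (3 * k)

section concrete

variable (k : ℕ) [NeZero k]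

theorem card_Gk : Fintype.card (Gk k) = 9 * k := by
  rw [Fintype.card_prod, ZMod.card, ZMod.card]; ring

theorem exp_Gk (g : Gk k) : (3 * k) • g = 0 := by
  apply Prod.ext
  · rw [Prod.smul_fst, nsmul_eq_mul, Nat.cast_mul]
    have : ((3 : ℕ) : ZMod 3) = 0 := by decide
    rw [this, zero_mul, zero_mul]; rfl
  · rw [Prod.smul_snd, nsmul_eq_mul, ZMod.natCast_self, zero_mul]; rfl

/-- reduction of the second coordinate -/
def red (k m : ℕ) (h : m ∣ 3 * k) : Gk k →+ ZMod m :=
  (ZMod.castHom h (ZMod m)).toAddMonoidHom.comp (AddMonoidHom.snd (ZMod 3) (ZMod (3 * k)))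

theorem red_surj (m : ℕ) (h : m ∣ 3 * k) : Function.Surjective (red k m h) := by
  intro y
  obtain ⟨b, hb⟩ := ZMod.castHom_surjective h y
  exact ⟨(0, b), hb⟩

theorem pi_Gk (x : Gk k) : ∃ π : Gk k →+ ZMod 3, Function.Surjective π ∧ π x = 0 := by
  have h3 : 3 ∣ 3 * k := dvd_mul_right 3 k
  have h1 : ∀ s t : ZMod 3, ∃ α β : ZMod 3, (α ≠ 0 ∨ β ≠ 0) ∧ α * s + β * t = 0 := by decide
  obtain ⟨α, β, hne, h0⟩ := h1 x.1 (red k 3 h3 x)
  refine ⟨(AddMonoidHom.mulLeft α).comp (AddMonoidHom.fst (ZMod 3) (ZMod (3 * k))) +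
    (AddMonoidHom.mulLeft β).comp (red k 3 h3), ?_, h0⟩
  intro m
  have h2 : ∀ α β : ZMod 3, (α ≠ 0 ∨ β ≠ 0) → ∀ m, ∃ a b : ZMod 3, α * a + β * b = m := by decide
  obtain ⟨a, b, hab⟩ := h2 α β hne m
  obtain ⟨w, hw⟩ := ZMod.castHom_surjective h3 b
  refine ⟨(a, w), ?_⟩
  rw [← hab, ← hw]
  rfl

theorem two_tor_Gk : (univ.filter fun u : Gk k => u + u = 0).card ≤ 2 := by
  have h : (univ.filter fun u : Gk k => u + u = 0) ⊆ {0, (0, ((3 * k / 2 : ℕ) : ZMod (3 * k)))} := by
    intro u hu
    have h1 := (Finset.mem_filter.mp hu).2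
    have e1 : u.1 + u.1 = 0 := congrArg Prod.fst h1
    have e2 : u.2 + u.2 = 0 := congrArg Prod.snd h1
    have h3 : ∀ a : ZMod 3, a + a = 0 → a = 0 := by decide
    have f1 := h3 _ e1
    have h4 := (ZMod.neg_eq_self_iff u.2).mp (neg_eq_of_add_eq_zero_left e2)
    rw [Finset.mem_insert, Finset.mem_singleton]
    rcases h4 with h4 | h4
    · exact Or.inl (Prod.ext f1 h4)
    · right
      apply Prod.ext f1
      change u.2 = _
      rw [← ZMod.natCast_zmod_val u.2]
      congr 1
      omega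
  exact (Finset.card_le_card h).trans Finset.card_le_two

theorem three_tor_Gk : (univ.filter fun u : Gk k => u + u + u = 0).card ≤ 9 := by
  have h : (univ.filter fun u : Gk k => u + u + u = 0) ⊆
      (univ : Finset (ZMod 3)) ×ˢ (Finset.image (fun i : ℕ => ((k * i : ℕ) : ZMod (3 * k)))
        (Finset.range 3)) := by
    intro u hu
    have h1 := (Finset.mem_filter.mp hu).2
    have e2 : u.2 + u.2 + u.2 = 0 := congrArg Prod.snd h1
    rw [Finset.mem_product]
    refine ⟨Finset.mem_univ _, ?_⟩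
    have h2 : ((3 * u.2.val : ℕ) : ZMod (3 * k)) = 0 := by
      push_cast
      rw [ZMod.natCast_zmod_val, ← e2]; ring
    rw [ZMod.natCast_eq_zero_iff] at h2
    have h3 : k ∣ u.2.val := Nat.dvd_of_mul_dvd_mul_left (by norm_num) h2
    obtain ⟨i, hi⟩ := h3
    rw [Finset.mem_image]
    refine ⟨i, ?_, ?_⟩
    · rw [Finset.mem_range]
      have h4 := ZMod.val_lt u.2
      rw [hi, mul_comm 3 k] at h4
      exact Nat.lt_of_mul_lt_mul_left h4
    · rw [← hi, ZMod.natCast_zmod_val]
  refine (Finset.card_le_card h).trans ?_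
  rw [Finset.card_product, Finset.card_univ, ZMod.card]
  have := Finset.card_image_le (s := Finset.range 3) (f := fun i : ℕ => ((k * i : ℕ) : ZMod (3 * k)))
  rw [Finset.card_range] at this
  omega

theorem five_tor_Gk (hk : k = 10) : (univ.filter fun v : Gk k => (5 : ℕ) • v = 0).card ≤ 5 := by
  have h : (univ.filter fun v : Gk k => (5 : ℕ) • v = 0) ⊆
      (Finset.range 5).image (fun i : ℕ => ((0, ((6 * i : ℕ) : ZMod (3 * k))) : Gk k)) := by
    intro v hv
    have h1 := (Finset.mem_filter.mp hv).2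
    have e1 : (5 : ℕ) • v.1 = 0 := congrArg Prod.fst h1
    have e2 : (5 : ℕ) • v.2 = 0 := congrArg Prod.snd h1
    have h3 : ∀ a : ZMod 3, (5 : ℕ) • a = 0 → a = 0 := by decide
    have f1 := h3 _ e1
    have h2 : ((5 * v.2.val : ℕ) : ZMod (3 * k)) = 0 := by
      rw [Nat.cast_mul, ZMod.natCast_zmod_val, ← nsmul_eq_mul]
      exact e2
    rw [ZMod.natCast_eq_zero_iff] at h2
    have h4 := ZMod.val_lt v.2
    have h5 : 6 ∣ v.2.val := by
      have h6 : 5 * 6 ∣ 5 * v.2.val := by
        have e : 5 * 6 = 3 * k := by rw [hk]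
        rw [e]; exact h2
      exact Nat.dvd_of_mul_dvd_mul_left (by norm_num) h6
    obtain ⟨i, hi⟩ := h5
    rw [Finset.mem_image]
    refine ⟨i, Finset.mem_range.mpr (by omega), ?_⟩
    apply Prod.ext
    · exact f1.symm
    · change ((6 * i : ℕ) : ZMod (3 * k)) = v.2
      rw [← hi, ZMod.natCast_zmod_val]
  exact (Finset.card_le_card h).trans (Finset.card_image_le.trans (by simp))

theorem ten_ker (hk : k = 10) (h2 : 2 ∣ 3 * k) (u : Gk k) (hu : red k 2 h2 u = 0) :
    (5 : ℕ) • (u + u + u) = 0 := by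
  have h1 : ((u.2.val : ℕ) : ZMod 2) = 0 := by
    have h3 : ZMod.castHom h2 (ZMod 2) u.2 = 0 := hu
    rw [← ZMod.natCast_zmod_val u.2, map_natCast] at h3
    exact h3
  rw [ZMod.natCast_eq_zero_iff] at h1
  obtain ⟨j, hj⟩ := h1
  apply Prod.ext
  · have h3 : ∀ a : ZMod 3, (5 : ℕ) • (a + a + a) = 0 := by decide
    exact h3 u.1
  · change (5 : ℕ) • (u.2 + u.2 + u.2) = 0
    have e : (5 : ℕ) • (u.2 + u.2 + u.2) = ((3 * k * j : ℕ) : ZMod (3 * k)) := by
      have e2 : u.2 = ((2 * j : ℕ) : ZMod (3 * k)) := by rw [← hj, ZMod.natCast_zmod_val]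
      rw [e2, nsmul_eq_mul, ← Nat.cast_add, ← Nat.cast_add, ← Nat.cast_mul, hk]
      congr 1; ring
    rw [e, Nat.cast_mul, ZMod.natCast_self, zero_mul]

end concrete

theorem mod_three_of_primes (n : ℕ) (hn : 0 < n) (h : ∀ p, p.Prime → p ∣ n → p % 3 = 1) :
    n % 3 = 1 := by
  induction n using Nat.strong_induction_on with
  | _ n ih =>
    rcases Nat.lt_or_ge 1 n with h1 | h1
    · have hp := Nat.minFac_prime (by omega : n ≠ 1)
      obtain ⟨m, hm⟩ := Nat.minFac_dvd n
      have hmpos : 0 < m := Nat.pos_of_ne_zero (by rintro rfl; omega)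
      have hmlt : m < n := by
        have := hp.two_le
        nlinarith
      have h2 := ih m hmlt hmpos (fun p hp' hd => h p hp' (by
        rw [hm]; exact Dvd.dvd.mul_left hd _))
      have h3 := h _ hp (Nat.minFac_dvd n)
      rw [hm, Nat.mul_mod, h3, h2]
    · have : n = 1 := by omega
      rw [this]

/-- The values of `k` with the smaller answer. -/
def Small (k : ℕ) : Prop :=
  k = 8 ∨ (∃ b : ℕ, k = 2 * 3 ^ b) ∨ (∃ b : ℕ, k = 4 * 3 ^ b) ∨
    (∃ p : ℕ, p.Prime ∧ k = 2 * p) ∨ (∀ p : ℕ, p.Prime → p ∣ k → p % 3 = 1)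

/-- the order-five case for `k = 10` -/
theorem caseII_ten {G : Type*} [AddCommGroup G] [Fintype G] [DecidableEq G] {k : ℕ}
    (hk : k = 10) (hexp : ∀ g : G, (3 * k) • g = 0) (ε : G →+ ZMod 2)
    {H : AddSubgroup G} {A : Finset G} (hH : (fs H).card = 5)
    (h : Star H A) (hA : A.card = 3 * k + 3) (hc : (A + fs H).card = 3 * k + (fs H).card) {x : G}
    (hbad : Bad3 A x) (hσ : ∑ a ∈ A, a = x) {g0 g1 : G} (hg0 : g0 ∈ Tset H A x)
    (hg1 : g1 ∈ Tset H A x) (hne : g0 - g1 ∉ H)
    (hfull : ∀ a ∈ A + fs H, a ∉ Tset H A x → a ∈ A)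
    (h3 : ∀ u : G, ε u = 0 → u + u + u ∈ H) : False := by
  have hodd : (fs H).card % 2 = 1 := by rw [hH]
  have hεH : ∀ g ∈ H, ε g = 0 := odd_hom_zero ε (m := 1) (by decide) hodd
  obtain ⟨hT, -, -⟩ := shift_sum ε hexp hA hσ hεH (by decide) hg0 hfull
  have hpar := parity_even ε hexp hA hσ hεH hg0 hfull
  have hsplit := Finset.card_filter_add_card_filter_not (s := A + fs H) (fun a => ε a = ε g0)
  rw [hc, hH, hk] at hsplit
  have hTc := Tset_card_gt h hodd hbad hg0 hg1 hne (by omega)
  rw [hH] at hTc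
  have h1 : ((A + fs H).filter fun a => ε a = ε g0) ⊆ Tset H A x := by
    intro a ha
    rw [Finset.mem_filter] at ha
    rw [mem_Tset]
    refine ⟨ha.1, ?_⟩
    have h4 := h3 (a - g0) (by rw [map_sub, ha.2, sub_self])
    have e : x - (a + a + a) = (x - (g0 + g0 + g0)) - (a - g0 + (a - g0) + (a - g0)) := by abel
    rw [e]
    exact H.sub_mem (mem_Tset.mp hg0).2 h4
  have h2 : cs H g0 ∪ cs H g1 ⊆ (A + fs H).filter fun a => ε a = ε g0 := by
    intro a ha
    have haT : a ∈ Tset H A x := by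
      rcases Finset.mem_union.mp ha with ha | ha
      · exact (per_Tset H A x).cs_subset hg0 ha
      · exact (per_Tset H A x).cs_subset hg1 ha
    rw [Finset.mem_filter]
    exact ⟨(mem_Tset.mp haT).1, hT a haT⟩
  have h4 := Finset.card_le_card h1
  have h5 := Finset.card_le_card h2
  rw [Finset.card_union_of_disjoint (cs_disjoint hne), card_cs, card_cs, hH] at h5
  omega

theorem three_sum {k : ℕ} (hk : 0 < k) (hS : Small k) (A : Finset (Gk k))
    (hA : A.card = 3 * k + 3) : ¬ Bad3 A (∑ a ∈ A, a) := by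
  intro hbad
  have : NeZero k := ⟨by omega⟩
  have hG := card_Gk k
  have hexp := exp_Gk k
  obtain ⟨x, hσ⟩ : ∃ x, ∑ a ∈ A, a = x := ⟨_, rfl⟩
  rw [hσ] at hbad
  obtain ⟨π, hπs, hπx⟩ := pi_Gk k x
  obtain ⟨H, hHπ, hHd, hH3, hHc⟩ := exists_star hG hk π hπs hπx hA hbad
  have hstar := star_of_card hH3 hA hHc
  -- reduce `k = 2p` to `p ≥ 5`
  have hS' : k = 8 ∨ (∃ b : ℕ, k = 2 * 3 ^ b) ∨ (∃ b : ℕ, k = 4 * 3 ^ b) ∨
      (∃ p : ℕ, p.Prime ∧ 5 ≤ p ∧ k = 2 * p) ∨ (∀ p : ℕ, p.Prime → p ∣ k → p % 3 = 1) := by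
    rcases hS with h | h | h | h | h
    · exact Or.inl h
    · exact Or.inr (Or.inl h)
    · exact Or.inr (Or.inr (Or.inl h))
    · obtain ⟨p, hp, rfl⟩ := h
      rcases Nat.lt_or_ge p 5 with h5 | h5
      · have h2 := hp.two_le
        have h4 : p ≠ 4 := by rintro rfl; revert hp; decide
        have h23 : p = 2 ∨ p = 3 := by omega
        rcases h23 with rfl | rfl
        · exact Or.inr (Or.inr (Or.inl ⟨0, by norm_num⟩))
        · exact Or.inr (Or.inl ⟨1, by norm_num⟩)
      · exact Or.inr (Or.inr (Or.inr (Or.inl ⟨p, hp, h5, rfl⟩)))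
    · exact Or.inr (Or.inr (Or.inr (Or.inr h)))
  rcases (Tset H A x).eq_empty_or_nonempty with hT | ⟨g0, hg0⟩
  · -- case I
    have hno : ∀ a ∈ A, ∀ b ∈ A, ∀ c ∈ A, a + b + c ≠ x := by
      intro a ha b hb c hc e
      have ha' := subset_add_fs H A ha
      obtain ⟨h1, h2⟩ := triv3 hstar hbad ha' (subset_add_fs H A hb) (subset_add_fs H A hc)
        (by rw [e, sub_self]; exact H.zero_mem)
      have : a ∈ Tset H A x := by
        rw [mem_Tset]
        refine ⟨ha', ?_⟩
        have e2 : x - (a + a + a) = -(a - b) - ((a - b) + (b - c)) := by rw [← e]; abel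
        rw [e2]
        exact H.sub_mem (H.neg_mem h1) (H.add_mem h1 h2)
      rw [hT] at this
      exact absurd this (Finset.notMem_empty _)
    obtain ⟨K, N, m, hN, hm, hKc, hKx⟩ := caseI hG hA hno
    have hN2 : N ≠ 2 := by
      rintro rfl
      have : m = 1 := by omega
      rw [this, one_mul] at hKc
      exact caseI_N2 hexp hA hσ hKc hKx
    have hN3 : N % 3 = 2 := by omega
    have hNcop : Nat.Coprime N 3 := by
      rw [Nat.coprime_comm, Nat.Prime.coprime_iff_not_dvd Nat.prime_three]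
      omega
    have hNk : N ∣ k := by
      have h1 : N ∣ 9 * k := ⟨_, hN.symm⟩
      have h9 : Nat.Coprime N 9 := by
        have := Nat.Coprime.pow_right 2 hNcop
        simpa using this
      exact h9.dvd_of_dvd_mul_left h1
    rcases hS' with h | h | h | h | h
    · subst h
      have hNle := Nat.le_of_dvd (by norm_num) hNk
      have hN8 : N = 8 := by
        have : N = 2 ∨ N = 5 ∨ N = 8 := by omega
        rcases this with h | h | h
        · exact absurd h hN2
        · rw [h] at hNk; omega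
        · exact h
      subst hN8
      have hK9 : (fs K).card = 9 := by omega
      have hm3 : m = 3 := by omega
      rw [hm3, hK9] at hKc
      exact caseI_8 (by rw [hG]) hA hσ hK9 hKc hKx
    · obtain ⟨b, rfl⟩ := h
      have h1 : N ∣ 2 := (Nat.Coprime.pow_right b hNcop).dvd_of_dvd_mul_right hNk
      have := Nat.le_of_dvd (by norm_num) h1
      omega
    · obtain ⟨b, rfl⟩ := h
      have h1 : N ∣ 4 := (Nat.Coprime.pow_right b hNcop).dvd_of_dvd_mul_right hNk
      have := Nat.le_of_dvd (by norm_num) h1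
      omega
    · obtain ⟨p, hp, hp5, rfl⟩ := h
      have hp3 : p ≠ 3 := by omega
      rcases Nat.mod_two_eq_zero_or_one N with hpar | hpar
      · -- N = 2 * j, j ∣ p
        obtain ⟨j, rfl⟩ : ∃ j, N = 2 * j := ⟨N / 2, by omega⟩
        have hj : j ∣ p := Nat.dvd_of_mul_dvd_mul_left (by norm_num) hNk
        rcases (Nat.dvd_prime hp).mp hj with h1 | h1
        · rw [h1] at hN2; exact hN2 (by norm_num)
        · subst h1
          have hK9 : (fs K).card = 9 := by
            have e : 2 * j * (fs K).card = 2 * j * 9 := by rw [hN]; ring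
            exact Nat.eq_of_mul_eq_mul_left (by omega) e
          exact caseI_2p hp hp5 hG (red _ 2 ⟨3 * j, by ring⟩) (red_surj _ 2 _) hA hσ hK9 hm hKc hno
      · have hj : N ∣ p := by
          refine Nat.Coprime.dvd_of_dvd_mul_left ?_ hNk
          rw [Nat.coprime_comm, Nat.coprime_two_left, Nat.odd_iff]
          exact hpar
        rcases (Nat.dvd_prime hp).mp hj with h1 | h1
        · omega
        · subst h1
          have hK18 : (fs K).card = 18 := by
            have e : N * (fs K).card = N * 18 := by rw [hN]; ring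
            exact Nat.eq_of_mul_eq_mul_left (by omega) e
          exact caseI_p hp hp5 hG (red _ N ⟨6, by ring⟩) (red_surj _ N _) hA hσ hK18 hm hKc hKx
    · have hNpos : 0 < N := by omega
      have := mod_three_of_primes N hNpos (fun p hp hd => h p hp (hd.trans hNk))
      omega
  · -- case II
    obtain ⟨hodd, g1, hg1, hne, hD0, hD1⟩ := caseII hG hstar hHc hbad hg0
    have hfull : ∀ a ∈ A + fs H, a ∉ Tset H A x → a ∈ A := fun a ha haT =>
      caseII_full hstar hg0 hg1 hne hD0 hD1 ha haT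
    have hTc : (Tset H A x).card ≤ 4 * (fs H).card := by
      rcases hH3.lt_or_eq with h3 | h3
      · have := Tset_card_gt hstar hodd hbad hg0 hg1 hne h3
        omega
      · have := Tset_card_three hstar hbad h3.symm (three_tor_Gk k)
        omega
    have hclass := lemmaD_class hodd (Finset.inter_subset_right (s₁ := A) (s₂ := cs H g0))
      (mem_Tset.mp hg0).2 (hbad.mono Finset.inter_subset_left) hD0
    -- the case `3 ∤ k`, `k ≠ 10`
    have main : ¬ 3 ∣ k → (5 ∣ k → k = 10) → False := by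
      intro hk3 hk5
      rcases hclass with h3 | h5 | h9
      · exact caseII_three hk3 hexp hstar hbad hσ hg0 h3
      · have h1 : 5 ∣ 3 * k := by rw [← h5]; exact hHd
        have h2 : 5 ∣ k := (by norm_num : Nat.Coprime 5 3).dvd_of_dvd_mul_left h1
        have h10 := hk5 h2
        have h2k : 2 ∣ 3 * k := ⟨15, by rw [h10]⟩
        refine caseII_ten h10 hexp (red k 2 h2k) h5 hstar hA hHc hbad hσ hg0 hg1 hne
          hfull ?_
        have hS5 : fs H = univ.filter fun v : Gk k => (5 : ℕ) • v = 0 := by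
          apply Finset.eq_of_subset_of_card_le
          · intro v hv
            rw [Finset.mem_filter]
            refine ⟨Finset.mem_univ _, ?_⟩
            have := card_nsmul_mem (mem_fs.mp hv)
            rwa [h5] at this
          · rw [h5]
            exact five_tor_Gk k h10
        intro u hu
        rw [← mem_fs, hS5, Finset.mem_filter]
        exact ⟨Finset.mem_univ _, ten_ker k h10 h2k u hu⟩
      · have h1 : 9 ∣ 3 * k := by rw [← h9]; exact hHd
        apply hk3
        omega
    rcases hS' with h | h | h | h | h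
    · subst h
      exact main (by norm_num) (by norm_num)
    · obtain ⟨b, rfl⟩ := h
      exact caseC_two hG hexp (red _ 2 ⟨3 * 3 ^ b, by ring⟩) (red_surj _ 2 _) hstar hA hHc hHd
        hbad hσ hg0 hfull hodd hTc
    · obtain ⟨b, rfl⟩ := h
      exact caseC_four hG hexp (red _ 4 ⟨3 * 3 ^ b, by ring⟩) (red_surj _ 4 _) hstar hA hHc hHd
        hbad hσ hg0 hfull hodd hTc
    · obtain ⟨p, hp, hp5, rfl⟩ := h
      apply main
      · intro h3
        have h4 : 3 ∣ p := (by norm_num : Nat.Coprime 3 2).dvd_of_dvd_mul_left h3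
        have := (Nat.prime_dvd_prime_iff_eq Nat.prime_three hp).mp h4
        omega
      · intro h5
        have h4 : 5 ∣ p := (by norm_num : Nat.Coprime 5 2).dvd_of_dvd_mul_left h5
        have := (Nat.prime_dvd_prime_iff_eq (by norm_num : Nat.Prime 5) hp).mp h4
        omega
    · apply main
      · intro h3
        have := h 3 Nat.prime_three h3
        omega
      · intro h5
        have := h 5 (by norm_num) h5
        omega

end Pool.Agent.Helper450.WZ
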